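import Pool.Agent.Helper9.SQ.Cpx
import Pool.Agent.Helper3.FJ.Tree

/-!
# Collapsing a simply connected square complex to a tree
-/

set_option autoImplicit false

namespace Pool.Agent.Helper9.SQ

open Relation
open Pool.Agent.Helper3.FJ (Cpx)

namespace Sqx

variable {V : Type}

/-- The graph with the edges `T`. -/
def gr (X : Sqx V) (T : V → V → Prop) (hTs : ∀ x y, T x y → T y x)
    (hTa : ∀ x y, T x y → X.adj x y) : Cpx V where
  adj := T
  tri _ _ _ := False
  adj_symm := hTs
  adj_irrefl u h := X.adj_irrefl u (hTa _ _ h)
  tri_rot _ _ _ h := h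
  tri_flip _ _ _ h := h
  tri_adj _ _ _ h := h.elim

section col

variable (T : V → V → Prop) (r : V × V → V × V → Prop) (E : V → V → V → V → Prop)
  (hwf : WellFounded r) {H : Type} [Group H] (c : V → V → H)

open Classical in
/-- The extension of the edge function. -/
noncomputable def exf : V × V → H := hwf.fix fun p rec =>
  if T p.1 p.2 then c p.1 p.2
  else if h : ∃ q : V × V, E p.1 p.2 q.1 q.2 then
    ((if h1 : r (p.2, h.choose.1) p then rec _ h1 else c p.2 h.choose.1) *
      (if h2 : r (h.choose.1, h.choose.2) p then rec _ h2 else c h.choose.1 h.choose.2) *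
      (if h3 : r (h.choose.2, p.1) p then rec _ h3 else c h.choose.2 p.1))⁻¹
  else 1

theorem exf_T {x y : V} (h : T x y) : exf T r E hwf c (x, y) = c x y := by
  rw [exf, hwf.fix_eq, if_pos h]

theorem exf_E (hn : ∀ x y z w, E x y z w → ¬ T x y)
    (h1 : ∀ x y z w, E x y z w → T y z ∨ r (y, z) (x, y))
    (h2 : ∀ x y z w, E x y z w → T z w ∨ r (z, w) (x, y))
    (h3 : ∀ x y z w, E x y z w → T w x ∨ r (w, x) (x, y))
    (hu : ∀ x y z w z' w', E x y z w → E x y z' w' → z = z' ∧ w = w') {x y z w : V}
    (h : E x y z w) :
    exf T r E hwf c (x, y) * exf T r E hwf c (y, z) * exf T r E hwf c (z, w) *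
      exf T r E hwf c (w, x) = 1 := by
  have hex : ∃ q : V × V, E (x, y).1 (x, y).2 q.1 q.2 := ⟨(z, w), h⟩
  have hz : hex.choose = (z, w) := by
    obtain ⟨e1, e2⟩ := hu _ _ _ _ _ _ hex.choose_spec h
    exact Prod.ext e1 e2
  have e1 : exf T r E hwf c (x, y) =
      (exf T r E hwf c (y, hex.choose.1) * exf T r E hwf c (hex.choose.1, hex.choose.2) *
        exf T r E hwf c (hex.choose.2, x))⁻¹ := by
    conv_lhs => rw [exf, hwf.fix_eq]
    rw [if_neg (hn _ _ _ _ h), dif_pos hex]
    congr 3
    · split_ifs with h4
      · rfl
      · rcases h1 _ _ _ _ hex.choose_spec with h5 | h5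
        · exact (exf_T T r E hwf c h5).symm
        · exact (h4 h5).elim
    · split_ifs with h4
      · rfl
      · rcases h2 _ _ _ _ hex.choose_spec with h5 | h5
        · exact (exf_T T r E hwf c h5).symm
        · exact (h4 h5).elim
    · split_ifs with h4
      · rfl
      · rcases h3 _ _ _ _ hex.choose_spec with h5 | h5
        · exact (exf_T T r E hwf c h5).symm
        · exact (h4 h5).elim
  rw [hz] at e1
  rw [e1]
  group

end col

/-- If each edge outside `T` has a designated square, whose other edges come before it, and every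
square is designated, then `T` is a tree. -/
theorem collapse {X : Sqx V} (hX : X.SimplyConn) (T : V → V → Prop) (r : V × V → V × V → Prop)
    (E : V → V → V → V → Prop) (hwf : WellFounded r) (hTs : ∀ x y, T x y → T y x)
    (hTa : ∀ x y, T x y → X.adj x y) (hs : ∀ x y z w, E x y z w → E y x w z)
    (hn : ∀ x y z w, E x y z w → ¬ T x y)
    (h1 : ∀ x y z w, E x y z w → T y z ∨ r (y, z) (x, y))
    (h2 : ∀ x y z w, E x y z w → T z w ∨ r (z, w) (x, y))
    (h3 : ∀ x y z w, E x y z w → T w x ∨ r (w, x) (x, y))
    (hex : ∀ x y, X.adj x y → ¬ T x y → ∃ z w, E x y z w)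
    (hu : ∀ x y z w z' w', E x y z w → E x y z' w' → z = z' ∧ w = w')
    (hall : ∀ x y z w, X.sq x y z w → E x y z w ∨ E y z w x ∨ E z w x y ∨ E w x y z)
    (hsq : ∀ x y z w, E x y z w → X.sq x y z w) : (X.gr T hTs hTa).SimplyConn := by
  obtain ⟨hne, hconn, hsc⟩ := hX
  have symm : ∀ {x y : V}, ReflTransGen T x y → ReflTransGen T y x := by
    intro x y hxy
    induction hxy with
    | refl => exact ReflTransGen.refl
    | tail _ h4 ih => exact ih.head (hTs _ _ h4)
  have s2 : ∀ {x y z w : V}, X.sq x y z w → X.adj y z := fun h =>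
    X.sq_adj _ _ _ _ (X.sq_rot _ _ _ _ h)
  have s3 : ∀ {x y z w : V}, X.sq x y z w → X.adj z w := fun h => s2 (X.sq_rot _ _ _ _ h)
  have s4 : ∀ {x y z w : V}, X.sq x y z w → X.adj w x := fun h => s3 (X.sq_rot _ _ _ _ h)
  have hadj : ∀ p : V × V, X.adj p.1 p.2 → ReflTransGen T p.1 p.2 := by
    intro p
    induction p using hwf.induction with
    | _ p ih =>
      obtain ⟨x, y⟩ := p
      intro hp
      by_cases hT : T x y
      · exact ReflTransGen.single hT
      · obtain ⟨z, w, hz⟩ := hex _ _ hp hT
        have ht := hsq _ _ _ _ hz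
        have a1 : ReflTransGen T y z := by
          rcases h1 _ _ _ _ hz with h5 | h5
          · exact ReflTransGen.single h5
          · exact ih _ h5 (s2 ht)
        have a2 : ReflTransGen T z w := by
          rcases h2 _ _ _ _ hz with h5 | h5
          · exact ReflTransGen.single h5
          · exact ih _ h5 (s3 ht)
        have a3 : ReflTransGen T w x := by
          rcases h3 _ _ _ _ hz with h5 | h5
          · exact ReflTransGen.single h5
          · exact ih _ h5 (s4 ht)
        exact symm ((a1.trans a2).trans a3)
  refine ⟨hne, fun u v => ?_, fun H _ c hc => ?_⟩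
  · have := hconn u v
    induction this with
    | refl => exact ReflTransGen.refl
    | tail _ h4 ih => exact ih.trans (hadj (_, _) h4)
  · have key : ∀ {x y z w : V}, E x y z w →
        exf T r E hwf c (x, y) * exf T r E hwf c (y, z) * exf T r E hwf c (z, w) *
          exf T r E hwf c (w, x) = 1 :=
      fun h => exf_E T r E hwf c hn h1 h2 h3 hu h
    have anti : ∀ p : V × V, X.adj p.1 p.2 →
        exf T r E hwf c p * exf T r E hwf c (p.2, p.1) = 1 := by
      intro p
      induction p using hwf.induction with
      | _ p ih =>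
        obtain ⟨x, y⟩ := p
        intro hp
        by_cases hT : T x y
        · rw [exf_T T r E hwf c hT, exf_T T r E hwf c (hTs _ _ hT)]
          exact hc.1 _ _ hT
        · obtain ⟨z, w, hz⟩ := hex _ _ hp hT
          have ht := hsq _ _ _ _ hz
          have a1 : exf T r E hwf c (y, z) * exf T r E hwf c (z, y) = 1 := by
            rcases h1 _ _ _ _ hz with h5 | h5
            · rw [exf_T T r E hwf c h5, exf_T T r E hwf c (hTs _ _ h5)]
              exact hc.1 _ _ h5
            · exact ih _ h5 (s2 ht)
          have a2 : exf T r E hwf c (z, w) * exf T r E hwf c (w, z) = 1 := by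
            rcases h2 _ _ _ _ hz with h5 | h5
            · rw [exf_T T r E hwf c h5, exf_T T r E hwf c (hTs _ _ h5)]
              exact hc.1 _ _ h5
            · exact ih _ h5 (s3 ht)
          have a3 : exf T r E hwf c (w, x) * exf T r E hwf c (x, w) = 1 := by
            rcases h3 _ _ _ _ hz with h5 | h5
            · rw [exf_T T r E hwf c h5, exf_T T r E hwf c (hTs _ _ h5)]
              exact hc.1 _ _ h5
            · exact ih _ h5 (s4 ht)
          have e1 := key hz
          have e2 := key (hs _ _ _ _ hz)
          rw [eq_inv_of_mul_eq_one_left a1, eq_inv_of_mul_eq_one_left a2,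
            eq_inv_of_mul_eq_one_left a3] at e1
          have e5 : exf T r E hwf c (x, y) = exf T r E hwf c (x, w) *
              exf T r E hwf c (w, z) * exf T r E hwf c (z, y) := by
            have := eq_inv_of_mul_eq_one_left e1
            rw [inv_inv] at this
            rw [mul_assoc, mul_assoc, ← mul_inv_rev] at e1
            calc exf T r E hwf c (x, y) = exf T r E hwf c (x, y) *
                  ((exf T r E hwf c (z, y))⁻¹ * ((exf T r E hwf c (x, w)) *
                    exf T r E hwf c (w, z))⁻¹) * (exf T r E hwf c (x, w) *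
                      exf T r E hwf c (w, z) * exf T r E hwf c (z, y)) := by group
              _ = exf T r E hwf c (x, w) * exf T r E hwf c (w, z) *
                    exf T r E hwf c (z, y) := by rw [e1, one_mul]
          change exf T r E hwf c (x, y) * exf T r E hwf c (y, x) = 1
          rw [e5]
          calc exf T r E hwf c (x, w) * exf T r E hwf c (w, z) * exf T r E hwf c (z, y) *
                exf T r E hwf c (y, x) = (exf T r E hwf c (y, x))⁻¹ *
                  (exf T r E hwf c (y, x) * exf T r E hwf c (x, w) * exf T r E hwf c (w, z) *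
                    exf T r E hwf c (z, y)) * exf T r E hwf c (y, x) := by group
            _ = 1 := by rw [e2, mul_one, inv_mul_cancel]
    have rot : ∀ {a b c d : H}, b * c * d * a = 1 → a * b * c * d = 1 := by
      intro a b c d h
      have h5 := eq_inv_of_mul_eq_one_right h
      rw [h5]
      group
    obtain ⟨g, hg⟩ := hsc H (fun x y => exf T r E hwf c (x, y)) ⟨fun x y hxy => anti (x, y) hxy,
      fun x y z w ht => by
        rcases hall _ _ _ _ ht with h5 | h5 | h5 | h5
        · exact key h5
        · exact rot (key h5)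
        · exact rot (rot (key h5))
        · exact rot (rot (rot (key h5)))⟩
    refine ⟨g, fun x y hxy => ?_⟩
    have := hg x y (hTa _ _ hxy)
    rwa [exf_T T r E hwf c hxy] at this

end Sqx

end Pool.Agent.Helper9.SQ
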