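import Pool.Agent.Helper9.SQ.Lift
import Pool.Agent.Helper9.SQ.Col

/-!
# Groups acting with finite stabilizers on simply connected complexes are colimits
-/

set_option autoImplicit false

namespace Pool.Agent.Helper9.SQ

open Relation Pool.Agent.Helper29.BA Pool.Agent.Helper29.PA
open Pool.Agent.Helper3.FJ.Cpx (kadj kadj_symm kadj_mono kadj_smul exists_orbit_reach reach_mem)

namespace Sqx

variable {V : Type}

/-- `X` is a subcomplex of `Y`. -/
def Sub (X Y : Sqx V) : Prop :=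
  (∀ u v, X.adj u v → Y.adj u v) ∧ ∀ u v w x, X.sq u v w x → Y.sq u v w x

/-- The graph. -/
def sk (X : Sqx V) : Pool.Agent.Helper3.FJ.Cpx V := X.gr X.adj X.adj_symm fun _ _ h => h

theorem Sub.trans {X Y Z : Sqx V} (h : X.Sub Y) (h' : Y.Sub Z) : X.Sub Z :=
  ⟨fun _ _ a => h'.1 _ _ (h.1 _ _ a), fun _ _ _ _ a => h'.2 _ _ _ _ (h.2 _ _ _ _ a)⟩

theorem sub_cocycle {X Y : Sqx V} (h : X.Sub Y) : X.Cocycle Y.ec :=
  ⟨fun _ _ a => Y.ec_cocycle.1 _ _ (h.1 _ _ a),
    fun _ _ _ _ a => Y.ec_cocycle.2 _ _ _ _ (h.2 _ _ _ _ a)⟩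

theorem exists_mapPhi {X Y : Sqx V} (h : X.Sub Y) : ∃ f : X.Phi →* Y.Phi,
    ∀ u v, f (X.ec u v) = Y.ec u v :=
  ⟨liftPhi (sub_cocycle h), fun u v => liftPhi_ec _ u v⟩

/-- The map of the universal groups. -/
noncomputable def mapPhi {X Y : Sqx V} (h : X.Sub Y) : X.Phi →* Y.Phi := (exists_mapPhi h).choose

@[simp] theorem mapPhi_ec {X Y : Sqx V} (h : X.Sub Y) (u v : V) :
    mapPhi h (X.ec u v) = Y.ec u v := (exists_mapPhi h).choose_spec u v

theorem mapPhi_mk {X Y : Sqx V} (h : X.Sub Y) (w : FreeGroup (V × V)) :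
    mapPhi h (QuotientGroup.mk w) = QuotientGroup.mk w := by
  have : (mapPhi h).comp (QuotientGroup.mk' _) = QuotientGroup.mk' _ := by
    refine FreeGroup.ext_hom _ _ ?_
    rintro ⟨u, v⟩
    exact mapPhi_ec h u v
  exact congrArg (fun f : FreeGroup (V × V) →* Y.Phi => f w) this

theorem mapPhi_mapPhi {X Y Z : Sqx V} (h : X.Sub Y) (h' : Y.Sub Z) (x : X.Phi) :
    mapPhi h' (mapPhi h x) = mapPhi (h.trans h') x := by
  induction x using QuotientGroup.induction_on with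
  | H w => rw [mapPhi_mk, mapPhi_mk, mapPhi_mk]

variable {G : Type} [Group G] [MulAction G V]

theorem mapPhi_comp_act {X Y : Sqx V} (h : X.Sub Y) (hX : X.Acts G) (hY : Y.Acts G) (g : G) :
    (mapPhi h).comp (actPhi hX g).toMonoidHom = (actPhi hY g).toMonoidHom.comp (mapPhi h) := by
  refine phi_hom_ext fun u v => ?_
  simp

theorem mapPhi_act {X Y : Sqx V} (h : X.Sub Y) (hX : X.Acts G) (hY : Y.Acts G) (g : G)
    (x : X.Phi) : mapPhi h (actPhi hX g x) = actPhi hY g (mapPhi h x) :=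
  congrArg (fun f : X.Phi →* Y.Phi => f x) (mapPhi_comp_act h hX hY g)

/-- The map of the semidirect products. -/
noncomputable def mapPG {X Y : Sqx V} (h : X.Sub Y) (hX : X.Acts G) (hY : Y.Acts G) : PG hX →* PG hY :=
  SemidirectProduct.map (mapPhi h) (MonoidHom.id G) (mapPhi_comp_act h hX hY)

@[simp] theorem mapPG_left {X Y : Sqx V} (h : X.Sub Y) (hX : X.Acts G) (hY : Y.Acts G)
    (x : PG hX) : (mapPG h hX hY x).left = mapPhi h x.left :=
  SemidirectProduct.map_left _ _ _ x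

@[simp] theorem mapPG_right {X Y : Sqx V} (h : X.Sub Y) (hX : X.Acts G) (hY : Y.Acts G)
    (x : PG hX) : (mapPG h hX hY x).right = x.right :=
  SemidirectProduct.map_right _ _ _ x

theorem mapPG_sm {X Y : Sqx V} (h : X.Sub Y) (hX : X.Acts G) (hY : Y.Acts G) (x : PG hX)
    (p : V × X.Phi) : sm hY (mapPG h hX hY x) (p.1, mapPhi h p.2) =
      ((sm hX x p).1, mapPhi h (sm hX x p).2) := by
  rw [sm, sm, mapPG_left, mapPG_right]
  simp only [map_mul, mapPhi_act h hX hY]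

theorem map_reach {X Y : Sqx V} (h : X.Sub Y) {p q : V × X.Phi}
    (hpq : ReflTransGen (adjW X) p q) :
    ReflTransGen (adjW Y) (p.1, mapPhi h p.2) (q.1, mapPhi h q.2) := by
  induction hpq with
  | refl => exact ReflTransGen.refl
  | tail _ h1 ih =>
    refine ih.tail ⟨h.1 _ _ h1.1, ?_⟩
    change mapPhi h _ = mapPhi h _ * Y.ec _ _
    rw [h1.2, map_mul, mapPhi_ec]

variable (v₀ : V)

theorem mapPG_mem {X Y : Sqx V} (h : X.Sub Y) (hX : X.Acts G) (hY : Y.Acts G) (x : PG hX)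
    (hx : x ∈ GG hX v₀) : mapPG h hX hY x ∈ GG hY v₀ := by
  rw [mem_GG] at hx ⊢
  have h1 := map_reach h hx
  rw [← mapPG_sm h hX hY] at h1
  simpa using h1

/-- The map of the groups of the lifts. -/
noncomputable def mapGG {X Y : Sqx V} (h : X.Sub Y) (hX : X.Acts G) (hY : Y.Acts G) :
    GG hX v₀ →* GG hY v₀ where
  toFun x := ⟨mapPG h hX hY x.1, mapPG_mem v₀ h hX hY x.1 x.2⟩
  map_one' := Subtype.ext (map_one _)
  map_mul' x y := Subtype.ext (map_mul _ _ _)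

theorem mapGG_left {X Y : Sqx V} (h : X.Sub Y) (hX : X.Acts G) (hY : Y.Acts G)
    (x : GG hX v₀) : (mapGG v₀ h hX hY x).1.left = mapPhi h x.1.left :=
  mapPG_left h hX hY x.1

theorem mapGG_right {X Y : Sqx V} (h : X.Sub Y) (hX : X.Acts G) (hY : Y.Acts G)
    (x : GG hX v₀) : (mapGG v₀ h hX hY x).1.right = x.1.right :=
  mapPG_right h hX hY x.1

theorem mapGG_mapGG {X Y Z : Sqx V} (h : X.Sub Y) (h' : Y.Sub Z) (hX : X.Acts G) (hY : Y.Acts G)
    (hZ : Z.Acts G) (x : GG hX v₀) :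
    mapGG v₀ h' hY hZ (mapGG v₀ h hX hY x) = mapGG v₀ (h.trans h') hX hZ x := by
  refine Subtype.ext (SemidirectProduct.ext ?_ ?_)
  · rw [mapGG_left, mapGG_left, mapGG_left, mapPhi_mapPhi]
  · rw [mapGG_right, mapGG_right, mapGG_right]

theorem mapGG_eq_one {X Y : Sqx V} (h : X.Sub Y) (hX : X.Acts G) (hY : Y.Acts G)
    (x : GG hX v₀) (h1 : mapPhi h x.1.left = 1) (h2 : x.1.right = 1) :
    mapGG v₀ h hX hY x = 1 := by
  refine Subtype.ext (SemidirectProduct.ext ?_ ?_)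
  · rw [mapGG_left, h1]
    rfl
  · rw [mapGG_right, h2]
    rfl

/-- The projection. -/
noncomputable def prG {X : Sqx V} (hX : X.Acts G) : GG hX v₀ →* G :=
  SemidirectProduct.rightHom.comp (GG hX v₀).subtype

theorem prG_apply {X : Sqx V} (hX : X.Acts G) (x : GG hX v₀) : prG v₀ hX x = x.1.right := rfl

theorem prG_mapGG {X Y : Sqx V} (h : X.Sub Y) (hX : X.Acts G) (hY : Y.Acts G)
    (x : GG hX v₀) : prG v₀ hY (mapGG v₀ h hX hY x) = prG v₀ hX x := by
  rw [prG_apply, prG_apply, mapGG_right]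

theorem mem_GG_mk {X : Sqx V} (hX : X.Acts G) {φ : X.Phi} {γ : G} :
    (⟨φ, γ⟩ : PG hX) ∈ GG hX v₀ ↔ ReflTransGen (adjW X) (v₀, 1) (γ • v₀, φ) := by
  rw [mem_GG, sm, map_one, mul_one]

variable (X : Sqx V) (G)

/-- The subcomplex of the translates of the edges and squares in `s`. -/
def sb (s : Finset V) : Sqx V where
  adj := X.sk.kadj G s
  sq u v w x := X.sq u v w x ∧ ∃ g : G, g • u ∈ s ∧ g • v ∈ s ∧ g • w ∈ s ∧ g • x ∈ s
  adj_symm _ _ := kadj_symm
  adj_irrefl u h := X.adj_irrefl u h.1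
  sq_rot u v w x := fun ⟨h, g, h1, h2, h3, h4⟩ => ⟨X.sq_rot _ _ _ _ h, g, h2, h3, h4, h1⟩
  sq_flip u v w x := fun ⟨h, g, h1, h2, h3, h4⟩ => ⟨X.sq_flip _ _ _ _ h, g, h4, h3, h2, h1⟩
  sq_adj u v w x := fun ⟨h, g, h1, h2, _⟩ => ⟨X.sq_adj _ _ _ _ h, g, h1, h2⟩
  sq_ne u v w x h := X.sq_ne _ _ _ _ h.1

variable {X G}

theorem sb_acts (hA : X.Acts G) (s : Finset V) : (X.sb G s).Acts G := by
  refine ⟨fun g u v h => kadj_smul (X := X.sk) hA.1 g h, fun g u v w x => ?_⟩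
  rintro ⟨h, γ, h1, h2, h3, h4⟩
  refine ⟨hA.2 g _ _ _ _ h, γ * g⁻¹, ?_, ?_, ?_, ?_⟩
  · simpa [mul_smul] using h1
  · simpa [mul_smul] using h2
  · simpa [mul_smul] using h3
  · simpa [mul_smul] using h4

theorem sb_linkGirth (hX : X.LinkGirth) (s : Finset V) : (X.sb G s).LinkGirth :=
  ⟨fun v a b x y h1 h2 => hX.two _ _ _ _ _ h1.1 h2.1,
    fun v a b c x y z h1 h2 h3 => hX.three _ _ _ _ _ _ _ h1.1 h2.1 h3.1⟩

theorem sb_sub {s t : Finset V} (h : s ⊆ t) : (X.sb G s).Sub (X.sb G t) :=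
  ⟨fun _ _ a => kadj_mono (X := X.sk) h a,
    fun _ _ _ _ ⟨a, g, h1, h2, h3, h4⟩ => ⟨a, g, h h1, h h2, h h3, h h4⟩⟩

theorem sb_sub_self (s : Finset V) : (X.sb G s).Sub X :=
  ⟨fun _ _ a => a.1, fun _ _ _ _ a => a.1⟩

theorem relc_mono {X Y : Sqx V} (h : X.Sub Y) : X.relc ⊆ Y.relc := by
  rintro w (⟨u, v, a, rfl⟩ | ⟨u, v, x, y, a, rfl⟩)
  · exact Or.inl ⟨u, v, h.1 _ _ a, rfl⟩
  · exact Or.inr ⟨u, v, x, y, h.2 _ _ _ _ a, rfl⟩

open Classical in
theorem exists_normalClosure {w : FreeGroup (V × V)} (hw : w ∈ Subgroup.normalClosure X.relc) :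
    ∃ t : Finset V, w ∈ Subgroup.normalClosure (X.sb G t).relc := by
  have mono : ∀ {s t : Finset V}, s ⊆ t → ∀ {w : FreeGroup (V × V)},
      w ∈ Subgroup.normalClosure (X.sb G s).relc → w ∈ Subgroup.normalClosure (X.sb G t).relc :=
    fun h _ hw => Subgroup.normalClosure_mono (relc_mono (sb_sub h)) hw
  let N : Subgroup (FreeGroup (V × V)) :=
    { carrier := {w | ∃ t : Finset V, w ∈ Subgroup.normalClosure (X.sb G t).relc}
      one_mem' := ⟨∅, one_mem _⟩
      mul_mem' := by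
        rintro a b ⟨s, ha⟩ ⟨t, hb⟩
        exact ⟨s ∪ t, mul_mem (mono Finset.subset_union_left ha)
          (mono Finset.subset_union_right hb)⟩
      inv_mem' := by
        rintro a ⟨s, ha⟩
        exact ⟨s, inv_mem ha⟩ }
  have hN : N.Normal := ⟨fun a ⟨s, ha⟩ g => ⟨s, Subgroup.normalClosure_normal.conj_mem a ha g⟩⟩
  refine (Subgroup.normalClosure_le_normal (N := N) ?_) hw
  rintro w (⟨u, v, a, rfl⟩ | ⟨u, v, x, y, a, rfl⟩)
  · refine ⟨{u, v}, Subgroup.subset_normalClosure (Or.inl ⟨u, v, ⟨a, 1, ?_, ?_⟩, rfl⟩)⟩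
    · simp
    · simp
  · refine ⟨{u, v, x, y}, Subgroup.subset_normalClosure
      (Or.inr ⟨u, v, x, y, ⟨a, 1, ?_, ?_, ?_, ?_⟩, rfl⟩)⟩
    · simp
    · simp
    · simp
    · simp

variable {v₀}

theorem lift_reach {u : V} (h : ReflTransGen X.adj v₀ u) :
    ∃ φ : X.Phi, ReflTransGen (adjW X) (v₀, 1) (u, φ) := by
  induction h with
  | refl => exact ⟨1, ReflTransGen.refl⟩
  | @tail b c _ h1 ih =>
    obtain ⟨φ, hφ⟩ := ih
    exact ⟨φ * X.ec b c, hφ.tail ⟨h1, rfl⟩⟩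

theorem reach_eq_one (hX : X.SimplyConn) {φ : X.Phi}
    (h : ReflTransGen (adjW X) (v₀, 1) (v₀, φ)) : φ = 1 := by
  obtain ⟨g, hg⟩ := hX.2.2 _ X.ec X.ec_cocycle
  have key : ∀ p : V × X.Phi, ReflTransGen (adjW X) (v₀, 1) p → p.2 = (g v₀)⁻¹ * g p.1 := by
    intro p hp
    induction hp with
    | refl => simp
    | tail _ h1 ih =>
      rw [h1.2, ih, hg _ _ h1.1]
      group
  have := key _ h
  simpa using this

/-- Finitely generated groups acting with finite stabilizers. -/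
theorem colim_fg {C : ∀ (G : Type) [Group G], Prop} (hC : SqClass C) (hA : X.Acts G)
    (hX : X.SimplyConn) (hL : X.LinkGirth) (hst : ∀ v : V, Finite (MulAction.stabilizer G v))
    (S : Finset G) (hS : Subgroup.closure (S : Set G) = ⊤) : C G := by
  classical
  obtain ⟨v₀⟩ := hX.1
  obtain ⟨s₀, hv₀, hs₀⟩ := exists_orbit_reach (X := X.sk) hA.1 hX.2.1 S hS v₀
  let I : Type := {s : Finset V // s₀ ⊆ s}
  have : IsDirectedOrder I :=
    ⟨fun a b => ⟨⟨a.1 ∪ b.1, a.2.trans Finset.subset_union_left⟩,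
      Finset.subset_union_left, Finset.subset_union_right⟩⟩
  have : Nonempty I := ⟨⟨s₀, subset_rfl⟩⟩
  refine hC.colimit I (fun s => GG (sb_acts hA s.1) v₀)
    (fun s t h => mapGG v₀ (sb_sub h) (sb_acts hA s.1) (sb_acts hA t.1)) ?_ G
    (fun s => prG v₀ (sb_acts hA s.1)) ?_ ?_ ?_ ?_
  · intro i j k h h' x
    exact mapGG_mapGG v₀ _ _ _ _ _ x
  · intro i j h x
    exact prG_mapGG v₀ _ _ _ x
  · intro γ
    obtain ⟨φ, hφ⟩ := lift_reach (X := X.sb G s₀) (hs₀ s₀ subset_rfl γ)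
    exact ⟨⟨s₀, subset_rfl⟩, ⟨⟨φ, γ⟩, (mem_GG_mk v₀ _).2 hφ⟩, rfl⟩
  · intro i x hx1
    rw [prG_apply] at hx1
    have hx := x.2
    have h1 : ReflTransGen (adjW (X.sb G i.1)) (v₀, 1) (v₀, x.1.left) := by
      have := (mem_GG_mk v₀ (sb_acts hA i.1) (φ := x.1.left) (γ := x.1.right)).1 hx
      rwa [hx1, one_smul] at this
    have h2 := map_reach (sb_sub_self i.1) h1
    simp only [map_one] at h2
    have h3 := reach_eq_one hX h2
    obtain ⟨w, hw⟩ := QuotientGroup.mk_surjective x.1.left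
    rw [← hw, mapPhi_mk, QuotientGroup.eq_one_iff] at h3
    obtain ⟨t, ht⟩ := exists_normalClosure (G := G) h3
    refine ⟨⟨i.1 ∪ t, i.2.trans Finset.subset_union_left⟩, Finset.subset_union_left, ?_⟩
    refine mapGG_eq_one v₀ _ _ _ x ?_ hx1
    rw [← hw, mapPhi_mk, QuotientGroup.eq_one_iff]
    exact Subgroup.normalClosure_mono (relc_mono (sb_sub Finset.subset_union_right)) ht
  · intro i
    exact GG_mem (sb_acts hA i.1) hC (sb_linkGirth hL i.1) hst i.1 (i.2 hv₀)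
      (fun u v h => h.2) (fun u v w x h => h.2)

/-- Groups acting with finite stabilizers on a simply connected square complex whose links
have no circuits of length less than four. -/
theorem colim {C : ∀ (G : Type) [Group G], Prop} (hC : SqClass C) (hA : X.Acts G)
    (hX : X.SimplyConn) (hL : X.LinkGirth) (hst : ∀ v : V, Finite (MulAction.stabilizer G v)) :
    C G := by
  classical
  refine hC.ofClosure fun s => ?_
  refine colim_fg (G := Subgroup.closure (s : Set G)) hC ⟨fun g u v h => hA.1 g u v h,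
    fun g u v w x h => hA.2 g u v w x h⟩ hX hL (fun v => ?_)
    (s.attach.image fun x => ⟨x.1, Subgroup.subset_closure x.2⟩) ?_
  · have := hst v
    refine Finite.of_injective (β := MulAction.stabilizer G v) (fun x => ⟨x.1.1, x.2⟩) ?_
    intro x y hxy
    exact Subtype.ext (Subtype.ext (congrArg (fun z : MulAction.stabilizer G v => z.1) hxy))
  · rw [eq_top_iff]
    rintro ⟨x, hx⟩ -
    induction hx using Subgroup.closure_induction with
    | mem y hy =>
      refine Subgroup.subset_closure ?_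
      rw [Finset.coe_image]
      exact ⟨⟨y, hy⟩, by simp, rfl⟩
    | one => exact one_mem _
    | mul y z hy hz ihy ihz => exact mul_mem ihy ihz
    | inv y hy ih => exact inv_mem ih

end Sqx

end Pool.Agent.Helper9.SQ
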