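import Pool.Agent.Helper9.SQ.TreeR
import Pool.Agent.Helper9.SQ.Colim

/-!
# Bounds for cocompact actions with infinite cyclic stabilizers
-/

set_option autoImplicit false

namespace Pool.Agent.Helper9.SQ

open Relation Pool.Agent.Helper29.BA Pool.Agent.Helper29.PA

namespace Sqx

variable {V : Type} {X : Sqx V} {G : Type} [Group G] [MulAction G V]

/-- The value of a homomorphism to the integers. -/
def vl (f : G →* Multiplicative ℤ) (g : G) : ℤ := Multiplicative.toAdd (f g)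

section vl

variable (f : G →* Multiplicative ℤ)

theorem vl_mul (a b : G) : vl f (a * b) = vl f a + vl f b := by
  rw [vl, map_mul, toAdd_mul]
  rfl

theorem vl_inv (a : G) : vl f a⁻¹ = - vl f a := by
  rw [vl, map_inv, toAdd_inv]
  rfl

theorem vl_one : vl f 1 = 0 := by
  rw [vl, map_one, toAdd_one]

theorem vl_zpow (a : G) (n : ℤ) : vl f (a ^ n) = n * vl f a := by
  rw [vl, map_zpow, toAdd_zpow, smul_eq_mul]
  rfl

theorem vl_conj (a g : G) : vl f (g * a * g⁻¹) = vl f a := by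
  rw [vl_mul, vl_mul, vl_inv]
  ring

theorem vl_eq_zero {a : G} : vl f a = 0 ↔ f a = 1 := by
  rw [vl, toAdd_eq_zero]

end vl

variable (hA : X.Acts G) (hco : X.Cocompact G) (f : G →* Multiplicative ℤ)
  (hf : ∀ (v : V) (g : G), g • v = v → f g = 1 → g = 1)

include hco hf in
/-- The number `κ`, first part. -/
theorem exists_dvd : ∃ κ : ℤ, κ ≠ 0 ∧ ∀ x y, X.adj x y → Fx G x y →
    ∃ t : G, t • x = x ∧ t • y = y ∧ vl f t ≠ 0 ∧ vl f t ∣ κ := by
  classical
  obtain ⟨S, hSf, -, hS2, -⟩ := hco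
  have hex : ∀ s : V × V × V × V, ∃ n : ℤ, n ≠ 0 ∧ (Fx G s.1 s.2.2.2 →
      ∃ t : G, t • s.1 = s.1 ∧ t • s.2.2.2 = s.2.2.2 ∧ vl f t ≠ 0 ∧ vl f t = n) := by
    intro s
    by_cases h : Fx G s.1 s.2.2.2
    · obtain ⟨t, h1, h2, h3⟩ := h
      have h4 : vl f t ≠ 0 := fun h5 => h1 (hf _ t h2 ((vl_eq_zero f).1 h5))
      exact ⟨vl f t, h4, fun _ => ⟨t, h2, h3, h4, rfl⟩⟩
    · exact ⟨1, one_ne_zero, fun h' => (h h').elim⟩
  choose n hn hn2 using hex
  refine ⟨∏ s ∈ hSf.toFinset, n s, Finset.prod_ne_zero_iff.2 fun s _ => hn s, ?_⟩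
  intro x y hxy hF
  obtain ⟨g, hg⟩ := hS2 x y hxy
  obtain ⟨t, h1, h2, h3, h4⟩ := hn2 (g • x, g • x, g • x, g • y) (hF.smul g)
  refine ⟨g⁻¹ * t * g, ?_, ?_, ?_, ?_⟩
  · rw [mul_smul, mul_smul, inv_smul_eq_iff]
    exact h1
  · rw [mul_smul, mul_smul, inv_smul_eq_iff]
    exact h2
  · rw [vl_mul, vl_mul, vl_inv]
    have : -vl f g + vl f t + vl f g = vl f t := by ring
    rw [this]
    exact h3
  · rw [vl_mul, vl_mul, vl_inv]
    have : -vl f g + vl f t + vl f g = vl f t := by ring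
    rw [this, h4]
    exact Finset.dvd_prod_of_mem n (hSf.mem_toFinset.2 hg)

include hco in
/-- Edges with trivial stabilizers are contained in finitely many squares. -/
theorem finite_link {v z : V} (h : ¬ Fx G v z) : {w | X.Cor v z w}.Finite := by
  classical
  obtain ⟨S, hSf, -, -, hS3⟩ := hco
  have hex : ∀ w : {w | X.Cor v z w}, ∃ (x : V) (g : G), (g • v, g • z, g • x, g • w.1) ∈ S := by
    rintro ⟨w, x, hw⟩
    exact ⟨x, hS3 _ _ _ _ hw⟩
  choose x g hg using hex
  have : Finite S := hSf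
  have : Finite {w | X.Cor v z w} := by
    refine Finite.of_injective (β := S) (fun w => ⟨_, hg w⟩) ?_
    intro w w' hw
    have h1 := congrArg (fun s : S => s.1) hw
    simp only [Prod.mk.injEq] at h1
    obtain ⟨h1, h2, -, h3⟩ := h1
    have h4 : (g w')⁻¹ * g w = 1 := by
      by_contra h5
      refine h ⟨_, h5, ?_, ?_⟩
      · rw [mul_smul, h1, inv_smul_smul]
      · rw [mul_smul, h2, inv_smul_smul]
    have h5 : g w = g w' := (inv_mul_eq_one.1 h4).symm
    rw [h5] at h3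
    exact Subtype.ext (smul_left_cancel _ h3)
  exact this

variable (X G) in
/-- The vertices of the link of `v` which are reached from `y`. -/
def Wk (v : V) : ℕ → V → Set V
  | 0, y => {y}
  | k + 1, y => {w | ∃ z ∈ Wk v k y, ¬ Fx G v z ∧ X.Cor v z w}

include hco in
theorem Wk_finite (v : V) (k : ℕ) (y : V) : (X.Wk G v k y).Finite := by
  induction k with
  | zero => exact Set.finite_singleton y
  | succ k ih =>
    have : X.Wk G v (k + 1) y =
        ⋃ z ∈ {z ∈ X.Wk G v k y | ¬ Fx G v z}, {w | X.Cor v z w} := by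
      ext w
      simp only [Wk, Set.mem_ofPred_eq, Set.mem_iUnion, exists_prop]
      constructor
      · rintro ⟨z, h1, h2, h3⟩
        exact ⟨z, ⟨h1, h2⟩, h3⟩
      · rintro ⟨z, ⟨h1, h2⟩, h3⟩
        exact ⟨z, h1, h2, h3⟩
    rw [this]
    exact (ih.subset (Set.sep_subset _ _)).biUnion fun z hz => finite_link hco hz.2

include hA in
theorem Wk_smul (g : G) {v : V} {k : ℕ} {y w : V} (h : w ∈ X.Wk G v k y) :
    g • w ∈ X.Wk G (g • v) k (g • y) := by
  induction k generalizing w with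
  | zero =>
    have : w = y := h
    rw [this]
    rfl
  | succ k ih =>
    obtain ⟨z, h1, h2, h3⟩ := h
    exact ⟨g • z, ih h1, fun h4 => h2 h4.of_smul, h3.smul hA g⟩

theorem mem_Wk {v : V} {k : ℕ} {y : ℕ → V} (h1 : ∀ i < k, X.Cor v (y i) (y (i + 1)))
    (h2 : ∀ i ≤ k, ¬ Fx G v (y i)) : y k ∈ X.Wk G v k (y 0) := by
  induction k with
  | zero => rfl
  | succ k ih =>
    exact ⟨y k, ih (fun i hi => h1 i (by omega)) (fun i hi => h2 i (by omega)), h2 k (by omega),
      h1 k (by omega)⟩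

include hA hco in
/-- The number `κ`, second part. -/
theorem exists_bound : ∃ M : ℕ, ∀ (v : V) (r : G), r • v = v → ∀ k ≤ 3, ∀ y : ℕ → V,
    (∀ i < k, X.Cor v (y i) (y (i + 1))) → (∀ i ≤ k, ¬ Fx G v (y i)) → y k = r • y 0 →
      (vl f r).natAbs ≤ M := by
  classical
  obtain ⟨S, hSf, -, hS2, -⟩ := id hco
  let J : V × V × V × V → ℕ → Set G := fun s k =>
    {r | ¬ Fx G s.1 s.2.2.2 ∧ r • s.1 = s.1 ∧ r • s.2.2.2 ∈ X.Wk G s.1 k s.2.2.2}
  have hJ : ∀ s k, (J s k).Finite := by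
    intro s k
    by_cases h : Fx G s.1 s.2.2.2
    · have : J s k = ∅ := by
        ext r
        simp [J, h]
      rw [this]
      exact Set.finite_empty
    · refine Set.Finite.of_finite_image ((Wk_finite hco s.1 k s.2.2.2).subset ?_)
        (f := fun r : G => r • s.2.2.2) ?_
      · rintro _ ⟨r, hr, rfl⟩
        exact hr.2.2
      · intro r hr r' hr' hrr'
        have h1 : r'⁻¹ * r = 1 := by
          by_contra h2
          refine h ⟨_, h2, ?_, ?_⟩
          · rw [mul_smul, hr.2.1, inv_smul_eq_iff]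
            exact hr'.2.1.symm
          · rw [mul_smul, inv_smul_eq_iff]
            exact hrr'
        exact (inv_mul_eq_one.1 h1).symm
  have hfin : (⋃ s ∈ S, ⋃ k ∈ Finset.range 4, J s k).Finite :=
    hSf.biUnion fun s _ => (Finset.finite_toSet _).biUnion fun k _ => hJ s k
  obtain ⟨M, hM⟩ := (hfin.image fun r => (vl f r).natAbs).bddAbove
  refine ⟨M, fun v r hr k hk y h1 h2 h3 => ?_⟩
  rcases Nat.eq_zero_or_pos k with h0 | h0
  · subst h0
    have : r = 1 := by
      by_contra h4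
      exact h2 0 le_rfl ⟨r, h4, hr, h3.symm⟩
    rw [this, vl_one]
    exact Nat.zero_le _
  · obtain ⟨g, hg⟩ := hS2 v (y 0) (by
      obtain ⟨w, hw⟩ := h1 0 h0
      exact X.sq_adj _ _ _ _ hw)
    · have h4 : g * r * g⁻¹ ∈ J (g • v, g • v, g • v, g • y 0) k := by
        refine ⟨fun h5 => h2 0 (Nat.zero_le _) h5.of_smul, ?_, ?_⟩
        · change (g * r * g⁻¹) • g • v = g • v
          rw [mul_smul, inv_smul_smul, mul_smul, hr]
        · change (g * r * g⁻¹) • g • y 0 ∈ X.Wk G (g • v) k (g • y 0)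
          rw [mul_smul, inv_smul_smul, mul_smul, ← h3]
          exact Wk_smul hA g (mem_Wk h1 h2)
      have h5 : g * r * g⁻¹ ∈ ⋃ s ∈ S, ⋃ k ∈ Finset.range 4, J s k := by
        simp only [Set.mem_iUnion]
        exact ⟨_, hg, k, Finset.mem_range.2 (by omega), h4⟩
      have h6 := hM (Set.mem_image_of_mem _ h5)
      simp only [vl_conj] at h6
      exact h6

end Sqx

end Pool.Agent.Helper9.SQ
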