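import Pool.Agent.Helper29.PA.Defs

/-!
# Square complexes and groups acting on them
-/

set_option autoImplicit false

namespace Pool.Agent.Helper9.SQ

open Pool.Agent.Helper29.BA Pool.Agent.Helper29.PA

/-- A square complex with vertices `V`: `adj u v` means that `u` and `v` span an edge,
`sq u v w x` that `u`, `v`, `w` and `x` are, in this cyclic order, the corners of a square. -/
structure Sqx (V : Type) where
  adj : V → V → Prop
  sq : V → V → V → V → Prop
  adj_symm : ∀ u v, adj u v → adj v u
  adj_irrefl : ∀ u, ¬ adj u u
  sq_rot : ∀ u v w x, sq u v w x → sq v w x u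
  sq_flip : ∀ u v w x, sq u v w x → sq x w v u
  sq_adj : ∀ u v w x, sq u v w x → adj u v
  sq_ne : ∀ u v w x, sq u v w x → u ≠ w

namespace Sqx

variable {V : Type} (X : Sqx V)

/-- A 1-cocycle with values in the group `H`. -/
def Cocycle {H : Type} [Group H] (c : V → V → H) : Prop :=
  (∀ u v, X.adj u v → c u v * c v u = 1) ∧
    ∀ u v w x, X.sq u v w x → c u v * c v w * c w x * c x u = 1

/-- `X` is connected and simply connected: it is not empty, any two vertices are joined by an edge
path, and each 1-cocycle with values in a group is a coboundary. -/
def SimplyConn : Prop :=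
  Nonempty V ∧ (∀ u v, Relation.ReflTransGen X.adj u v) ∧
    ∀ (H : Type) [Group H] (c : V → V → H), X.Cocycle c →
      ∃ g : V → H, ∀ u v, X.adj u v → c u v = (g u)⁻¹ * g v

/-- The links of the vertices are graphs without circuits of length 2 or 3: two edges at a vertex
are sides of at most one square, and three edges at a vertex are not pairwise sides of squares. -/
structure LinkGirth : Prop where
  two : ∀ v a b x y, X.sq v a x b → X.sq v a y b → x = y
  three : ∀ v a b c x y z, X.sq v a x b → X.sq v b y c → ¬ X.sq v c z a

variable (G : Type) [Group G] [MulAction G V]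

/-- `G` acts on `X`. -/
def Acts : Prop :=
  (∀ (g : G) u v, X.adj u v → X.adj (g • u) (g • v)) ∧
    ∀ (g : G) u v w x, X.sq u v w x → X.sq (g • u) (g • v) (g • w) (g • x)

/-- The action of `G` on `X` is cocompact: there are finitely many orbits of vertices, edges and
squares. -/
def Cocompact : Prop :=
  ∃ S : Set (V × V × V × V), S.Finite ∧
    (∀ v, ∃ g : G, (g • v, g • v, g • v, g • v) ∈ S) ∧
    (∀ u v, X.adj u v → ∃ g : G, (g • u, g • u, g • u, g • v) ∈ S) ∧
    ∀ u v w x, X.sq u v w x → ∃ g : G, (g • u, g • v, g • w, g • x) ∈ S

end Sqx

/-- The classes of groups which in addition contain all groups which act cocompactly and with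
finite vertex stabilizers on simply connected square complexes whose links have no circuits of
length less than four. (With unit squares these complexes are CAT(0) spaces.) -/
structure SqClass (C : ∀ (G : Type) [Group G], Prop) : Prop extends ExtClass C where
  square : ∀ (V : Type) (X : Sqx V) (G : Type) [Group G] [MulAction G V],
    X.SimplyConn → X.LinkGirth → X.Acts G → (∀ v : V, Finite (MulAction.stabilizer G v)) →
      X.Cocompact G → C G

end Pool.Agent.Helper9.SQ
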