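import Pool.Agent.Helper9.SQ.QuoAct

/-!
# Cocompact actions with infinite cyclic stabilizers
-/

set_option autoImplicit false

namespace Pool.Agent.Helper9.SQ

open Relation Pool.Agent.Helper29.BA Pool.Agent.Helper29.PA

namespace Sqx

variable {V : Type} {X : Sqx V} {G : Type} [Group G] [MulAction G V]

/-- The subgroup of the elements whose value is divisible by `n`. -/
def dv (f : G →* Multiplicative ℤ) (n : ℕ) : Subgroup G :=
  ((AddMonoidHom.toMultiplicative (Int.castAddHom (ZMod n))).comp f).ker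

theorem mem_dv {f : G →* Multiplicative ℤ} {n : ℕ} {g : G} : g ∈ dv f n ↔ (n : ℤ) ∣ vl f g := by
  rw [dv, MonoidHom.mem_ker]
  change Multiplicative.ofAdd (((vl f g : ℤ)) : ZMod n) = 1 ↔ _
  rw [ofAdd_eq_one, ZMod.intCast_zmod_eq_zero_iff_dvd]

theorem dv_finiteIndex (f : G →* Multiplicative ℤ) (n : ℕ) (hn : n ≠ 0) :
    (dv f n).FiniteIndex := by
  have : NeZero n := ⟨hn⟩
  have : Finite (Multiplicative (ZMod n)) := inferInstanceAs (Finite (ZMod n))
  exact Subgroup.finiteIndex_ker _

/-- The set of the elements with fixed vertices. -/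
def fxs (V H : Type) [Group H] [MulAction H V] : Set H := {h | ∃ x : V, h • x = x}

theorem conj_fxs {V H : Type} [Group H] [MulAction H V] {h : H} (hh : h ∈ fxs V H) (g : H) :
    g * h * g⁻¹ ∈ fxs V H := by
  obtain ⟨x, hx⟩ := hh
  exact ⟨g • x, by rw [mul_smul, inv_smul_smul, mul_smul, hx]⟩

/-- The subgroup generated by the elements with fixed vertices. -/
def RR0 (V H : Type) [Group H] [MulAction H V] : Subgroup H := Subgroup.closure (fxs V H)

instance (V H : Type) [Group H] [MulAction H V] : (RR0 V H).Normal := by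
  refine ⟨fun h hh g => ?_⟩
  induction hh using Subgroup.closure_induction with
  | mem x hx => exact Subgroup.subset_closure (conj_fxs hx g)
  | one => rw [mul_one, mul_inv_cancel]; exact one_mem _
  | mul x y _ _ hx hy =>
    have : g * (x * y) * g⁻¹ = (g * x * g⁻¹) * (g * y * g⁻¹) := by group
    rw [this]
    exact mul_mem hx hy
  | inv x _ hx =>
    have : g * x⁻¹ * g⁻¹ = (g * x * g⁻¹)⁻¹ := by group
    rw [this]
    exact inv_mem hx

theorem RR0_gen (V H : Type) [Group H] [MulAction H V] :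
    Subgroup.closure {r : RR0 V H | ∃ x : V, r • x = x} = ⊤ := by
  rw [eq_top_iff]
  rintro ⟨x, hx⟩ -
  induction hx using Subgroup.closure_induction with
  | mem y hy =>
    refine Subgroup.subset_closure ?_
    obtain ⟨v, hv⟩ := hy
    exact ⟨v, hv⟩
  | one => exact one_mem _
  | mul y z hy hz ihy ihz => exact mul_mem ihy ihz
  | inv y hy ih => exact inv_mem ih

theorem mem_RR0 {V H : Type} [Group H] [MulAction H V] (h : H) (x : V) (hx : h • x = x) :
    h ∈ RR0 V H := Subgroup.subset_closure ⟨x, hx⟩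

/-- Cocompact actions with a homomorphism to the integers which is injective on the
stabilizers. -/
theorem int_mem {C : ∀ (G : Type) [Group G], Prop} (hC : SqClass C) (hX : X.SimplyConn)
    (hL : X.LinkGirth) (hA : X.Acts G) (hco : X.Cocompact G) (f : G →* Multiplicative ℤ)
    (hf : ∀ (v : V) (g : G), g • v = v → f g = 1 → g = 1) : C G := by
  obtain ⟨κ₁, hκ₁, hdiv⟩ := exists_dvd hco f hf
  obtain ⟨M, hM⟩ := exists_bound hA hco f
  have hf' : ∀ (v : V) (g : G), g • v = v → vl f g = 0 → g = 1 := fun v g h1 h2 =>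
    hf v g h1 ((vl_eq_zero f).1 h2)
  obtain ⟨n, hn⟩ : ∃ n : ℕ, n = κ₁.natAbs * (M + 1) := ⟨_, rfl⟩
  have hn0 : n ≠ 0 := by
    rw [hn]
    exact Nat.mul_ne_zero (Int.natAbs_ne_zero.2 hκ₁) (Nat.succ_ne_zero _)
  have hκn : κ₁ ∣ (n : ℤ) := by
    rw [hn, Nat.cast_mul, Int.natCast_natAbs]
    exact (dvd_abs _ _).2 dvd_rfl |>.mul_right _
  have hMn : M < n := by
    rw [hn]
    have : 1 ≤ κ₁.natAbs := Nat.one_le_iff_ne_zero.2 (Int.natAbs_ne_zero.2 hκ₁)
    nlinarith
  have hfi := dv_finiteIndex f n hn0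
  refine hC.finiteIndex G (dv f n) hfi ?_
  obtain ⟨H, hH⟩ : ∃ H : Subgroup G, H = dv f n := ⟨_, rfl⟩
  rw [← hH] at hfi ⊢
  have hmem : ∀ g : H, (n : ℤ) ∣ vl f g.1 := fun g => mem_dv.1 (hH ▸ g.2)
  have hA' : X.Acts H := ⟨fun g u v h => hA.1 g u v h, fun g u v w x h => hA.2 g u v w x h⟩
  -- the subgroup `R`
  have hN : X.Nice (RR0 V H) := by
    refine ⟨⟨fun g u v h => hA.1 g.1 u v h, fun g u v w x h => hA.2 g.1 u v w x h⟩, hL, ?_, ?_⟩
    · rintro x y hxy ⟨s, hs1, hs2, hs3⟩ r hr
      obtain ⟨t, ht1, ht2, ht3, ht4⟩ := hdiv x y hxy ⟨s.1.1, fun h => hs1 (Subtype.ext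
        (Subtype.ext h)), hs2, hs3⟩
      obtain ⟨m, hm⟩ := (ht4.trans hκn).trans (hmem r.1)
      have h1 : (t ^ m)⁻¹ * r.1.1 = 1 := by
        refine hf' x _ ?_ ?_
        · have h2 : (t ^ m) • x = x := by
            have : t ∈ MulAction.stabilizer G x := ht1
            exact zpow_mem this m
          rw [mul_smul, inv_smul_eq_iff, h2]
          exact hr
        · rw [vl_mul, vl_inv, vl_zpow, hm]
          ring
      have h2 : r.1.1 = t ^ m := (inv_mul_eq_one.1 h1).symm
      have h3 : t ∈ MulAction.stabilizer G y := ht2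
      change r.1.1 • y = y
      rw [h2]
      exact zpow_mem h3 m
    · intro v r hr k hk y h1 h2 h3
      have h4 : ∀ i ≤ k, ¬ Fx G v (y i) := by
        rintro i hi ⟨t, ht1, ht2, ht3⟩
        have h5 : t ^ n ∈ H := by
          rw [hH, mem_dv, ← zpow_natCast, vl_zpow]
          exact dvd_mul_right _ _
        have h6 : (⟨t ^ n, h5⟩ : H) • v = v := by
          have : t ∈ MulAction.stabilizer G v := ht2
          exact pow_mem this n
        refine h2 i hi ⟨⟨⟨t ^ n, h5⟩, mem_RR0 _ v h6⟩, fun h7 => ht1 ?_, h6, ?_⟩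
        · have h8 : t ^ n = 1 := congrArg (fun z : RR0 V H => z.1.1) h7
          have h9 := congrArg (vl f) h8
          rw [← zpow_natCast, vl_zpow, vl_one] at h9
          refine hf' v t ht2 ?_
          rcases mul_eq_zero.1 h9 with h10 | h10
          · exact (hn0 (by exact_mod_cast h10)).elim
          · exact h10
        · have : t ∈ MulAction.stabilizer G (y i) := ht3
          exact pow_mem this n
      have h5 := hM v r.1.1 hr k hk y h1 h4 h3
      have h6 : vl f r.1.1 = 0 := by
        refine Int.eq_zero_of_abs_lt_dvd (hmem r.1) ?_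
        rw [Int.abs_eq_natAbs]
        exact_mod_cast h5.trans_lt hMn
      exact Subtype.ext (Subtype.ext (hf' v _ hr h6))
  have hR : C (RR0 V H) := gen_mem hN hC.toExtClass hX (RR0_gen V H)
    ((f.comp H.subtype).comp (RR0 V H).subtype) hC.int (fun v r h1 h2 =>
      Subtype.ext (Subtype.ext (hf v _ h1 h2)))
  have hh := quo_had hN hX (RR0_gen V H)
  have hP : C (H ⧸ RR0 V H) := quo_mem hh hC hA' (cocompact_sub hco H hfi)
    (fun h x hx => mem_RR0 h x hx)
  let p : H →* H ⧸ RR0 V H := QuotientGroup.mk' (RR0 V H)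
  have hp : ∀ h : H, p h = 1 ↔ h ∈ RR0 V H := fun h => QuotientGroup.eq_one_iff h
  refine hC.ext H ((H ⧸ RR0 V H) × Multiplicative ℤ) (p.prod (f.comp H.subtype))
    (hC.prod _ _ hP hC.int) ?_
  rintro ⟨p₀, n₀⟩
  by_cases hfin : IsOfFinOrder p₀
  · -- the preimage has a subgroup of finite index in `R`
    obtain ⟨D, hD⟩ : ∃ D : Subgroup H, D = (Subgroup.zpowers (p₀, n₀)).comap
      (p.prod (f.comp H.subtype)) := ⟨_, rfl⟩
    rw [← hD]
    have hD' : ∀ d ∈ D, (p.prod (f.comp H.subtype)) d ∈ Subgroup.zpowers (p₀, n₀) :=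
      fun d hd => by
        rw [hD] at hd
        exact hd
    have hfr : Finite (p.comp D.subtype).range := by
      have h1 : (p.comp D.subtype).range ≤ Subgroup.zpowers p₀ := by
        rintro _ ⟨d, rfl⟩
        obtain ⟨m, hm⟩ := hD' d.1 d.2
        exact ⟨m, congrArg Prod.fst hm⟩
      have h2 : Finite (Subgroup.zpowers p₀) := finite_zpowers.2 hfin
      exact Finite.of_injective _ (Subgroup.inclusion_injective h1)
    refine hC.finiteIndex D (p.comp D.subtype).ker (Subgroup.finiteIndex_ker _) ?_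
    refine hC.inj (H := RR0 V H)
      { toFun := fun d => ⟨d.1.1, (hp _).1 d.2⟩
        map_one' := rfl
        map_mul' := fun _ _ => rfl } ?_ hR
    intro a b hab
    exact Subtype.ext (Subtype.ext (congrArg (fun z : RR0 V H => z.1) hab))
  · -- the preimage acts freely
    refine colim hC ⟨fun g u v h => hA.1 g.1.1 u v h, fun g u v w x h => hA.2 g.1.1 u v w x h⟩ hX hL
      fun v => ?_
    have key : ∀ d : ((Subgroup.zpowers (p₀, n₀)).comap (p.prod (f.comp H.subtype))),
        d • v = v → d = 1 := by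
      intro d hd
      obtain ⟨m, hm⟩ := d.2
      have h1 : p₀ ^ m = p d.1 := congrArg Prod.fst hm
      have h2 : n₀ ^ m = f d.1.1 := congrArg Prod.snd hm
      have h3 : p d.1 = 1 := (hp _).2 (mem_RR0 d.1 v hd)
      rw [h3] at h1
      have h4 : m = 0 := by
        by_contra h5
        exact hfin (isOfFinOrder_iff_zpow_eq_one.2 ⟨m, h5, h1⟩)
      rw [h4, zpow_zero] at h2
      exact Subtype.ext (Subtype.ext (hf v _ hd h2.symm))
    have : Subsingleton (MulAction.stabilizer
        ((Subgroup.zpowers (p₀, n₀)).comap (p.prod (f.comp H.subtype))) v) :=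
      ⟨fun a b => Subtype.ext ((key a.1 a.2).trans (key b.1 b.2).symm)⟩
    infer_instance

end Sqx

end Pool.Agent.Helper9.SQ
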