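import Pool.Agent.Helper9.SQ.TwoVal
import Pool.Agent.Helper3.FJ.Deg

/-!
# `GL_2` over Laurent polynomial rings
-/

set_option autoImplicit false

namespace Pool.Agent.Helper9.SQ

open WithZero Pool.Agent.Helper29.BA Pool.Agent.Helper29.PA
open Pool.Agent.Helper3.FJ (frv frv_apply frv_surj degVal degVal_of_ne degVal_zero degVal_X)

open scoped Matrix MatrixGroups Polynomial LaurentPolynomial

variable (A : Type) [CommRing A] [IsDomain A]

open Classical in
/-- The valuation defined by the order at zero. -/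
noncomputable def ordVal : Valuation A[X] ℤᵐ⁰ where
  toFun p := if p = 0 then 0 else exp (-(p.natTrailingDegree : ℤ))
  map_zero' := if_pos rfl
  map_one' := by simp
  map_mul' p q := by
    rcases eq_or_ne p 0 with rfl | hp
    · simp
    rcases eq_or_ne q 0 with rfl | hq
    · simp
    rw [if_neg hp, if_neg hq, if_neg (mul_ne_zero hp hq), Polynomial.natTrailingDegree_mul hp hq,
      ← exp_add]
    congr 1
    push_cast
    ring
  map_add_le_max' p q := by
    rcases eq_or_ne p 0 with rfl | hp
    · simp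
    rcases eq_or_ne q 0 with rfl | hq
    · simp
    rw [if_neg hp, if_neg hq]
    rcases eq_or_ne (p + q) 0 with h | h
    · rw [if_pos h]
      exact zero_le
    rw [if_neg h]
    have h1 : min p.natTrailingDegree q.natTrailingDegree ≤ (p + q).natTrailingDegree := by
      by_contra h2
      push Not at h2
      have h3 := Polynomial.coeff_eq_zero_of_lt_natTrailingDegree (h2.trans_le (min_le_left _ _))
      have h4 := Polynomial.coeff_eq_zero_of_lt_natTrailingDegree (h2.trans_le (min_le_right _ _))
      refine h (Polynomial.coeff_natTrailingDegree_eq_zero.1 ?_)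
      rw [Polynomial.coeff_add, h3, h4, add_zero]
    rcases min_le_iff.1 h1 with h2 | h2
    · exact le_max_of_le_left (exp_le_exp.2 (by omega))
    · exact le_max_of_le_right (exp_le_exp.2 (by omega))

variable {A}

theorem ordVal_of_ne {p : A[X]} (hp : p ≠ 0) :
    ordVal A p = exp (-(p.natTrailingDegree : ℤ)) := if_neg hp

theorem ordVal_zero (p : A[X]) (hp : ordVal A p = 0) : p = 0 := by
  by_contra h
  rw [ordVal_of_ne h] at hp
  exact exp_ne_zero hp

theorem ordVal_X : ordVal A Polynomial.X = exp (-1) := by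
  rw [ordVal_of_ne Polynomial.X_ne_zero, Polynomial.natTrailingDegree_X]
  rfl

theorem ordVal_surj : Function.Surjective (frv (ordVal A) ordVal_zero) := by
  intro y
  rcases eq_or_ne y 0 with rfl | hy
  · exact ⟨0, map_zero _⟩
  · refine ⟨(algebraMap A[X] (FractionRing A[X]) Polynomial.X) ^ (-(log y)), ?_⟩
    rw [map_zpow₀, frv_apply, ordVal_X, ← exp_zsmul, smul_eq_mul]
    rw [show -(log y) * (-1) = log y by ring, exp_log hy]

variable (A) in
/-- `X` as a unit of the field of fractions. -/
noncomputable def xu : (FractionRing A[X])ˣ :=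
  Units.mk0 (algebraMap A[X] (FractionRing A[X]) Polynomial.X) (by
    rw [Ne, IsFractionRing.to_map_eq_zero_iff]
    exact Polynomial.X_ne_zero)

variable (A) in
/-- The embedding of the Laurent polynomials. -/
noncomputable def jj : A[T;T⁻¹] →+* FractionRing A[X] :=
  LaurentPolynomial.eval₂ ((algebraMap A[X] (FractionRing A[X])).comp Polynomial.C) (xu A)

theorem jj_toLaurent (p : A[X]) :
    jj A (Polynomial.toLaurent p) = algebraMap A[X] (FractionRing A[X]) p := by
  rw [jj, LaurentPolynomial.eval₂_toLaurent]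
  change Polynomial.eval₂ _ (algebraMap A[X] (FractionRing A[X]) Polynomial.X) p = _
  rw [← Polynomial.hom_eval₂, Polynomial.eval₂_C_X]

theorem jj_inj : Function.Injective (jj A) := by
  rw [injective_iff_map_eq_zero]
  intro f hf
  obtain ⟨n, p, hp⟩ := f.exists_T_pow
  have h1 := jj_toLaurent p
  rw [hp, map_mul, hf, zero_mul, eq_comm, IsFractionRing.to_map_eq_zero_iff] at h1
  rw [h1, map_zero] at hp
  have h2 := (LaurentPolynomial.isUnit_T (R := A) (n : ℤ))
  exact (h2.mul_left_eq_zero).1 hp.symm

/-- Evaluation at a unit. -/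
noncomputable def evu (u : Aˣ) : A[T;T⁻¹] →+* A := LaurentPolynomial.eval₂ (RingHom.id A) u

/-- A Laurent polynomial with few terms and many zeros vanishes. -/
theorem eq_zero_of_evu {f : A[T;T⁻¹]} {m : ℤ} (h1 : frv (degVal A) degVal_zero (jj A f) ≤ exp m)
    (h2 : frv (ordVal A) ordVal_zero (jj A f) ≤ exp m) (S : Finset Aˣ)
    (hS : 2 * m.toNat + 1 ≤ S.card) (h3 : ∀ u ∈ S, evu u f = 0) : f = 0 := by
  classical
  by_contra hf
  obtain ⟨n, p, hp⟩ := f.exists_T_pow
  have hT : IsUnit (LaurentPolynomial.T (n : ℤ) : A[T;T⁻¹]) := LaurentPolynomial.isUnit_T _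
  have hp0 : p ≠ 0 := by
    rintro rfl
    rw [map_zero] at hp
    exact hf ((hT.mul_left_eq_zero).1 hp.symm)
  have e0 := jj_toLaurent p
  have e1 : jj A (LaurentPolynomial.T (n : ℤ)) =
      algebraMap A[X] (FractionRing A[X]) Polynomial.X ^ n := by
    rw [← Polynomial.toLaurent_X_pow, jj_toLaurent, map_pow]
  rw [hp, map_mul, e1] at e0
  -- the degree
  have d1 : (p.natDegree : ℤ) ≤ m + n := by
    have e2 := congrArg (frv (degVal A) degVal_zero) e0
    rw [map_mul, map_pow, frv_apply, frv_apply, degVal_X, degVal_of_ne hp0] at e2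
    have e3 : frv (degVal A) degVal_zero (jj A f) * exp 1 ^ n ≤ exp m * exp 1 ^ n :=
      mul_le_mul_left h1 _
    rw [e2, ← exp_nsmul, ← exp_add, exp_le_exp, nsmul_eq_mul, mul_one] at e3
    exact e3
  have d2 : (n : ℤ) - m ≤ p.natTrailingDegree := by
    have e2 := congrArg (frv (ordVal A) ordVal_zero) e0
    rw [map_mul, map_pow, frv_apply, frv_apply, ordVal_X, ordVal_of_ne hp0] at e2
    have e3 : frv (ordVal A) ordVal_zero (jj A f) * exp (-1) ^ n ≤ exp m * exp (-1) ^ n :=
      mul_le_mul_left h2 _
    rw [e2, ← exp_nsmul, ← exp_add, exp_le_exp, nsmul_eq_mul] at e3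
    omega
  -- divide by a power of `X`
  obtain ⟨q, hq⟩ : Polynomial.X ^ ((n : ℤ) - m).toNat ∣ p := by
    rw [Polynomial.X_pow_dvd_iff]
    intro d hd
    exact Polynomial.coeff_eq_zero_of_lt_natTrailingDegree (by omega)
  have hq0 : q ≠ 0 := by
    rintro rfl
    rw [mul_zero] at hq
    exact hp0 hq
  have d3 : q.natDegree < 2 * m.toNat + 1 := by
    have e2 : p.natDegree = ((n : ℤ) - m).toNat + q.natDegree := by
      rw [hq, Polynomial.natDegree_mul (pow_ne_zero _ Polynomial.X_ne_zero) hq0,
        Polynomial.natDegree_X_pow]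
    omega
  refine hq0 (Polynomial.eq_zero_of_natDegree_lt_card_of_eval_eq_zero' q
    (S.image fun u : Aˣ => (u : A)) ?_ ?_)
  · intro a ha
    obtain ⟨u, hu, rfl⟩ := Finset.mem_image.1 ha
    have e2 := congrArg (evu u) hp
    rw [map_mul, h3 u hu, zero_mul, evu, LaurentPolynomial.eval₂_toLaurent,
      Polynomial.eval₂_id, hq, Polynomial.eval_mul, Polynomial.eval_pow, Polynomial.eval_X] at e2
    exact (mul_eq_zero.1 e2).resolve_left (pow_ne_zero _ u.ne_zero)
  · rw [Finset.card_image_of_injective _ Units.val_injective]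
    exact d3.trans_le hS

/-- Groups of matrices of degree two over the Laurent polynomials. -/
theorem laurent_map {C : ∀ (G : Type) [Group G], Prop} (hC : SqClass C) [Infinite Aˣ]
    {G : Type} [Group G] (ρ : G →* GL (Fin 2) A[T;T⁻¹])
    (hρ : Function.Injective ρ) {G₀ : Type} [Group G₀] (hG₀ : C G₀) (ρ₀ : G₀ →* GL (Fin 2) A)
    (ev : Aˣ → G →* G₀)
    (hev : ∀ u g, ρ₀ (ev u g) = Matrix.GeneralLinearGroup.map (evu u) (ρ g)) : C G := by
  classical
  have hone : ∀ g, (∀ i j, ((ρ g).1 - 1) i j = 0) → g = 1 := by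
    intro g hg
    refine hρ ?_
    rw [map_one]
    refine Units.ext ?_
    rw [Units.val_one]
    exact sub_eq_zero.1 (Matrix.ext hg)
  let φ : G →* GL (Fin 2) (FractionRing A[X]) := (Matrix.GeneralLinearGroup.map (jj A)).comp ρ
  have hφ1 : ∀ g i j, (φ g).1 i j = jj A ((ρ g).1 i j) := fun g i j => rfl
  have hφ : Function.Injective φ := by
    intro a b hab
    refine hρ (Units.ext (Matrix.ext fun i j => jj_inj ?_))
    rw [← hφ1, ← hφ1, hab]
  let e : G ≃* φ.range := MonoidHom.ofInjective hφ
  have he : ∀ g, (e g).1 = φ g := fun g => rfl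
  refine hC.iso _ _ e.symm ?_
  refine two_val hC (frv_surj (degVal A) degVal_zero Polynomial.X degVal_X) ordVal_surj _
    fun m => ?_
  obtain ⟨S, hS⟩ := Infinite.exists_subset_card_eq Aˣ (2 * (max m 0).toNat + 1)
  refine ⟨S → G₀, inferInstance, (MonoidHom.pi fun u : S => ev u.1).comp e.symm.toMonoidHom,
    hC.pi hG₀, fun g hg _ _ hb => ?_⟩
  obtain ⟨g, rfl⟩ := e.surjective g
  have h1 : ∀ u ∈ S, ev u g = 1 := by
    intro u hu
    have := congrFun hg ⟨u, hu⟩
    simpa using this
  rw [hone g fun i j => ?_, map_one]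
  refine eq_zero_of_evu (m := max m 0) ?_ ?_ S hS.ge fun u hu => ?_
  · rw [Matrix.sub_apply, map_sub]
    refine (Valuation.map_sub _ _ _).trans (max_le ?_ ?_)
    · have := (hb i j).1
      rw [he, hφ1] at this
      exact this.trans (exp_le_exp.2 (le_max_left _ _))
    · rw [Matrix.one_apply, apply_ite (jj A), map_one, map_zero,
        apply_ite (frv (degVal A) degVal_zero), map_one, map_zero]
      split_ifs
      · rw [← exp_zero]
        exact exp_le_exp.2 (le_max_right _ _)
      · exact zero_le
  · rw [Matrix.sub_apply, map_sub]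
    refine (Valuation.map_sub _ _ _).trans (max_le ?_ ?_)
    · have := (hb i j).2
      rw [he, hφ1] at this
      exact this.trans (exp_le_exp.2 (le_max_left _ _))
    · rw [Matrix.one_apply, apply_ite (jj A), map_one, map_zero,
        apply_ite (frv (ordVal A) ordVal_zero), map_one, map_zero]
      split_ifs
      · rw [← exp_zero]
        exact exp_le_exp.2 (le_max_right _ _)
      · exact zero_le
  · have h2 : Matrix.GeneralLinearGroup.map (evu u) (ρ g) = 1 := by
      rw [← hev, h1 u hu, map_one]
    have h3 : ((Matrix.GeneralLinearGroup.map (evu u) (ρ g)).1 - 1) i j = 0 := by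
      rw [h2, Units.val_one, sub_self, Matrix.zero_apply]
    rw [Matrix.sub_apply, map_sub, Matrix.one_apply, apply_ite (evu u), map_one, map_zero]
    rw [Matrix.sub_apply, Matrix.one_apply] at h3
    exact h3

/-- `GL_2` over the Laurent polynomials. -/
theorem laurent_GL {C : ∀ (G : Type) [Group G], Prop} (hC : SqClass C) [Infinite Aˣ]
    (h : C (GL (Fin 2) A)) : C (GL (Fin 2) A[T;T⁻¹]) :=
  laurent_map hC (MonoidHom.id _) Function.injective_id h (MonoidHom.id _)
    (fun u => Matrix.GeneralLinearGroup.map (evu u)) fun _ _ => rfl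

/-- `SL_2` over the Laurent polynomials. -/
theorem laurent_SL {C : ∀ (G : Type) [Group G], Prop} (hC : SqClass C) [Infinite Aˣ]
    (h : C SL(2, A)) : C SL(2, A[T;T⁻¹]) := by
  refine laurent_map hC Matrix.SpecialLinearGroup.toGL Matrix.SpecialLinearGroup.toGL_injective h
    Matrix.SpecialLinearGroup.toGL
    (fun u => Matrix.SpecialLinearGroup.map (evu u)) fun u g => ?_
  refine Units.ext (Matrix.ext fun i j => ?_)
  rfl

/-- The Laurent polynomials have infinitely many units, so that the step can be repeated. -/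
theorem infinite_units : Infinite (A[T;T⁻¹])ˣ := by
  refine Infinite.of_injective
    (fun n : ℕ => ((LaurentPolynomial.isUnit_T (R := A) (n : ℤ)).unit : (A[T;T⁻¹])ˣ)) ?_
  intro a b hab
  have h1 : (LaurentPolynomial.T (a : ℤ) : A[T;T⁻¹]) = LaurentPolynomial.T (b : ℤ) :=
    congrArg Units.val hab
  have h2 := congrArg LaurentPolynomial.degree h1
  rw [LaurentPolynomial.degree_T, LaurentPolynomial.degree_T] at h2
  exact_mod_cast h2

end Pool.Agent.Helper9.SQ
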