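import Pool.Agent.Helper9.SQ.Cover

/-!
# The group of the lifts to the universal cover
-/

set_option autoImplicit false

namespace Pool.Agent.Helper9.SQ

open Relation Pool.Agent.Helper29.BA Pool.Agent.Helper29.PA

namespace Sqx

variable {V : Type} {X : Sqx V} {G : Type} [Group G] [MulAction G V] (hA : X.Acts G) (v₀ : V)

/-- `Φ ⋊ G`. -/
abbrev PG : Type := X.Phi ⋊[actPhi hA] G

/-- The action of `Φ ⋊ G` on `V × Φ`. -/
noncomputable def sm (x : PG hA) (p : V × X.Phi) : V × X.Phi := (x.right • p.1, x.left * actPhi hA x.right p.2)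

theorem sm_one (p : V × X.Phi) : sm hA 1 p = p := by
  ext <;> simp [sm]

theorem sm_mul (x y : PG hA) (p : V × X.Phi) : sm hA (x * y) p = sm hA x (sm hA y p) := by
  ext
  · simp [sm, mul_smul]
  · simp [sm, mul_assoc]

theorem sm_adj (x : PG hA) {p q : V × X.Phi} (h : adjW X p q) :
    adjW X (sm hA x p) (sm hA x q) := by
  refine ⟨hA.1 _ _ _ h.1, ?_⟩
  simp [sm, h.2, mul_assoc]

theorem sm_reach (x : PG hA) {p q : V × X.Phi} (h : ReflTransGen (adjW X) p q) :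
    ReflTransGen (adjW X) (sm hA x p) (sm hA x q) := by
  induction h with
  | refl => exact ReflTransGen.refl
  | tail _ h1 ih => exact ih.tail (sm_adj hA x h1)

/-- The lifts of the elements of `G` which preserve the component. -/
def GG : Subgroup (PG hA) where
  carrier := {x | ReflTransGen (adjW X) (v₀, 1) (sm hA x (v₀, 1))}
  one_mem' := by
    change ReflTransGen (adjW X) (v₀, 1) (sm hA 1 (v₀, 1))
    rw [sm_one]
  mul_mem' := by
    intro x y hx hy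
    change ReflTransGen (adjW X) (v₀, 1) (sm hA (x * y) (v₀, 1))
    rw [sm_mul]
    exact ReflTransGen.trans hx (sm_reach hA x hy)
  inv_mem' := by
    intro x hx
    have h1 := reachW_symm (sm_reach hA x⁻¹ hx)
    rw [← sm_mul, inv_mul_cancel, sm_one] at h1
    exact h1

variable {v₀}

theorem mem_GG {x : PG hA} : x ∈ GG hA v₀ ↔ ReflTransGen (adjW X) (v₀, 1) (sm hA x (v₀, 1)) :=
  Iff.rfl

theorem mem_GG_of {x : PG hA} {p : V × X.Phi} (hp : ReflTransGen (adjW X) (v₀, 1) p)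
    (h : ReflTransGen (adjW X) (v₀, 1) (sm hA x p)) : x ∈ GG hA v₀ := by
  rw [mem_GG]
  exact h.trans (reachW_symm (sm_reach hA x hp))

noncomputable instance : MulAction (GG hA v₀) (Cv X v₀) where
  smul x p := ⟨sm hA x.1 p.1, ReflTransGen.trans x.2 (sm_reach hA x.1 p.2)⟩
  one_smul p := Subtype.ext (sm_one hA p.1)
  mul_smul x y p := Subtype.ext (sm_mul hA x.1 y.1 p.1)

theorem smul_val (x : GG hA v₀) (p : Cv X v₀) : (x • p).1 = sm hA x.1 p.1 := rfl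

theorem cover_acts : (cover X v₀).Acts (GG hA v₀) := by
  refine ⟨fun g u v h => sm_adj hA g.1 h, fun g u v w x h => ⟨hA.2 _ _ _ _ _ h.1, ?_, ?_, ?_⟩⟩
  · exact (sm_adj hA g.1 (p := u.1) (q := v.1) ⟨X.sq_adj _ _ _ _ h.1, h.2.1⟩).2
  · exact (sm_adj hA g.1 (p := v.1) (q := w.1)
      ⟨X.sq_adj _ _ _ _ (X.sq_rot _ _ _ _ h.1), h.2.2.1⟩).2
  · exact (sm_adj hA g.1 (p := w.1) (q := x.1)
      ⟨X.sq_adj _ _ _ _ (X.sq_rot _ _ _ _ (X.sq_rot _ _ _ _ h.1)), h.2.2.2⟩).2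

theorem cover_stab (p : Cv X v₀) (hf : Finite (MulAction.stabilizer G p.1.1)) :
    Finite (MulAction.stabilizer (GG hA v₀) p) := by
  have key : ∀ x : MulAction.stabilizer (GG hA v₀) p, sm hA x.1.1 p.1 = p.1 := fun x =>
    congrArg Subtype.val x.2
  refine Finite.of_injective (β := MulAction.stabilizer G p.1.1)
    (fun x => ⟨x.1.1.right, congrArg Prod.fst (key x)⟩) ?_
  intro x y hxy
  have e1 : x.1.1.right = y.1.1.right := congrArg Subtype.val hxy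
  have e2 : x.1.1.left * actPhi hA x.1.1.right p.1.2 = p.1.2 := congrArg Prod.snd (key x)
  have e3 : y.1.1.left * actPhi hA y.1.1.right p.1.2 = p.1.2 := congrArg Prod.snd (key y)
  refine Subtype.ext (Subtype.ext (SemidirectProduct.ext ?_ e1))
  have e2' := e2
  rw [e1] at e2'
  exact mul_right_cancel (e2'.trans e3.symm)

/-- `q` is equal or adjacent to `p`. -/
def RR (p q : Cv X v₀) : Prop := q = p ∨ adjW X p.1 q.1

theorem RR_unique (p q q' : Cv X v₀) (x : GG hA v₀) {p' : Cv X v₀} (hx : x • p' = p)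
    (h : RR p q) (h' : RR p' q') (he : x.1.right • q'.1.1 = q.1.1) : x • q' = q := by
  have hp : x.1.right • p'.1.1 = p.1.1 := by
    rw [← hx]
    rfl
  rcases h with rfl | h
  · rcases h' with rfl | h'
    · exact hx
    · exfalso
      have h2 := hA.1 x.1.right _ _ h'.1
      rw [hp, he] at h2
      exact X.adj_irrefl _ h2
  · rcases h' with rfl | h'
    · exfalso
      rw [hp] at he
      have := h.1
      rw [he] at this
      exact X.adj_irrefl _ this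
    · refine Cv.ext he ?_
      have h2 := (sm_adj hA x.1 h').2
      have h3 : (sm hA x.1 p'.1) = p.1 := congrArg Subtype.val hx
      rw [h3] at h2
      rw [smul_val, h2, h.2]
      congr 2

theorem exists_lift (p p' : Cv X v₀) (g : G) (hg : g • p'.1.1 = p.1.1) :
    ∃ x : GG hA v₀, x • p' = p ∧ x.1.right = g := by
  let x : PG hA := ⟨p.1.2 * (actPhi hA g p'.1.2)⁻¹, g⟩
  have hx : sm hA x p'.1 = p.1 := by
    ext
    · exact hg
    · change p.1.2 * (actPhi hA g p'.1.2)⁻¹ * actPhi hA g p'.1.2 = p.1.2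
      rw [inv_mul_cancel_right]
  exact ⟨⟨x, mem_GG_of hA p'.2 (by rw [hx]; exact p.2)⟩, Subtype.ext hx, rfl⟩

theorem cover_cocompact (K : Finset V) (hv₀ : v₀ ∈ K)
    (hK1 : ∀ u v, X.adj u v → ∃ g : G, g • u ∈ K ∧ g • v ∈ K)
    (hK2 : ∀ u v w x, X.sq u v w x → ∃ g : G, g • u ∈ K ∧ g • v ∈ K ∧ g • w ∈ K ∧ g • x ∈ K) :
    (cover X v₀).Cocompact (GG hA v₀) := by
  classical
  -- the quadruples over `t`
  let Q : K × K × K × K → Cv X v₀ × Cv X v₀ × Cv X v₀ × Cv X v₀ → Prop := fun t s =>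
    RR s.1 s.2.1 ∧ RR s.2.1 s.2.2.1 ∧ RR s.1 s.2.2.2 ∧ ∃ g : G, g • s.1.1.1 = t.1.1 ∧
      g • s.2.1.1.1 = t.2.1.1 ∧ g • s.2.2.1.1.1 = t.2.2.1.1 ∧ g • s.2.2.2.1.1 = t.2.2.2.1
  let b : Cv X v₀ := ⟨(v₀, 1), ReflTransGen.refl⟩
  let F : K × K × K × K → Cv X v₀ × Cv X v₀ × Cv X v₀ × Cv X v₀ := fun t =>
    if h : ∃ s, Q t s then h.choose else (b, b, b, b)
  have key : ∀ p q r o : Cv X v₀, RR p q → RR q r → RR p o →
      (∃ g : G, g • p.1.1 ∈ K ∧ g • q.1.1 ∈ K ∧ g • r.1.1 ∈ K ∧ g • o.1.1 ∈ K) →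
      ∃ x : GG hA v₀, (x • p, x • q, x • r, x • o) ∈ Set.range F := by
    rintro p q r o hpq hqr hpo ⟨g, h1, h2, h3, h4⟩
    have hex : ∃ s, Q (⟨_, h1⟩, ⟨_, h2⟩, ⟨_, h3⟩, ⟨_, h4⟩) s :=
      ⟨(p, q, r, o), hpq, hqr, hpo, g, rfl, rfl, rfl, rfl⟩
    have hF : F (⟨_, h1⟩, ⟨_, h2⟩, ⟨_, h3⟩, ⟨_, h4⟩) = hex.choose := dif_pos hex
    obtain ⟨e1, e2, e2', g', e3, e4, e5, e6⟩ := hex.choose_spec
    rw [← hF] at e1 e2 e2' e3 e4 e5 e6
    set s := F (⟨_, h1⟩, ⟨_, h2⟩, ⟨_, h3⟩, ⟨_, h4⟩) with hs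
    have f1 : (g'⁻¹ * g) • p.1.1 = s.1.1.1 := by
      rw [mul_smul, inv_smul_eq_iff]
      exact e3.symm
    have f2 : (g'⁻¹ * g) • q.1.1 = s.2.1.1.1 := by
      rw [mul_smul, inv_smul_eq_iff]
      exact e4.symm
    have f3 : (g'⁻¹ * g) • r.1.1 = s.2.2.1.1.1 := by
      rw [mul_smul, inv_smul_eq_iff]
      exact e5.symm
    have f4 : (g'⁻¹ * g) • o.1.1 = s.2.2.2.1.1 := by
      rw [mul_smul, inv_smul_eq_iff]
      exact e6.symm
    obtain ⟨x, hx, hxr⟩ := exists_lift hA s.1 p _ f1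
    refine ⟨x, (⟨_, h1⟩, ⟨_, h2⟩, ⟨_, h3⟩, ⟨_, h4⟩), ?_⟩
    rw [← hs]
    have g1 : x • q = s.2.1 := RR_unique hA s.1 s.2.1 q x hx e1 hpq (by rw [hxr]; exact f2)
    have g2 : x • r = s.2.2.1 := RR_unique hA s.2.1 s.2.2.1 r x g1 e2 hqr (by rw [hxr]; exact f3)
    have g3 : x • o = s.2.2.2 := RR_unique hA s.1 s.2.2.2 o x hx e2' hpo (by rw [hxr]; exact f4)
    exact Prod.ext hx.symm (Prod.ext g1.symm (Prod.ext g2.symm g3.symm))
  refine ⟨Set.range F, Set.finite_range F, fun p => ?_, fun p q hpq => ?_, fun p q r o h => ?_⟩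
  · refine key p p p p (Or.inl rfl) (Or.inl rfl) (Or.inl rfl) ?_
    have : ∃ g : G, g • p.1.1 ∈ K := by
      obtain ⟨p, hp⟩ := p
      induction hp with
      | refl => exact ⟨1, by simpa using hv₀⟩
      | tail _ h2 _ =>
        obtain ⟨g, _, hg⟩ := hK1 _ _ h2.1
        exact ⟨g, hg⟩
    obtain ⟨g, hg⟩ := this
    exact ⟨g, hg, hg, hg, hg⟩
  · obtain ⟨g, h1, h2⟩ := hK1 _ _ hpq.1
    exact key p p p q (Or.inl rfl) (Or.inl rfl) (Or.inr hpq) ⟨g, h1, h1, h1, h2⟩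
  · obtain ⟨g, h1, h2, h3, h4⟩ := hK2 _ _ _ _ h.1
    have t2 := X.sq_rot _ _ _ _ h.1
    have t3 := X.sq_rot _ _ _ _ t2
    have t4 := X.sq_rot _ _ _ _ t3
    refine key p q r o (Or.inr ⟨X.sq_adj _ _ _ _ h.1, h.2.1⟩)
      (Or.inr ⟨X.sq_adj _ _ _ _ t2, h.2.2.1⟩)
      (Or.inr (adjW_symm ⟨X.sq_adj _ _ _ _ t4, ?_⟩)) ⟨g, h1, h2, h3, h4⟩
    rw [h.2.2.2, h.2.2.1, h.2.1]
    exact (sqW h.1 _).symm

/-- The group of the lifts is in the class. -/
theorem GG_mem {C : ∀ (G : Type) [Group G], Prop} (hC : SqClass C) (hX : X.LinkGirth)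
    (hst : ∀ v : V, Finite (MulAction.stabilizer G v)) (K : Finset V) (hv₀ : v₀ ∈ K)
    (hK1 : ∀ u v, X.adj u v → ∃ g : G, g • u ∈ K ∧ g • v ∈ K)
    (hK2 : ∀ u v w x, X.sq u v w x → ∃ g : G, g • u ∈ K ∧ g • v ∈ K ∧ g • w ∈ K ∧ g • x ∈ K) :
    C (GG hA v₀) :=
  hC.square (Cv X v₀) (cover X v₀) (GG hA v₀) cover_simplyConn (cover_linkGirth hX)
    (cover_acts hA) (fun p => cover_stab hA p (hst _)) (cover_cocompact hA K hv₀ hK1 hK2)

end Sqx

end Pool.Agent.Helper9.SQ
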