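import Pool.Agent.Helper9.SQ.Fin3

/-!
# Groups acting on simply connected square complexes
-/

set_option autoImplicit false

namespace Pool.Agent.Helper9.SQ

open Relation Pool.Agent.Helper29.BA Pool.Agent.Helper29.PA
open Pool.Agent.Helper3.FJ.Cpx (kadj kadj_symm kadj_mono kadj_smul exists_orbit_reach reach_mem)

namespace Sqx

variable {V : Type} {X : Sqx V} {G : Type} [Group G] [MulAction G V]

/-- A finitely generated group is the colimit of the groups of the lifts to the universal covers of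
the cocompact subcomplexes. -/
theorem colim_gen {C : ∀ (G : Type) [Group G], Prop} (hC : ClosedClass C) (hA : X.Acts G)
    (hX : X.SimplyConn) (S : Finset G) (hS : Subgroup.closure (S : Set G) = ⊤)
    (hGG : ∀ (v₀ : V) (s : Finset V), v₀ ∈ s → C (GG (sb_acts hA s) v₀)) : C G := by
  classical
  obtain ⟨v₀⟩ := hX.1
  obtain ⟨s₀, hv₀, hs₀⟩ := exists_orbit_reach (X := X.sk) hA.1 hX.2.1 S hS v₀
  let I : Type := {s : Finset V // s₀ ⊆ s}
  have : IsDirectedOrder I :=
    ⟨fun a b => ⟨⟨a.1 ∪ b.1, a.2.trans Finset.subset_union_left⟩,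
      Finset.subset_union_left, Finset.subset_union_right⟩⟩
  have : Nonempty I := ⟨⟨s₀, subset_rfl⟩⟩
  refine hC.colimit I (fun s => GG (sb_acts hA s.1) v₀)
    (fun s t h => mapGG v₀ (sb_sub h) (sb_acts hA s.1) (sb_acts hA t.1)) ?_ G
    (fun s => prG v₀ (sb_acts hA s.1)) ?_ ?_ ?_ ?_
  · intro i j k h h' x
    exact mapGG_mapGG v₀ _ _ _ _ _ x
  · intro i j h x
    exact prG_mapGG v₀ _ _ _ x
  · intro γ
    obtain ⟨φ, hφ⟩ := lift_reach (X := X.sb G s₀) (hs₀ s₀ subset_rfl γ)
    exact ⟨⟨s₀, subset_rfl⟩, ⟨⟨φ, γ⟩, (mem_GG_mk v₀ _).2 hφ⟩, rfl⟩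
  · intro i x hx1
    rw [prG_apply] at hx1
    have hx := x.2
    have h1 : ReflTransGen (adjW (X.sb G i.1)) (v₀, 1) (v₀, x.1.left) := by
      have := (mem_GG_mk v₀ (sb_acts hA i.1) (φ := x.1.left) (γ := x.1.right)).1 hx
      rwa [hx1, one_smul] at this
    have h2 := map_reach (sb_sub_self i.1) h1
    simp only [map_one] at h2
    have h3 := reach_eq_one hX h2
    obtain ⟨w, hw⟩ := QuotientGroup.mk_surjective x.1.left
    rw [← hw, mapPhi_mk, QuotientGroup.eq_one_iff] at h3
    obtain ⟨t, ht⟩ := exists_normalClosure (G := G) h3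
    refine ⟨⟨i.1 ∪ t, i.2.trans Finset.subset_union_left⟩, Finset.subset_union_left, ?_⟩
    refine mapGG_eq_one v₀ _ _ _ x ?_ hx1
    rw [← hw, mapPhi_mk, QuotientGroup.eq_one_iff]
    exact Subgroup.normalClosure_mono (relc_mono (sb_sub Finset.subset_union_right)) ht
  · intro i
    exact hGG v₀ i.1 (i.2 hv₀)

/-- Reduction to finitely generated groups. -/
theorem of_fg {C : ∀ (G : Type) [Group G], Prop} (hC : ClosedClass C) (hA : X.Acts G)
    (h : ∀ (T : Subgroup G) (S : Finset T), Subgroup.closure (S : Set T) = ⊤ → X.Acts T → C T) :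
    C G := by
  classical
  refine hC.ofClosure fun s => ?_
  refine h (Subgroup.closure (s : Set G))
    (s.attach.image fun x => ⟨x.1, Subgroup.subset_closure x.2⟩) ?_
    ⟨fun g u v h => hA.1 g u v h, fun g u v w x h => hA.2 g u v w x h⟩
  rw [eq_top_iff]
  rintro ⟨x, hx⟩ -
  induction hx using Subgroup.closure_induction with
  | mem y hy =>
    refine Subgroup.subset_closure ?_
    rw [Finset.coe_image]
    exact ⟨⟨y, hy⟩, by simp, rfl⟩
  | one => exact one_mem _
  | mul y z hy hz ihy ihz => exact mul_mem ihy ihz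
  | inv y hy ih => exact inv_mem ih

/-- Stabilizers in the cover. -/
theorem cover_inj {hA : X.Acts G} {v₀ : V} {Q : Type} [Group Q] (f : G →* Q) (x : GG hA v₀)
    (p : Cv X v₀) (hx : x • p = p) (h1 : f (prG v₀ hA x) = 1)
    (hf : ∀ g : G, g • p.1.1 = p.1.1 → f g = 1 → g = 1) : x = 1 := by
  have key : sm hA x.1 p.1 = p.1 := congrArg Subtype.val hx
  have e1 : x.1.right • p.1.1 = p.1.1 := congrArg Prod.fst key
  have e2 : x.1.left * actPhi hA x.1.right p.1.2 = p.1.2 := congrArg Prod.snd key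
  have e3 : x.1.right = 1 := hf _ e1 h1
  rw [e3, map_one] at e2
  have e4 : x.1.left = 1 := mul_eq_right.1 e2
  exact Subtype.ext (SemidirectProduct.ext e4 e3)

/-- Groups with a homomorphism to the integers which is injective on the stabilizers. -/
theorem int_gen {C : ∀ (G : Type) [Group G], Prop} (hC : SqClass C) (hA : X.Acts G)
    (hX : X.SimplyConn) (hL : X.LinkGirth) (f : G →* Multiplicative ℤ)
    (hf : ∀ (v : V) (g : G), g • v = v → f g = 1 → g = 1) : C G := by
  refine of_fg hC.toClosedClass hA fun T S hS hAT => ?_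
  refine colim_gen hC.toClosedClass hAT hX S hS fun v₀ s hv₀ => ?_
  refine int_mem hC cover_simplyConn (cover_linkGirth (sb_linkGirth hL s))
    (cover_acts (sb_acts hAT s))
    (cover_cocompact (sb_acts hAT s) s hv₀ (fun u v h => h.2) (fun u v w x h => h.2))
    ((f.comp T.subtype).comp (prG v₀ (sb_acts hAT s))) fun p x hx h1 => ?_
  exact cover_inj (f.comp T.subtype) x p hx h1 fun g hg hg' => Subtype.ext (hf _ g.1 hg hg')

/-- Groups with a homomorphism to a group of the class which is injective on the stabilizers. -/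
theorem map_gen {C : ∀ (G : Type) [Group G], Prop} (hC : SqClass C) (hA : X.Acts G)
    (hX : X.SimplyConn) (hL : X.LinkGirth) {Q : Type} [Group Q] (f : G →* Q) (hQ : C Q)
    (hf : ∀ (v : V) (g : G), g • v = v → f g = 1 → g = 1) : C G := by
  refine hC.ext G Q f hQ fun q => ?_
  obtain ⟨D, hD⟩ : ∃ D : Subgroup G, D = (Subgroup.zpowers q).comap f := ⟨_, rfl⟩
  have hD' : ∀ d ∈ D, f d ∈ Subgroup.zpowers q := fun d hd => by
    rw [hD] at hd
    exact hd
  rw [← hD]
  have hAD : X.Acts D := ⟨fun g u v h => hA.1 g.1 u v h, fun g u v w x h => hA.2 g.1 u v w x h⟩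
  by_cases hfin : IsOfFinOrder q
  · refine colim hC hAD hX hL fun v => ?_
    have h2 : Finite (Subgroup.zpowers q) := finite_zpowers.2 hfin
    refine Finite.of_injective (β := Subgroup.zpowers q)
      (fun d : MulAction.stabilizer D v => ⟨f d.1.1, hD' _ d.1.2⟩) ?_
    intro a b hab
    have h3 : f a.1.1 = f b.1.1 := congrArg Subtype.val hab
    have h4 : (b.1.1)⁻¹ * a.1.1 = 1 := by
      refine hf v _ ?_ (by rw [map_mul, map_inv, h3, inv_mul_cancel])
      have h5 : a.1.1 • v = v := a.2
      have h6 : b.1.1 • v = v := b.2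
      rw [mul_smul, h5, inv_smul_eq_iff, h6]
    exact Subtype.ext (Subtype.ext (inv_mul_eq_one.1 h4).symm)
  · have hinj : ∀ m n : ℤ, q ^ m = q ^ n → m = n := by
      intro m n hmn
      by_contra hne
      refine hfin (isOfFinOrder_iff_zpow_eq_one.2 ⟨m - n, sub_ne_zero.2 hne, ?_⟩)
      rw [zpow_sub, hmn, mul_inv_cancel]
    choose e he using fun d : D => hD' d.1 d.2
    have he' : ∀ d : D, q ^ e d = f d.1 := he
    let φ : D →* Multiplicative ℤ :=
      { toFun := fun d => Multiplicative.ofAdd (e d)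
        map_one' := by
          rw [ofAdd_eq_one]
          exact hinj _ _ (by rw [he', zpow_zero, OneMemClass.coe_one, map_one])
        map_mul' := fun a b => by
          rw [← ofAdd_add]
          congr 1
          exact hinj _ _ (by rw [he', zpow_add, he', he', Subgroup.coe_mul, map_mul]) }
    refine int_gen hC hAD hX hL φ fun v d hd h1 => Subtype.ext (hf v d.1 hd ?_)
    have h2 : e d = 0 := by
      have : Multiplicative.ofAdd (e d) = 1 := h1
      rwa [ofAdd_eq_one] at this
    rw [← he', h2, zpow_zero]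

/-- **Main theorem.** Groups `G` such that for each finite set of vertices there is a homomorphism
to a group of the class which is injective on the stabilizers of these vertices. -/
theorem main {C : ∀ (G : Type) [Group G], Prop} (hC : SqClass C) (hA : X.Acts G)
    (hX : X.SimplyConn) (hL : X.LinkGirth)
    (hQ : ∀ K : Finset V, ∃ (Q : Type) (_ : Group Q) (f : G →* Q), C Q ∧
      ∀ v ∈ K, ∀ g : G, g • v = v → f g = 1 → g = 1) : C G := by
  refine of_fg hC.toClosedClass hA fun T S hS hAT => ?_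
  refine colim_gen hC.toClosedClass hAT hX S hS fun v₀ s hv₀ => ?_
  obtain ⟨Q, _, f, hCQ, hf⟩ := hQ s
  refine map_gen hC (cover_acts (sb_acts hAT s)) cover_simplyConn (cover_linkGirth (sb_linkGirth hL s))
    ((f.comp T.subtype).comp (prG v₀ (sb_acts hAT s))) hCQ fun p x hx h1 => ?_
  refine cover_inj (f.comp T.subtype) x p hx h1 fun g hg hg' => ?_
  obtain ⟨γ, hγ⟩ : ∃ γ : T, γ • p.1.1 ∈ s := by
    refine reach_mem (X := X.sk) (G := T) ⟨1, by simpa using hv₀⟩ (u := v₀) ?_
    have h2 := p.2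
    have key : ∀ q : V × (X.sb T s).Phi, ReflTransGen (adjW (X.sb T s)) (v₀, 1) q →
        ReflTransGen (X.sk.kadj T s) v₀ q.1 := by
      intro q hq
      induction hq with
      | refl => exact ReflTransGen.refl
      | tail _ h4 ih => exact ih.tail h4.1
    exact key _ h2
  have h3 : γ.1 * g.1 * γ.1⁻¹ = 1 := by
    refine hf _ hγ _ ?_ ?_
    · change (γ.1 * g.1 * γ.1⁻¹) • γ.1 • p.1.1 = γ.1 • p.1.1
      rw [mul_smul, inv_smul_smul, mul_smul]
      congr 1
    · have h4 : f g.1 = 1 := hg'
      rw [map_mul, map_mul, h4, mul_one, ← map_mul, mul_inv_cancel, map_one]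
  apply Subtype.ext
  have : g.1 = γ.1⁻¹ * (γ.1 * g.1 * γ.1⁻¹) * γ.1 := by group
  rw [this, h3]
  simp

end Sqx

end Pool.Agent.Helper9.SQ
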