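import Mathlib

/-!
# Normal forms in nonpositively curved square complexes
-/

set_option autoImplicit false

namespace Pool.Agent.Helper9.SQ

open Relation

/-- Square complexes with darts (oriented edges) `D`: `sq a b c d` means that the closed path
`a b c d` bounds a square. -/
structure SC (V D : Type) where
  src : D → V
  inv : D → D
  sq : D → D → D → D → Prop
  inv_inv : ∀ d, inv (inv d) = d
  sq_src : ∀ a b c d, sq a b c d → src (inv a) = src b
  sq_rot : ∀ a b c d, sq a b c d → sq b c d a
  sq_inv : ∀ a b c d, sq a b c d → sq (inv d) (inv c) (inv b) (inv a)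

namespace SC

variable {V D : Type} (X : SC V D)

/-- The target. -/
abbrev tgt (d : D) : V := X.src (X.inv d)

/-- `a b = c d`: the paths `a b` and `c d` bound a square. -/
def cp (a b c d : D) : Prop := X.sq a b (X.inv d) (X.inv c)

/-- Adjacency in the links. -/
def L (a c : D) : Prop := ∃ b d, X.cp a b c d

variable {X}

theorem tgt_inv (d : D) : X.tgt (X.inv d) = X.src d := by rw [tgt, X.inv_inv]

theorem inv_inj {a b : D} (h : X.inv a = X.inv b) : a = b := by
  rw [← X.inv_inv a, h, X.inv_inv]

/-- `c d = a b`. -/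
theorem cp1 {a b c d : D} (h : X.cp a b c d) : X.cp c d a b := by
  have := X.sq_inv _ _ _ _ h
  rwa [X.inv_inv, X.inv_inv] at this

/-- `a⁻¹ c = b d⁻¹`. -/
theorem cp2 {a b c d : D} (h : X.cp a b c d) : X.cp (X.inv a) c b (X.inv d) := by
  have := X.sq_inv _ _ _ _ (X.sq_rot _ _ _ _ h)
  rw [X.inv_inv, X.inv_inv] at this
  rw [cp, X.inv_inv]
  exact this

/-- `b d⁻¹ = a⁻¹ c`. -/
theorem cp3 {a b c d : D} (h : X.cp a b c d) : X.cp b (X.inv d) (X.inv a) c := cp1 (cp2 h)

/-- `b⁻¹ a⁻¹ = d⁻¹ c⁻¹`. -/
theorem cp4 {a b c d : D} (h : X.cp a b c d) :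
    X.cp (X.inv b) (X.inv a) (X.inv d) (X.inv c) := cp2 (cp3 h)

theorem cp_src {a b c d : D} (h : X.cp a b c d) : X.src a = X.src c := by
  have := X.sq_src _ _ _ _ (X.sq_rot _ _ _ _ (X.sq_rot _ _ _ _ (X.sq_rot _ _ _ _ h)))
  rw [X.inv_inv] at this
  exact this.symm

theorem cp_mid {a b c d : D} (h : X.cp a b c d) : X.tgt a = X.src b := X.sq_src _ _ _ _ h

theorem cp_mid' {a b c d : D} (h : X.cp a b c d) : X.tgt c = X.src d := cp_mid (cp1 h)

theorem cp_tgt {a b c d : D} (h : X.cp a b c d) : X.tgt b = X.tgt d :=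
  X.sq_src _ _ _ _ (X.sq_rot _ _ _ _ h)

theorem L_symm {a b : D} (h : X.L a b) : X.L b a := by
  obtain ⟨x, y, hx⟩ := h
  exact ⟨_, _, cp1 hx⟩

/-- Adjacency at the source. -/
theorem L1 {a b c d : D} (h : X.cp a b c d) : X.L a c := ⟨_, _, h⟩

/-- Adjacency at the target of `a`. -/
theorem L2 {a b c d : D} (h : X.cp a b c d) : X.L (X.inv a) b := ⟨_, _, cp2 h⟩

/-- Adjacency at the target of `c`. -/
theorem L2' {a b c d : D} (h : X.cp a b c d) : X.L (X.inv c) d := L2 (cp1 h)

/-- Adjacency at the endpoint. -/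
theorem L3 {a b c d : D} (h : X.cp a b c d) : X.L (X.inv b) (X.inv d) := ⟨_, _, cp4 h⟩

variable (X)

/-- The links are graphs without circuits of length at most 3. -/
structure NPC : Prop where
  n0 : ∀ a, ¬ X.L a a
  n1 : ∀ a b c d b' d', X.cp a b c d → X.cp a b' c d' → b = b' ∧ d = d'
  n3 : ∀ a b c, X.L a b → X.L b c → X.L c a → False

variable {X}

section npc

variable (hX : X.NPC)
include hX

/-- The corner at the target of `a`. -/
theorem n1m {a b c d c' d' : D} (h : X.cp a b c d) (h' : X.cp a b c' d') : c = c' ∧ d = d' := by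
  obtain ⟨h1, h2⟩ := hX.n1 _ _ _ _ _ _ (cp2 h) (cp2 h')
  exact ⟨h1, inv_inj h2⟩

/-- The corner at the endpoint. -/
theorem n1e {a b c d a' c' : D} (h : X.cp a b c d) (h' : X.cp a' b c' d) : a = a' ∧ c = c' := by
  obtain ⟨h1, h2⟩ := hX.n1 _ _ _ _ _ _ (cp4 h) (cp4 h')
  exact ⟨inv_inj h1, inv_inj h2⟩

end npc

variable (X)

/-- Moves of words of darts across squares (the head of the list is the last dart). -/
inductive Sw : List D → List D → Prop
  | here {a b c d : D} {w : List D} : X.cp a b c d → Sw (b :: a :: w) (d :: c :: w)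
  | cons {x : D} {w w' : List D} : Sw w w' → Sw (x :: w) (x :: w')

/-- Words which differ by moves across squares. -/
abbrev E : List D → List D → Prop := ReflTransGen X.Sw

variable {X}

theorem Sw.symm {w w' : List D} (h : X.Sw w w') : X.Sw w' w := by
  induction h with
  | here h1 => exact Sw.here (cp1 h1)
  | cons _ ih => exact Sw.cons ih

theorem Sw.length {w w' : List D} (h : X.Sw w w') : w.length = w'.length := by
  induction h with
  | here _ => rfl
  | cons _ ih => simp [ih]

theorem E.symm {w w' : List D} (h : X.E w w') : X.E w' w := by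
  induction h with
  | refl => exact ReflTransGen.refl
  | tail _ h2 ih => exact ih.head h2.symm

theorem E.length {w w' : List D} (h : X.E w w') : w.length = w'.length := by
  induction h with
  | refl => rfl
  | tail _ h2 ih => rw [ih, h2.length]

theorem E.cons (x : D) {w w' : List D} (h : X.E w w') : X.E (x :: w) (x :: w') := by
  induction h with
  | refl => exact ReflTransGen.refl
  | tail _ h2 ih => exact ih.tail (Sw.cons h2)

/-- The move across a square. -/
theorem E.here {a b c d : D} (w : List D) (h1 : X.cp a b c d) :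
    X.E (b :: a :: w) (d :: c :: w) := ReflTransGen.single (Sw.here h1)

variable (X) (v₀ : V)

/-- The endpoint of a word. -/
def End : List D → V
  | [] => v₀
  | x :: _ => X.tgt x

variable {X v₀}

theorem Sw.end_eq {w w' : List D} (h : X.Sw w w') : X.End v₀ w = X.End v₀ w' := by
  cases h with
  | here h1 => exact cp_tgt h1
  | cons h => rfl

theorem E.end_eq {w w' : List D} (h : X.E w w') : X.End v₀ w = X.End v₀ w' := by
  induction h with
  | refl => rfl
  | tail _ h2 ih => rw [ih, h2.end_eq]

variable (X) (v₀)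

/-- `y` leads down from the endpoint of `w`. -/
def Dn (w : List D) (y : D) : Prop := ∃ w', X.E w (X.inv y :: w')

/-- `x` leads up from the endpoint of `w`. -/
def Up (w : List D) (x : D) : Prop := ¬ X.Dn w x

/-- Geodesic words. -/
inductive Good : List D → Prop
  | nil : Good []
  | cons {x : D} {w : List D} : Good w → X.src x = X.End v₀ w → X.Up w x → Good (x :: w)

variable {X v₀}

theorem Dn.congr {w w' : List D} (h : X.E w w') {y : D} (hy : X.Dn w y) : X.Dn w' y := by
  obtain ⟨u, hu⟩ := hy
  exact ⟨u, h.symm.trans hu⟩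

theorem Up.congr {w w' : List D} (h : X.E w w') {x : D} (hx : X.Up w x) : X.Up w' x :=
  fun h1 => hx (h1.congr h.symm)

theorem dn_self (x : D) (w : List D) : X.Dn (x :: w) (X.inv x) :=
  ⟨w, by rw [X.inv_inv]⟩

theorem Good.tail {x : D} {w : List D} (h : X.Good v₀ (x :: w)) : X.Good v₀ w := by
  cases h with
  | cons h1 h2 h3 => exact h1

theorem Good.src_eq {x : D} {w : List D} (h : X.Good v₀ (x :: w)) : X.src x = X.End v₀ w := by
  cases h with
  | cons h1 h2 h3 => exact h2

theorem Good.up {x : D} {w : List D} (h : X.Good v₀ (x :: w)) : X.Up w x := by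
  cases h with
  | cons h1 h2 h3 => exact h3

/-- The alternative of Levi's lemma. -/
def Lev (X : SC V D) (x : D) (w : List D) (x' : D) (w' : List D) : Prop :=
  (x = x' ∧ X.E w w') ∨
    ∃ (u : List D) (p q : D), X.cp p x q x' ∧ X.E w (p :: u) ∧ X.E w' (q :: u)

/-- The induction hypothesis. -/
def PP (X : SC V D) (v₀ : V) (n : ℕ) : Prop :=
  ∀ z : List D, z.length ≤ n → X.Good v₀ z → (∀ z', X.E z z' → X.Good v₀ z') ∧
    ∀ x w x' w', z = x :: w → X.E z (x' :: w') → Lev X x w x' w'

theorem sw_good (hX : X.NPC) {n : ℕ} (ih : PP X v₀ n) {z z' : List D} (hn : z.length ≤ n + 1)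
    (hz : X.Good v₀ z) (h : X.Sw z z') : X.Good v₀ z' := by
  cases h with
  | @cons x w w' h =>
    have h1 : w.length ≤ n := by simpa using hn
    have hE : X.E w w' := ReflTransGen.single h
    refine Good.cons ((ih w h1 hz.tail).1 _ hE) ?_ (hz.up.congr hE)
    rw [hz.src_eq, h.end_eq]
  | @here a b c d u h1 =>
    have hau := hz.tail
    have hu := hau.tail
    have upa := hau.up
    have upb := hz.up
    -- `c` leads up
    have hupc : X.Up u c := by
      rintro ⟨u', hu'⟩
      exact upb ⟨_, (E.cons a hu').trans (E.here u' (cp2 (cp1 h1)))⟩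
    have hgc : X.Good v₀ (c :: u) := by
      refine Good.cons hu ?_ hupc
      rw [← cp_src h1]
      exact hau.src_eq
    refine Good.cons hgc ?_ ?_
    · change X.src d = X.tgt c
      exact (cp_mid' h1).symm
    · have hlen : (c :: u).length ≤ n := by simpa using hn
      rintro ⟨w', hw'⟩
      rcases (ih _ hlen hgc).2 c u _ _ rfl hw' with ⟨h3, -⟩ | ⟨u2, p, q, h4, h5, h6⟩
      · have h7 := L2' h1
        rw [h3, X.inv_inv] at h7
        exact hX.n0 _ h7
      · have h8 : X.cp (X.inv c) (X.inv p) d (X.inv q) := by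
          have := cp4 h4
          rwa [X.inv_inv] at this
        have h9 := (hX.n1 _ _ _ _ _ _ h8 (cp2 (cp1 h1))).1
        refine upa ⟨u2, ?_⟩
        rw [← h9, X.inv_inv]
        exact h5

theorem pp (hX : X.NPC) (n : ℕ) : PP X v₀ n := by
  induction n with
  | zero =>
    intro z hz hg
    have : z = [] := List.eq_nil_of_length_eq_zero (Nat.le_zero.1 hz)
    subst this
    refine ⟨fun z' hz' => ?_, fun x w x' w' h => by simp at h⟩
    have := hz'.length
    have h2 : z' = [] := List.eq_nil_of_length_eq_zero this.symm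
    subst h2
    exact hg
  | succ n ih =>
    intro z hz hg
    have hgood : ∀ z', X.E z z' → X.Good v₀ z' := by
      intro z' hz'
      induction hz' with
      | refl => exact hg
      | tail h1 h2 ih' => exact sw_good hX ih (by rw [← E.length h1]; exact hz) ih' h2
    refine ⟨hgood, ?_⟩
    rintro x w x' w' rfl hE
    have key : ∀ z', X.E (x :: w) z' → ∀ x' w', z' = x' :: w' → Lev X x w x' w' := by
      intro z' hz'
      induction hz' with
      | refl =>
        rintro x' w' h
        simp only [List.cons.injEq] at h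
        exact Or.inl ⟨h.1, h.2 ▸ ReflTransGen.refl⟩
      | @tail z1 z2 h1 h2 ih' =>
        rintro x' w' rfl
        have hg1 := hgood z1 h1
        have hlen1 : z1.length ≤ n + 1 := by rw [← E.length h1]; exact hz
        cases h2 with
        | @cons _ w1 _ h3 =>
          rcases ih' _ _ rfl with ⟨h4, h5⟩ | ⟨u, p, q, h4, h6, h7⟩
          · exact Or.inl ⟨h4, h5.tail h3⟩
          · exact Or.inr ⟨u, p, q, h4, h6, (ReflTransGen.single h3.symm).trans h7⟩
        | @here a b c d u1 h3 =>
          -- `z1 = b :: a :: u1`, `z2 = d :: c :: u1`, `a b = c d`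
          rcases ih' _ _ rfl with ⟨h5, h6⟩ | ⟨u, p, q, h5, h7, h8⟩
          · subst h5
            exact Or.inr ⟨u1, a, c, h3, h6, ReflTransGen.refl⟩
          · rcases (ih (a :: u1) (by simpa using hlen1) hg1.tail).2 a u1 q u rfl h8 with
              ⟨h9, h10⟩ | ⟨u2, p2, q2, h10, h11, h12⟩
            · subst h9
              obtain ⟨e1, e2⟩ := n1m hX (cp1 h5) h3
              refine Or.inl ⟨e2, ?_⟩
              rw [← e1]
              exact h7.trans (E.cons p h10.symm)
            · exfalso
              exact hX.n3 _ _ _ (L3 h10) (L2' h5) (L_symm (L2 h3))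
    exact key _ hE _ _ rfl

end SC

end Pool.Agent.Helper9.SQ
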