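import Pool.Agent.Helper9.SQ.NF

/-!
# The action of darts on geodesic words
-/

set_option autoImplicit false

namespace Pool.Agent.Helper9.SQ

open Relation

namespace SC

variable {V D : Type} {X : SC V D} {v₀ : V} (hX : X.NPC)

include hX

theorem good_of_E {z z' : List D} (hg : X.Good v₀ z) (h : X.E z z') : X.Good v₀ z' :=
  (pp hX z.length z le_rfl hg).1 z' h

theorem levi {x x' : D} {w w' : List D} (hg : X.Good v₀ (x :: w)) (h : X.E (x :: w) (x' :: w')) :
    Lev X x w x' w' :=
  (pp hX _ _ le_rfl hg).2 _ _ _ _ rfl h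

omit hX in
variable (X) in
/-- `w'` is the result of the action of the dart `x` on the word `w`. -/
inductive Act (w : List D) (x : D) (w' : List D) : Prop
  | down : X.E w (X.inv x :: w') → Act w x w'
  | up : X.Up w x → X.E w' (x :: w) → Act w x w'

omit hX in
theorem Act.congr_right {w w' w'' : List D} {x : D} (h : X.Act w x w') (h' : X.E w'' w') :
    X.Act w x w'' := by
  cases h with
  | down h1 => exact Act.down (h1.trans (E.cons _ (E.symm h')))
  | up h1 h2 => exact Act.up h1 (h'.trans h2)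

omit hX in
theorem Act.congr_left {w w' w'' : List D} {x : D} (h : X.Act w x w') (h' : X.E w w'') :
    X.Act w'' x w' := by
  cases h with
  | down h1 => exact Act.down ((E.symm h').trans h1)
  | up h1 h2 => exact Act.up (h1.congr h') (h2.trans (E.cons x h'))

theorem Act.good {w w' : List D} {x : D} (hg : X.Good v₀ w) (hx : X.src x = X.End v₀ w)
    (h : X.Act w x w') : X.Good v₀ w' := by
  cases h with
  | down h1 => exact (good_of_E hX hg h1).tail
  | up h1 h2 => exact good_of_E hX (Good.cons hg hx h1) (E.symm h2)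

theorem Act.end_eq {w w' : List D} {x : D} (hg : X.Good v₀ w) (h : X.Act w x w') :
    X.End v₀ w' = X.tgt x := by
  cases h with
  | down h1 => exact (good_of_E hX hg h1).src_eq.symm
  | up h1 h2 => rw [E.end_eq h2]; rfl

omit hX in
theorem exists_act (w : List D) (x : D) : ∃ w', X.Act w x w' := by
  by_cases h1 : X.Dn w x
  · obtain ⟨w', hw'⟩ := h1
    exact ⟨w', Act.down hw'⟩
  · exact ⟨x :: w, Act.up h1 ReflTransGen.refl⟩

theorem Act.unique {w w₁ w₂ : List D} {x : D} (hg : X.Good v₀ w) (h₁ : X.Act w x w₁)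
    (h₂ : X.Act w x w₂) : X.E w₁ w₂ := by
  cases h₁ with
  | down h1 =>
    cases h₂ with
    | down h2 =>
      rcases levi hX (good_of_E hX hg h1) ((E.symm h1).trans h2) with
        ⟨-, h3⟩ | ⟨u, p, q, h4, -⟩
      · exact h3
      · exact (hX.n0 _ (L3 h4)).elim
    | up h2 h3 => exact (h2 ⟨_, h1⟩).elim
  | up h1 h2 =>
    cases h₂ with
    | down h3 => exact (h1 ⟨_, h3⟩).elim
    | up h3 h4 => exact h2.trans (E.symm h4)

theorem Act.symm {w w' : List D} {x : D} (hg : X.Good v₀ w)
    (h : X.Act w x w') : X.Act w' (X.inv x) w := by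
  cases h with
  | down h1 => exact Act.up (good_of_E hX hg h1).up h1
  | up h1 h2 => exact Act.down (by rw [X.inv_inv]; exact h2)

/-- The relations of the squares. -/
theorem Act.sq {w w₁ w₂ w₃ : List D} {a b c d : D} (hg : X.Good v₀ w) (ha : X.src a = X.End v₀ w)
    (h : X.cp a b c d) (h₁ : X.Act w a w₁) (h₂ : X.Act w₁ b w₂) (h₃ : X.Act w c w₃) :
    X.Act w₃ d w₂ := by
  have hc : X.src c = X.End v₀ w := by rw [← cp_src h, ha]
  have hg₁ := h₁.good hX hg ha
  have hg₃ := h₃.good hX hg hc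
  have hb : X.src b = X.End v₀ w₁ := by rw [h₁.end_eq hX hg, ← cp_mid h]
  -- one of the two darts leads down
  have key : ∀ {a b c d : D} {w₁ w₃ : List D}, X.src c = X.End v₀ w → X.Good v₀ w₁ →
      X.cp a b c d → X.E w (X.inv a :: w₁) → X.Up w c → X.E w₃ (c :: w) →
      X.Up w₁ b ∧ X.E w₃ (X.inv d :: b :: w₁) := by
    intro a b c d w₁ w₃ hc hg₁ h h1 h2 h3
    have h4 : X.E w₃ (X.inv d :: b :: w₁) :=
      (h3.trans (E.cons c h1)).trans (E.here w₁ (cp2 h))
    exact ⟨(good_of_E hX (Good.cons hg hc h2) ((E.symm h3).trans h4)).tail.up, h4⟩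
  cases h₁ with
  | down h1 =>
    cases h₃ with
    | down h3 =>
      rcases levi hX (good_of_E hX hg h1) ((E.symm h1).trans h3) with
        ⟨h4, -⟩ | ⟨u, p, q, h4, h5, h6⟩
      · have h7 := L1 h
        rw [inv_inj h4] at h7
        exact (hX.n0 _ h7).elim
      · have h8 := cp4 h4
        rw [X.inv_inv, X.inv_inv] at h8
        obtain ⟨e1, e2⟩ := hX.n1 _ _ _ _ _ _ h8 h
        have h9 : X.Act w₁ b u := Act.down (by rw [← e1, X.inv_inv]; exact h5)
        have h10 : X.Act w₃ d u := Act.down (by rw [← e2, X.inv_inv]; exact h6)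
        exact h10.congr_right (h₂.unique hX hg₁ h9)
    | up h3 h4 =>
      obtain ⟨h5, h6⟩ := key hc hg₁ h h1 h3 h4
      have h7 : X.Act w₁ b (b :: w₁) := Act.up h5 ReflTransGen.refl
      exact (Act.down h6).congr_right (h₂.unique hX hg₁ h7)
  | up h1 h2 =>
    cases h₃ with
    | down h3 =>
      obtain ⟨h5, h6⟩ := key ha hg₃ (cp1 h) h3 h1 h2
      have h7 : X.Act w₁ b (d :: w₃) := Act.down h6
      exact Act.up h5 (h₂.unique hX hg₁ h7)
    | up h3 h4 =>
      have h5 : X.Up w₁ b := by
        intro h5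
        obtain ⟨w', hw'⟩ := h5.congr h2
        have hga := good_of_E hX hg₁ h2
        rcases levi hX hga hw' with ⟨h6, -⟩ | ⟨u, p, q, h6, h7, h8⟩
        · have h9 := L2 h
          rw [h6, X.inv_inv] at h9
          exact hX.n0 _ h9
        · have h9 := cp4 h6
          rw [X.inv_inv] at h9
          have e1 := (hX.n1 _ _ _ _ _ _ (cp1 h9) (cp1 (cp2 h))).2
          exact h3 ⟨u, by rw [← e1, X.inv_inv]; exact h7⟩
      have h6 : X.Act w₁ b (b :: w₁) := Act.up h5 ReflTransGen.refl
      have h7 : X.E w₂ (d :: w₃) :=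
        (h₂.unique hX hg₁ h6).trans ((E.cons b h2).trans
          ((E.here w h).trans (E.cons d (E.symm h4))))
      have hg₂ : X.Good v₀ w₂ := h₂.good hX hg₁ hb
      exact Act.up (good_of_E hX hg₂ h7).up h7

end SC

end Pool.Agent.Helper9.SQ
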