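import Pool.Agent.Helper9.SQ.NF3

/-!
# Levels in simply connected nonpositively curved square complexes
-/

set_option autoImplicit false

namespace Pool.Agent.Helper9.SQ

open Relation

namespace SC

variable {V D : Type} (X : SC V D) (v₀ : V)

/-- The data: `X` is nonpositively curved and simply connected. -/
structure Had : Prop where
  npc : X.NPC
  sc : X.SimplyConn

variable {X} (h : X.Had)

/-- A geodesic word ending at `v`. -/
noncomputable def wd (v : V) : List D := (exists_good (v₀ := v₀) h.npc h.sc.2.1 v).choose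

theorem wd_good (v : V) : X.Good v₀ (wd v₀ h v) :=
  (exists_good (v₀ := v₀) h.npc h.sc.2.1 v).choose_spec.1

theorem wd_end (v : V) : X.End v₀ (wd v₀ h v) = v :=
  (exists_good (v₀ := v₀) h.npc h.sc.2.1 v).choose_spec.2

/-- The level. -/
noncomputable def lv (v : V) : ℕ := (wd v₀ h v).length

/-- `y` leads down from `v`. -/
def DD (v : V) (y : D) : Prop := X.Dn (wd v₀ h v) y

variable {v₀}

theorem good_E {w : List D} (hw : X.Good v₀ w) : X.E (wd v₀ h (X.End v₀ w)) w :=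
  unique_good h.npc h.sc (wd_good v₀ h _) hw (wd_end v₀ h _)

theorem lv_good {w : List D} (hw : X.Good v₀ w) : lv v₀ h (X.End v₀ w) = w.length :=
  E.length (good_E h hw)

theorem DD_iff {w : List D} (hw : X.Good v₀ w) {y : D} :
    DD v₀ h (X.End v₀ w) y ↔ X.Dn w y :=
  ⟨fun h1 => h1.congr (good_E h hw), fun h1 => h1.congr (E.symm (good_E h hw))⟩

/-- A dart leading down. -/
theorem DD_spec {v : V} {y : D} (hy : DD v₀ h v y) : ∃ u, X.Good v₀ (X.inv y :: u) ∧
    X.E (wd v₀ h v) (X.inv y :: u) ∧ X.Good v₀ u ∧ X.End v₀ u = X.tgt y ∧ X.src y = v ∧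
      lv v₀ h v = lv v₀ h (X.tgt y) + 1 := by
  obtain ⟨u, hu⟩ := hy
  have h1 := good_of_E h.npc (wd_good v₀ h v) hu
  have h2 : X.End v₀ u = X.tgt y := h1.src_eq.symm
  refine ⟨u, h1, hu, h1.tail, h2, ?_, ?_⟩
  · have := E.end_eq (v₀ := v₀) hu
    rw [wd_end] at this
    rw [this]
    exact (tgt_inv y).symm
  · have h3 := lv_good h h1.tail
    rw [h2] at h3
    rw [h3]
    exact E.length hu

theorem DD_of_good {y : D} {u : List D} (hg : X.Good v₀ (X.inv y :: u)) :
    DD v₀ h (X.src y) y := by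
  have : X.src y = X.End v₀ (X.inv y :: u) := (tgt_inv y).symm
  rw [this, DD_iff h hg]
  exact ⟨u, ReflTransGen.refl⟩

theorem DD_of_good' {x : D} {u : List D} (hg : X.Good v₀ (x :: u)) :
    DD v₀ h (X.tgt x) (X.inv x) := by
  have := DD_of_good h (y := X.inv x) (u := u) (by rwa [X.inv_inv])
  exact this

/-- Two darts leading down. -/
theorem DD_two {v : V} {y y' : D} (hy : DD v₀ h v y) (hy' : DD v₀ h v y') :
    y = y' ∨ ∃ p q, X.cp y p y' q ∧ DD v₀ h (X.tgt y) p ∧ DD v₀ h (X.tgt y') q := by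
  obtain ⟨u, h1, h2, h3, h4, h5, h6⟩ := DD_spec h hy
  obtain ⟨u', h1', h2', h3', h4', h5', h6'⟩ := DD_spec h hy'
  rcases levi h.npc h1 ((E.symm h2).trans h2') with ⟨h7, -⟩ | ⟨u2, p, q, h8, h9, h10⟩
  · exact Or.inl (inv_inj h7)
  · right
    have hp : X.tgt p = X.tgt y := by rw [← h4, E.end_eq h9]; rfl
    have hq : X.tgt q = X.tgt y' := by rw [← h4', E.end_eq h10]; rfl
    refine ⟨X.inv p, X.inv q, ?_, ?_, ?_⟩
    · have := cp4 h8
      rwa [X.inv_inv, X.inv_inv] at this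
    · rw [← hp]
      exact DD_of_good' h (good_of_E h.npc h3 h9)
    · rw [← hq]
      exact DD_of_good' h (good_of_E h.npc h3' h10)

/-- The two kinds of darts. -/
theorem cases (d : D) :
    (DD v₀ h (X.src d) d ∧ lv v₀ h (X.src d) = lv v₀ h (X.tgt d) + 1) ∨
    (DD v₀ h (X.tgt d) (X.inv d) ∧ lv v₀ h (X.tgt d) = lv v₀ h (X.src d) + 1) := by
  obtain ⟨w', hw'⟩ := exists_act (X := X) (wd v₀ h (X.src d)) d
  have hg := wd_good v₀ h (X.src d)
  have hg' := hw'.good h.npc hg (wd_end v₀ h _).symm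
  have he' := hw'.end_eq h.npc hg
  have hlen : lv v₀ h (X.tgt d) = w'.length := by rw [← he', lv_good h hg']
  cases hw' with
  | down h1 =>
    left
    refine ⟨⟨w', h1⟩, ?_⟩
    rw [hlen]
    exact E.length h1
  | up h1 h2 =>
    right
    refine ⟨?_, ?_⟩
    · exact DD_of_good' h (good_of_E h.npc hg' h2)
    · rw [hlen, E.length h2]
      rfl

theorem DD_src {v : V} {y : D} (hy : DD v₀ h v y) : X.src y = v :=
  (DD_spec h hy).choose_spec.2.2.2.2.1

theorem DD_lv {v : V} {y : D} (hy : DD v₀ h v y) : lv v₀ h v = lv v₀ h (X.tgt y) + 1 :=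
  (DD_spec h hy).choose_spec.2.2.2.2.2

theorem DD_self {v : V} {y : D} (hy : DD v₀ h v y) : DD v₀ h (X.src y) y := by
  rw [DD_src h hy]
  exact hy

/-- A dart which does not lead down leads up. -/
theorem DD_of_lv {d : D} (hd : lv v₀ h (X.tgt d) < lv v₀ h (X.src d)) : DD v₀ h (X.src d) d := by
  rcases cases (v₀ := v₀) h d with ⟨h1, -⟩ | ⟨-, h1⟩
  · exact h1
  · omega

include h in
theorem no_loop (d : D) : X.src d ≠ X.tgt d := by
  obtain ⟨v₀⟩ := h.sc.1
  intro hd
  rcases cases (v₀ := v₀) h d with ⟨-, h1⟩ | ⟨-, h1⟩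
  · rw [hd] at h1
    omega
  · rw [hd] at h1
    omega

theorem DD_multi : ∀ (n : ℕ) (v : V), lv v₀ h v = n → ∀ d₁ d₂ : D, DD v₀ h v d₁ →
    DD v₀ h v d₂ → X.tgt d₁ = X.tgt d₂ → d₁ = d₂ := by
  intro n
  induction n using Nat.strong_induction_on with
  | _ n ih =>
    intro v hn d₁ d₂ h1 h2 ht
    rcases DD_two h h1 h2 with h3 | ⟨p, q, h3, h4, h5⟩
    · exact h3
    · exfalso
      have h6 := DD_lv h h1
      rw [← ht] at h5
      have h7 : p = q := ih _ (by omega) _ rfl p q h4 h5 (cp_tgt h3)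
      have h8 := L3 h3
      rw [h7] at h8
      exact h.npc.n0 _ h8

include h in
theorem no_multi (d₁ d₂ : D) (hs : X.src d₁ = X.src d₂) (ht : X.tgt d₁ = X.tgt d₂) :
    d₁ = d₂ := by
  obtain ⟨v₀⟩ := h.sc.1
  rcases cases (v₀ := v₀) h d₁ with ⟨h1, h1'⟩ | ⟨h1, h1'⟩
  · rcases cases (v₀ := v₀) h d₂ with ⟨h4, -⟩ | ⟨-, h4⟩
    · rw [← hs] at h4
      exact DD_multi h _ _ rfl _ _ h1 h4 ht
    · rw [← hs, ← ht] at h4
      omega
  · rcases cases (v₀ := v₀) h d₂ with ⟨-, h4⟩ | ⟨h4, -⟩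
    · rw [← hs, ← ht] at h4
      omega
    · rw [← ht] at h4
      exact inv_inj (DD_multi h _ _ rfl _ _ h1 h4 (by rw [tgt_inv, tgt_inv, hs]))

include h in
/-- Opposite vertices of a square are different. -/
theorem opp_ne {a b c d : D} (hc : X.cp a b c d) : X.src a ≠ X.tgt b := by
  intro hs
  have h1 : X.inv a = b := no_multi h _ _ (cp_mid hc) (by rw [tgt_inv]; exact hs)
  have h2 := L2 hc
  rw [h1] at h2
  exact h.npc.n0 _ h2

/-- The base point has level zero. -/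
theorem lv_eq_zero {v : V} (hv : lv v₀ h v = 0) : v = v₀ := by
  have h1 : wd v₀ h v = [] := List.eq_nil_of_length_eq_zero hv
  have h2 := wd_end v₀ h v
  rw [h1] at h2
  exact h2.symm

theorem exists_DD {v : V} (hv : v ≠ v₀) : ∃ y, DD v₀ h v y := by
  rcases hw : wd v₀ h v with _ | ⟨x, u⟩
  · exact (hv (lv_eq_zero h (by rw [lv, hw]; rfl))).elim
  · refine ⟨X.inv x, u, ?_⟩
    rw [hw, X.inv_inv]

end SC

end Pool.Agent.Helper9.SQ
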