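import Pool.Agent.Helper9.SQ.Span
import Pool.Agent.Helper9.SQ.Cpx

/-!
# Simply connected nonpositively curved square complexes without loops and double edges
-/

set_option autoImplicit false

namespace Pool.Agent.Helper9.SQ

open Relation

namespace SC

variable {V D : Type} {X : SC V D} (h : X.Had)

theorem sq_src2 {a b c d : D} (hs : X.sq a b c d) : X.tgt b = X.src c :=
  X.sq_src _ _ _ _ (X.sq_rot _ _ _ _ hs)

theorem sq_src3 {a b c d : D} (hs : X.sq a b c d) : X.tgt c = X.src d :=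
  sq_src2 (X.sq_rot _ _ _ _ hs)

theorem sq_src4 {a b c d : D} (hs : X.sq a b c d) : X.tgt d = X.src a :=
  sq_src3 (X.sq_rot _ _ _ _ hs)

/-- The square complex. -/
def toCpx (h : X.Had) : Sqx V where
  adj := X.Adj
  sq u v w x := ∃ a b c d, X.sq a b c d ∧ X.src a = u ∧ X.src b = v ∧ X.src c = w ∧ X.src d = x
  adj_symm := by
    rintro u v ⟨d, rfl, rfl⟩
    exact ⟨X.inv d, rfl, tgt_inv d⟩
  adj_irrefl := by
    rintro u ⟨d, hd, hd'⟩
    exact no_loop h d (hd.trans hd'.symm)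
  sq_rot := by
    rintro u v w x ⟨a, b, c, d, hs, rfl, rfl, rfl, rfl⟩
    exact ⟨b, c, d, a, X.sq_rot _ _ _ _ hs, rfl, rfl, rfl, rfl⟩
  sq_flip := by
    rintro u v w x ⟨a, b, c, d, hs, rfl, rfl, rfl, rfl⟩
    refine ⟨X.inv c, X.inv b, X.inv a, X.inv d, X.sq_rot _ _ _ _ (X.sq_inv _ _ _ _ hs),
      sq_src3 hs, sq_src2 hs, X.sq_src _ _ _ _ hs, sq_src4 hs⟩
  sq_adj := by
    rintro u v w x ⟨a, b, c, d, hs, rfl, rfl, rfl, rfl⟩
    exact ⟨a, rfl, X.sq_src _ _ _ _ hs⟩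
  sq_ne := by
    rintro u v w x ⟨a, b, c, d, hs, rfl, rfl, rfl, rfl⟩
    rw [← sq_src2 hs]
    exact opp_ne h (cp_of_sq hs)

theorem toCpx_simplyConn : (toCpx h).SimplyConn := by
  refine ⟨h.sc.1, h.sc.2.1, fun H _ c hc => ?_⟩
  obtain ⟨g, hg⟩ := h.sc.2.2 H (fun d => c (X.src d) (X.tgt d)) (fun d => by
    have := hc.1 (X.src d) (X.tgt d) ⟨d, rfl, rfl⟩
    have e1 : X.src (X.inv (X.inv d)) = X.src d := by rw [X.inv_inv]
    change c (X.src d) (X.tgt d) * c (X.tgt d) (X.src (X.inv (X.inv d))) = 1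
    rw [e1]
    exact this) (fun a b e f hs => by
    have := hc.2 (X.src a) (X.src b) (X.src e) (X.src f) ⟨a, b, e, f, hs, rfl, rfl, rfl, rfl⟩
    have e1 : X.tgt a = X.src b := X.sq_src _ _ _ _ hs
    change c (X.src a) (X.tgt a) * c (X.src b) (X.tgt b) * c (X.src e) (X.tgt e) *
      c (X.src f) (X.tgt f) = 1
    rw [e1, sq_src2 hs, sq_src3 hs, sq_src4 hs]
    exact this)
  refine ⟨g, ?_⟩
  rintro u v ⟨d, rfl, rfl⟩
  exact hg d

theorem toCpx_linkGirth : (toCpx h).LinkGirth := by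
  have key : ∀ {v a x b : V}, (toCpx h).sq v a x b → ∀ d e : D, X.src d = v → X.tgt d = a →
      X.src e = v → X.tgt e = b → ∃ p q, X.cp d p e q ∧ X.tgt p = x := by
    rintro v a x b ⟨a1, b1, c1, d1, hs, rfl, rfl, rfl, rfl⟩ d e h1 h2 h3 h4
    have e1 : d = a1 := no_multi h _ _ h1 (h2.trans (X.sq_src _ _ _ _ hs).symm)
    have e2 : e = X.inv d1 := no_multi h _ _ (h3.trans (sq_src4 hs).symm)
      (h4.trans (tgt_inv d1).symm)
    subst e1 e2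
    exact ⟨b1, X.inv c1, cp_of_sq hs, sq_src2 hs⟩
  have ed : ∀ {v a x b : V}, (toCpx h).sq v a x b → ∃ d e : D, X.src d = v ∧ X.tgt d = a ∧
      X.src e = v ∧ X.tgt e = b := by
    rintro v a x b ⟨a1, b1, c1, d1, hs, rfl, rfl, rfl, rfl⟩
    exact ⟨a1, X.inv d1, rfl, X.sq_src _ _ _ _ hs, sq_src4 hs, tgt_inv d1⟩
  refine ⟨fun v a b x y h1 h2 => ?_, fun v a b c x y z h1 h2 h3 => ?_⟩
  · obtain ⟨d, e, g1, g2, g3, g4⟩ := ed h1
    obtain ⟨p, q, h5, h6⟩ := key h1 d e g1 g2 g3 g4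
    obtain ⟨p', q', h7, h8⟩ := key h2 d e g1 g2 g3 g4
    rw [← h6, ← h8, (h.npc.n1 _ _ _ _ _ _ h5 h7).1]
  · obtain ⟨d, e, g1, g2, g3, g4⟩ := ed h1
    obtain ⟨f, f', k1, k2, k3, k4⟩ := ed h3
    obtain ⟨p, q, h5, -⟩ := key h1 d e g1 g2 g3 g4
    obtain ⟨p', q', h7, -⟩ := key h2 e f g3 g4 k1 k2
    obtain ⟨p2, q2, h9, -⟩ := key h3 f d k1 k2 g1 g2
    exact h.npc.n3 _ _ _ (L1 h5) (L1 h7) (L1 h9)

end SC

end Pool.Agent.Helper9.SQ
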