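import Pool.Agent.Helper9.SQ.Col

/-!
# The product of two trees
-/

set_option autoImplicit false

namespace Pool.Agent.Helper9.SQ

open Relation
open Pool.Agent.Helper3.FJ (Cpx)

variable {V W : Type} (X : Cpx V) (Y : Cpx W)

/-- The product of the graphs of `X` and `Y`. -/
def prd : Sqx (V × W) where
  adj p q := (X.adj p.1 q.1 ∧ p.2 = q.2) ∨ (p.1 = q.1 ∧ Y.adj p.2 q.2)
  sq p q r s := (X.adj p.1 q.1 ∧ Y.adj q.2 r.2 ∧ p.2 = q.2 ∧ q.1 = r.1 ∧ r.2 = s.2 ∧ s.1 = p.1) ∨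
    (Y.adj p.2 q.2 ∧ X.adj q.1 r.1 ∧ p.1 = q.1 ∧ q.2 = r.2 ∧ r.1 = s.1 ∧ s.2 = p.2)
  adj_symm := by
    rintro p q (⟨h1, h2⟩ | ⟨h1, h2⟩)
    · exact Or.inl ⟨X.adj_symm _ _ h1, h2.symm⟩
    · exact Or.inr ⟨h1.symm, Y.adj_symm _ _ h2⟩
  adj_irrefl := by
    rintro p (⟨h1, h2⟩ | ⟨h1, h2⟩)
    · exact X.adj_irrefl _ h1
    · exact Y.adj_irrefl _ h2
  sq_rot := by
    rintro ⟨p, p'⟩ ⟨q, q'⟩ ⟨r, r'⟩ ⟨s, s'⟩ (⟨h1, h2, h3, h4, h5, h6⟩ | ⟨h1, h2, h3, h4, h5, h6⟩)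
    · simp only at h1 h2 h3 h4 h5 h6
      subst h3 h4 h5 h6
      exact Or.inr ⟨h2, X.adj_symm _ _ h1, rfl, rfl, rfl, rfl⟩
    · simp only at h1 h2 h3 h4 h5 h6
      subst h3 h4 h5 h6
      exact Or.inl ⟨h2, Y.adj_symm _ _ h1, rfl, rfl, rfl, rfl⟩
  sq_flip := by
    rintro ⟨p, p'⟩ ⟨q, q'⟩ ⟨r, r'⟩ ⟨s, s'⟩ (⟨h1, h2, h3, h4, h5, h6⟩ | ⟨h1, h2, h3, h4, h5, h6⟩)
    · simp only at h1 h2 h3 h4 h5 h6
      subst h3 h4 h5 h6
      exact Or.inl ⟨h1, Y.adj_symm _ _ h2, rfl, rfl, rfl, rfl⟩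
    · simp only at h1 h2 h3 h4 h5 h6
      subst h3 h4 h5 h6
      exact Or.inr ⟨h1, X.adj_symm _ _ h2, rfl, rfl, rfl, rfl⟩
  sq_adj := by
    rintro p q r s (⟨h1, h2, h3, h4, h5, h6⟩ | ⟨h1, h2, h3, h4, h5, h6⟩)
    · exact Or.inl ⟨h1, h3⟩
    · exact Or.inr ⟨h3, h1⟩
  sq_ne := by
    rintro p q r s (⟨h1, h2, h3, h4, h5, h6⟩ | ⟨h1, h2, h3, h4, h5, h6⟩) rfl
    · rw [h4] at h1
      exact X.adj_irrefl _ h1
    · rw [h4] at h1
      exact Y.adj_irrefl _ h1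

theorem prd_linkGirth : (prd X Y).LinkGirth := by
  constructor
  · rintro ⟨v, v'⟩ ⟨a, a'⟩ ⟨b, b'⟩ ⟨x, x'⟩ ⟨y, y'⟩
      (⟨h1, h2, h3, h4, h5, h6⟩ | ⟨h1, h2, h3, h4, h5, h6⟩)
      (⟨g1, g2, g3, g4, g5, g6⟩ | ⟨g1, g2, g3, g4, g5, g6⟩) <;>
      simp only at h1 h2 h3 h4 h5 h6 g1 g2 g3 g4 g5 g6
    · rw [← h4, ← g4, h5, g5]
    · rw [g3] at h1
      exact (X.adj_irrefl _ h1).elim
    · rw [g3] at h1
      exact (Y.adj_irrefl _ h1).elim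
    · rw [← h4, ← g4, h5, g5]
  · rintro ⟨v, v'⟩ ⟨a, a'⟩ ⟨b, b'⟩ ⟨c, c'⟩ ⟨x, x'⟩ ⟨y, y'⟩ ⟨z, z'⟩ h k l
    -- the edges alternate
    have key : ∀ {v a x b : V × W}, (prd X Y).sq v a x b →
        (v.2 = a.2 ↔ ¬ v.2 = b.2) := by
      rintro ⟨v, v'⟩ ⟨a, a'⟩ ⟨x, x'⟩ ⟨b, b'⟩
        (⟨h1, h2, h3, h4, h5, h6⟩ | ⟨h1, h2, h3, h4, h5, h6⟩) <;>
        simp only at h1 h2 h3 h4 h5 h6 ⊢
      · refine ⟨fun _ h => ?_, fun _ => h3⟩
        rw [← h3, h, h5] at h2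
        exact Y.adj_irrefl _ h2
      · refine ⟨fun h => ?_, fun h => (h h6.symm).elim⟩
        rw [h] at h1
        exact (Y.adj_irrefl _ h1).elim
    have k1 := key h
    have k2 := key k
    have k3 := key l
    tauto

variable {X Y}

theorem prd_simplyConn (hX : X.SimplyConn) (hY : Y.SimplyConn) (hX2 : ∀ u v w, ¬ X.tri u v w)
    (hY2 : ∀ u v w, ¬ Y.tri u v w) : (prd X Y).SimplyConn := by
  obtain ⟨⟨x₀⟩, hXc, hXs⟩ := hX
  obtain ⟨⟨y₀⟩, hYc, hYs⟩ := hY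
  refine ⟨⟨(x₀, y₀)⟩, fun p q => ?_, fun H _ c hc => ?_⟩
  · have h1 : ReflTransGen (prd X Y).adj p (q.1, p.2) := by
      have := hXc p.1 q.1
      have key : ∀ x, ReflTransGen X.adj p.1 x → ReflTransGen (prd X Y).adj p (x, p.2) := by
        intro x hx
        induction hx with
        | refl => exact ReflTransGen.refl
        | tail _ h2 ih => exact ih.tail (Or.inl ⟨h2, rfl⟩)
      exact key _ this
    have h2 : ReflTransGen (prd X Y).adj (q.1, p.2) q := by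
      have := hYc p.2 q.2
      have key : ∀ y, ReflTransGen Y.adj p.2 y →
          ReflTransGen (prd X Y).adj (q.1, p.2) (q.1, y) := by
        intro y hy
        induction hy with
        | refl => exact ReflTransGen.refl
        | tail _ h2 ih => exact ih.tail (Or.inr ⟨rfl, h2⟩)
      exact key _ this
    exact h1.trans h2
  · -- horizontal and vertical potentials
    have hh : ∀ y : W, ∃ g : V → H, ∀ u v, X.adj u v → c (u, y) (v, y) = (g u)⁻¹ * g v := by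
      intro y
      exact hXs H (fun u v => c (u, y) (v, y)) ⟨fun u v h => hc.1 _ _ (Or.inl ⟨h, rfl⟩),
        fun u v w h => (hX2 _ _ _ h).elim⟩
    obtain ⟨k, hk⟩ := hYs H (fun u v => c (x₀, u) (x₀, v))
      ⟨fun u v h => hc.1 _ _ (Or.inr ⟨rfl, h⟩), fun u v w h => (hY2 _ _ _ h).elim⟩
    choose g hg using hh
    refine ⟨fun p => k p.2 * ((g p.2 x₀)⁻¹ * g p.2 p.1), ?_⟩
    -- vertical edges
    have hv : ∀ (y y' : W), Y.adj y y' → ∀ x, c (x, y) (x, y') =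
        (k y * ((g y x₀)⁻¹ * g y x))⁻¹ * (k y' * ((g y' x₀)⁻¹ * g y' x)) := by
      intro y y' hy x
      have := hXc x₀ x
      induction this with
      | refl =>
        rw [inv_mul_cancel, inv_mul_cancel, mul_one, mul_one]
        exact hk y y' hy
      | @tail a b _ h2 ih =>
        have e1 := hc.2 (a, y) (b, y) (b, y') (a, y')
          (Or.inl ⟨h2, hy, rfl, rfl, rfl, rfl⟩)
        have e2 := hc.1 (a, y') (a, y) (Or.inr ⟨rfl, Y.adj_symm _ _ hy⟩)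
        have e3 := hc.1 (b, y') (a, y') (Or.inl ⟨X.adj_symm _ _ h2, rfl⟩)
        have f1 := hg y a b h2
        have f2 := hg y' a b h2
        have e4 := eq_inv_of_mul_eq_one_left e2
        have e5 := eq_inv_of_mul_eq_one_left e3
        rw [e4, ih, e5, f1, f2] at e1
        have e6 := eq_inv_of_mul_eq_one_left e1
        rw [inv_inv] at e6
        have e7 : c (b, y) (b, y') = ((g y a)⁻¹ * g y b)⁻¹ *
            (((g y a)⁻¹ * g y b) * c (b, y) (b, y') * ((g y' a)⁻¹ * g y' b)⁻¹) *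
              ((g y' a)⁻¹ * g y' b) := by group
        rw [e7, e6]
        group
    rintro ⟨p, p'⟩ ⟨q, q'⟩ (⟨h1, h2⟩ | ⟨h1, h2⟩)
    · simp only at h1 h2
      subst h2
      rw [hg p' p q h1]
      group
    · simp only at h1 h2
      subst h1
      exact hv p' q' h2 p

variable {G : Type} [Group G] [MulAction G V] [MulAction G W]

theorem prd_acts (hX : ∀ (g : G) u v, X.adj u v → X.adj (g • u) (g • v))
    (hY : ∀ (g : G) u v, Y.adj u v → Y.adj (g • u) (g • v)) : (prd X Y).Acts G := by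
  constructor
  · rintro g p q (⟨h1, h2⟩ | ⟨h1, h2⟩)
    · exact Or.inl ⟨hX g _ _ h1, congrArg (g • ·) h2⟩
    · exact Or.inr ⟨congrArg (g • ·) h1, hY g _ _ h2⟩
  · rintro g p q r s (⟨h1, h2, h3, h4, h5, h6⟩ | ⟨h1, h2, h3, h4, h5, h6⟩)
    · exact Or.inl ⟨hX g _ _ h1, hY g _ _ h2, congrArg (g • ·) h3, congrArg (g • ·) h4,
        congrArg (g • ·) h5, congrArg (g • ·) h6⟩
    · exact Or.inr ⟨hY g _ _ h1, hX g _ _ h2, congrArg (g • ·) h3, congrArg (g • ·) h4,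
        congrArg (g • ·) h5, congrArg (g • ·) h6⟩

end Pool.Agent.Helper9.SQ
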