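import Pool.Agent.Helper9.SQ.NF5
import Pool.Agent.Helper9.SQ.Col

/-!
# Quotients of simply connected square complexes
-/

set_option autoImplicit false

namespace Pool.Agent.Helper9.SQ

open Relation

namespace Sqx

variable {V : Type} (X : Sqx V) (R : Type) [Group R] [MulAction R V]

/-- The oriented edges. -/
def Dt : Type := {p : V × V // X.adj p.1 p.2}

/-- Orbits of vertices. -/
def vS (V : Type) [MulAction R V] : Setoid V where
  r u v := ∃ g : R, g • u = v
  iseqv := by
    refine ⟨fun u => ⟨1, one_smul _ _⟩, ?_, ?_⟩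
    · rintro u v ⟨g, rfl⟩
      exact ⟨g⁻¹, inv_smul_smul _ _⟩
    · rintro u v w ⟨g, rfl⟩ ⟨g', rfl⟩
      exact ⟨g' * g, mul_smul _ _ _⟩

/-- Orbits of oriented edges. -/
def eS : Setoid X.Dt where
  r p q := ∃ g : R, g • p.1.1 = q.1.1 ∧ g • p.1.2 = q.1.2
  iseqv := by
    refine ⟨fun u => ⟨1, one_smul _ _, one_smul _ _⟩, ?_, ?_⟩
    · rintro p q ⟨g, h1, h2⟩
      exact ⟨g⁻¹, by rw [← h1, inv_smul_smul], by rw [← h2, inv_smul_smul]⟩
    · rintro p q s ⟨g, h1, h2⟩ ⟨g', h3, h4⟩
      exact ⟨g' * g, by rw [mul_smul, h1, h3], by rw [mul_smul, h2, h4]⟩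

/-- The vertices of the quotient. -/
def QV (V : Type) [MulAction R V] : Type := Quotient (vS R V)

/-- The darts of the quotient. -/
def QD : Type := Quotient (eS X R)

variable {R} in
/-- The image of a vertex. -/
def qv (v : V) : QV R V := Quotient.mk (vS R V) v

theorem qv_eq {u v : V} : (qv u : QV R V) = qv v ↔ ∃ g : R, g • u = v :=
  ⟨fun h => Quotient.exact h, fun h => Quotient.sound (s := vS R V) h⟩

variable {X R} in
/-- The image of an oriented edge. -/
def dt {x y : V} (h : X.adj x y) : QD X R := Quotient.mk (eS X R) ⟨(x, y), h⟩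

theorem dt_eq {x y x' y' : V} {h : X.adj x y} {h' : X.adj x' y'} :
    (dt h : QD X R) = dt h' ↔ ∃ g : R, g • x = x' ∧ g • y = y' :=
  ⟨fun h => Quotient.exact h, fun h => Quotient.sound (s := eS X R) h⟩

variable {X R} in
/-- `a` is the image of the edge from `x` to `y`. -/
def Is (a : QD X R) (x y : V) : Prop := ∃ h : X.adj x y, dt h = a

variable {X R}

theorem Is.adj {a : QD X R} {x y : V} (h : Is a x y) : X.adj x y := h.choose

theorem exists_is (a : QD X R) : ∃ x y, Is a x y := by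
  obtain ⟨⟨⟨x, y⟩, h⟩, rfl⟩ := Quotient.exists_rep a
  exact ⟨x, y, h, rfl⟩

theorem Is.smul (hA : X.Acts R) {a : QD X R} {x y : V} (h : Is a x y) (g : R) :
    Is a (g • x) (g • y) := by
  obtain ⟨h1, rfl⟩ := h
  refine ⟨hA.1 g _ _ h1, ?_⟩
  rw [dt_eq]
  exact ⟨g⁻¹, inv_smul_smul _ _, inv_smul_smul _ _⟩

theorem Is.trans {a : QD X R} {x y x' y' : V} (h : Is a x y) (h' : Is a x' y') :
    ∃ g : R, g • x = x' ∧ g • y = y' := by
  obtain ⟨h1, rfl⟩ := h
  obtain ⟨h2, h3⟩ := h'
  exact (dt_eq X R).1 h3.symm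

theorem Is.unique {a b : QD X R} {x y : V} (h : Is a x y) (h' : Is b x y) : a = b := by
  obtain ⟨h1, rfl⟩ := h
  obtain ⟨h2, rfl⟩ := h'
  rfl

theorem adj2 {x y z w : V} (h : X.sq x y z w) : X.adj y z :=
  X.sq_adj _ _ _ _ (X.sq_rot _ _ _ _ h)

theorem adj3 {x y z w : V} (h : X.sq x y z w) : X.adj z w := adj2 (X.sq_rot _ _ _ _ h)

theorem adj4 {x y z w : V} (h : X.sq x y z w) : X.adj w x := adj3 (X.sq_rot _ _ _ _ h)

/-- Reversing a square, with the same first vertex. -/
theorem sq_rev {x y z w : V} (h : X.sq x y z w) : X.sq x w z y :=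
  X.sq_rot _ _ _ _ (X.sq_rot _ _ _ _ (X.sq_rot _ _ _ _ (X.sq_flip _ _ _ _ h)))

variable (X R) in
/-- The quotient. -/
def quo : SC (QV R V) (QD X R) where
  src := Quotient.lift (s := eS X R) (fun p => qv p.1.1) (by
    rintro p q ⟨g, h1, h2⟩
    exact (qv_eq R).2 ⟨g, h1⟩)
  inv := Quotient.lift (s := eS X R) (fun p => dt (X.adj_symm _ _ p.2)) (by
    rintro p q ⟨g, h1, h2⟩
    exact (dt_eq X R).2 ⟨g, h2, h1⟩)
  sq a b c d := ∃ x y z w, X.sq x y z w ∧ Is a x y ∧ Is b y z ∧ Is c z w ∧ Is d w x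
  inv_inv := by
    intro d
    obtain ⟨p, rfl⟩ := Quotient.exists_rep d
    rfl
  sq_src := by
    rintro a b c d ⟨x, y, z, w, h, ⟨h1, rfl⟩, ⟨h2, rfl⟩, ⟨h3, rfl⟩, ⟨h4, rfl⟩⟩
    rfl
  sq_rot := by
    rintro a b c d ⟨x, y, z, w, h, h1, h2, h3, h4⟩
    exact ⟨y, z, w, x, X.sq_rot _ _ _ _ h, h2, h3, h4, h1⟩
  sq_inv := by
    rintro a b c d ⟨x, y, z, w, h, ⟨h1, rfl⟩, ⟨h2, rfl⟩, ⟨h3, rfl⟩, ⟨h4, rfl⟩⟩
    exact ⟨x, w, z, y, sq_rev h, ⟨X.adj_symm _ _ h4, rfl⟩, ⟨X.adj_symm _ _ h3, rfl⟩,
      ⟨X.adj_symm _ _ h2, rfl⟩, ⟨X.adj_symm _ _ h1, rfl⟩⟩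

theorem Is.src {a : QD X R} {x y : V} (h : Is a x y) : (quo X R).src a = qv x := by
  obtain ⟨h1, rfl⟩ := h
  rfl

theorem Is.inv {a : QD X R} {x y : V} (h : Is a x y) : Is ((quo X R).inv a) y x := by
  obtain ⟨h1, rfl⟩ := h
  exact ⟨X.adj_symm _ _ h1, rfl⟩

theorem Is.tgt {a : QD X R} {x y : V} (h : Is a x y) : (quo X R).tgt a = qv y := h.inv.src

/-- The quotient is simply connected. -/
theorem quo_simplyConn (hA : X.Acts R) (hX : X.SimplyConn)
    (hR : Subgroup.closure {r : R | ∃ x : V, r • x = x} = ⊤) : (quo X R).SimplyConn := by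
  obtain ⟨⟨v₀⟩, hconn, hsc⟩ := hX
  refine ⟨⟨qv v₀⟩, ?_, ?_⟩
  · intro u v
    obtain ⟨x, rfl⟩ := Quotient.exists_rep u
    obtain ⟨y, rfl⟩ := Quotient.exists_rep v
    have := hconn x y
    induction this with
    | refl => exact ReflTransGen.refl
    | tail _ h4 ih => exact ih.tail ⟨dt h4, rfl, rfl⟩
  · intro H _ c hc1 hc2
    classical
    let c' : V → V → H := fun x y => if h : X.adj x y then c (dt h) else 1
    have hc' : ∀ {x y : V} {a : QD X R}, Is a x y → c' x y = c a := by
      rintro x y a ⟨h, rfl⟩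
      exact dif_pos h
    have hcoc : X.Cocycle c' := by
      refine ⟨fun u v h => ?_, fun u v w x h => ?_⟩
      · have h1 : Is (dt h : QD X R) u v := ⟨h, rfl⟩
        rw [hc' h1, hc' h1.inv]
        exact hc1 _
      · have h1 : Is (dt (X.sq_adj _ _ _ _ h) : QD X R) u v := ⟨_, rfl⟩
        have h2 : Is (dt (adj2 h) : QD X R) v w := ⟨_, rfl⟩
        have h3 : Is (dt (adj3 h) : QD X R) w x := ⟨_, rfl⟩
        have h4 : Is (dt (adj4 h) : QD X R) x u := ⟨_, rfl⟩
        rw [hc' h1, hc' h2, hc' h3, hc' h4]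
        exact hc2 _ _ _ _ ⟨u, v, w, x, h, h1, h2, h3, h4⟩
    obtain ⟨g, hg⟩ := hsc H c' hcoc
    have inv : ∀ (r : R) (x y : V), g (r • x) * (g x)⁻¹ = g (r • y) * (g y)⁻¹ := by
      intro r x y
      have := hconn x y
      induction this with
      | refl => rfl
      | @tail b e _ h4 ih =>
        rw [ih]
        have h2 : Is (dt h4 : QD X R) b e := ⟨h4, rfl⟩
        have h3 := h2.smul hA r
        have e1 := hg _ _ h4
        have e2 := hg _ _ h3.adj
        rw [hc' h2] at e1
        rw [hc' h3, e1] at e2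
        have e3 : g e = g b * ((g b)⁻¹ * g e) := by group
        rw [e3, e2]
        group
    let S : Subgroup R :=
      { carrier := {r | ∀ x, g (r • x) = g x}
        one_mem' := fun x => by rw [one_smul]
        mul_mem' := fun {a b} ha hb x => by rw [mul_smul, ha, hb]
        inv_mem' := fun {a} ha x => by
          have := ha (a⁻¹ • x)
          rwa [smul_inv_smul, eq_comm] at this }
    have hS : S = ⊤ := by
      rw [eq_top_iff, ← hR, Subgroup.closure_le]
      rintro r ⟨x, hx⟩ y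
      have := inv r x y
      rw [hx, mul_inv_cancel, eq_comm, mul_inv_eq_one] at this
      exact this
    let g' : QV R V → H := Quotient.lift (s := vS R V) g (by
      rintro x y ⟨r, rfl⟩
      have : r ∈ S := by rw [hS]; trivial
      exact (this x).symm)
    refine ⟨g', fun d => ?_⟩
    obtain ⟨x, y, hd⟩ := exists_is d
    rw [hd.src, hd.tgt, ← hc' hd]
    exact hg _ _ hd.adj

variable (X) in
/-- The edges from `v` to `x` and `y` are sides of a square. -/
def Cor (v x y : V) : Prop := ∃ w, X.sq v x w y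

theorem Cor.symm {v x y : V} (h : X.Cor v x y) : X.Cor v y x := by
  obtain ⟨w, hw⟩ := h
  exact ⟨w, sq_rev hw⟩

theorem Cor.ne {v x y : V} (h : X.Cor v x y) : x ≠ y := by
  obtain ⟨w, hw⟩ := h
  exact X.sq_ne _ _ _ _ (X.sq_rot _ _ _ _ hw)

theorem Cor.smul (hA : X.Acts R) {v x y : V} (h : X.Cor v x y) (g : R) :
    X.Cor (g • v) (g • x) (g • y) := by
  obtain ⟨w, hw⟩ := h
  exact ⟨_, hA.2 g _ _ _ _ hw⟩

variable (R) in
/-- The edge between `x` and `y` is fixed by a nontrivial element. -/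
def Fx (x y : V) : Prop := ∃ r : R, r ≠ 1 ∧ r • x = x ∧ r • y = y

theorem Fx.symm {x y : V} (h : Fx R x y) : Fx R y x := by
  obtain ⟨r, h1, h2, h3⟩ := h
  exact ⟨r, h1, h3, h2⟩

theorem Fx.smul {x y : V} (h : Fx R x y) (g : R) : Fx R (g • x) (g • y) := by
  obtain ⟨r, h1, h2, h3⟩ := h
  refine ⟨g * r * g⁻¹, fun h4 => h1 ?_, ?_, ?_⟩
  · have : r = g⁻¹ * (g * r * g⁻¹) * g := by group
    rw [this, h4]
    group
  · rw [mul_smul, inv_smul_smul, mul_smul, h2]
  · rw [mul_smul, inv_smul_smul, mul_smul, h3]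

theorem Fx.of_smul {x y : V} {g : R} (h : Fx R (g • x) (g • y)) : Fx R x y := by
  have := h.smul g⁻¹
  rwa [inv_smul_smul, inv_smul_smul] at this

variable (X R) in
/-- The conditions on the action: edge stabilizers are trivial or equal to the stabilizers of both
ends, and the nontrivial elements of the vertex stabilizers move the vertices of the links which
they do not fix by more than 3. -/
structure Nice : Prop where
  acts : X.Acts R
  girth : X.LinkGirth
  rigid : ∀ x y, X.adj x y → Fx R x y → ∀ r : R, r • x = x → r • y = y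
  far : ∀ (v : V) (r : R), r • v = v → ∀ k ≤ 3, ∀ y : ℕ → V,
    (∀ i < k, X.Cor v (y i) (y (i + 1))) → (∀ i ≤ k, ¬ Fx R v (y i)) → y k = r • y 0 → r = 1

section nice

variable (hN : X.Nice R)
include hN

theorem lift_L {a b : QD X R} (h : (quo X R).L a b) {v y : V} (hy : Is a v y) :
    ∃ z, X.Cor v y z ∧ Is b v z := by
  obtain ⟨x, x', v', y', w', z', ht, h1, h2, h3, h4⟩ := h
  obtain ⟨g, hg1, hg2⟩ := h1.trans hy
  refine ⟨g • z', ?_, ?_⟩
  · rw [← hg1, ← hg2]
    exact ⟨_, hN.acts.2 g _ _ _ _ ht⟩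
  · have h5 := (h4.inv).smul hN.acts g
    rw [SC.inv_inv] at h5
    rw [← hg1]
    exact h5

/-- Closed walks in the links of the quotient lift to closed walks. -/
theorem closed (a : ℕ → QD X R) (k : ℕ) (hk : 0 < k) (hk5 : k ≤ 3) (ha : ∀ i, a (i + k) = a i)
    (hL : ∀ i, (quo X R).L (a i) (a (i + 1))) :
    ∃ (j : ℕ) (v : V) (z : ℕ → V), j < k ∧ (∀ i < k, X.Cor v (z i) (z (i + 1))) ∧ z k = z 0 ∧
      ∀ i < k, Is (a (j + i)) v (z i) := by
  obtain ⟨v, y₀, hy₀⟩ := exists_is (a 0)
  -- the lift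
  have hex : ∀ (i : ℕ) (y : {y : V // Is (a i) v y}), ∃ z : {z : V // Is (a (i + 1)) v z},
      X.Cor v y.1 z.1 := by
    intro i y
    obtain ⟨z, h1, h2⟩ := lift_L hN (hL i) y.2
    exact ⟨⟨z, h2⟩, h1⟩
  choose nx hnx using hex
  let Y : ∀ i : ℕ, {y : V // Is (a i) v y} := fun i => Nat.rec ⟨y₀, hy₀⟩ (fun i y => nx i y) i
  have hY : ∀ i, X.Cor v (Y i).1 (Y (i + 1)).1 := fun i => hnx i (Y i)
  set y : ℕ → V := fun i => (Y i).1 with hy
  have hy1 : ∀ i, X.Cor v (y i) (y (i + 1)) := hY
  have hy2 : ∀ i, Is (a i) v (y i) := fun i => (Y i).2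
  obtain ⟨r, hr, hr2⟩ : ∃ r : R, r • v = v ∧ r • y 0 = y k := by
    have h1 := hy2 k
    have h2 := ha 0
    rw [zero_add] at h2
    rw [h2] at h1
    exact (hy2 0).trans h1
  by_cases hf : ∀ i ≤ k, ¬ Fx R v (y i)
  · have h1 := hN.far v r hr k hk5 y (fun i _ => hy1 i) hf hr2.symm
    refine ⟨0, v, y, hk, fun i _ => hy1 i, ?_, fun i _ => ?_⟩
    · rw [← hr2, h1, one_smul]
    · rw [zero_add]
      exact hy2 i
  · push Not at hf
    obtain ⟨j, hj, hfj⟩ : ∃ j < k, Fx R v (y j) := by
      obtain ⟨j, hj, hfj⟩ := hf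
      rcases hj.lt_or_eq with h1 | h1
      · exact ⟨j, h1, hfj⟩
      · subst h1
        refine ⟨0, hk, Fx.of_smul (g := r) ?_⟩
        rw [hr, hr2]
        exact hfj
    have hrj : r • y j = y j := hN.rigid _ _ (hy2 j).adj hfj r hr
    refine ⟨j, v, fun i => if j + i < k then y (j + i) else r • y (j + i - k), hj,
      fun i hi => ?_, ?_, fun i hi => ?_⟩
    · by_cases h1 : j + (i + 1) < k
      · simp only [if_pos h1, if_pos (show j + i < k by omega)]
        exact hy1 _
      · by_cases h2 : j + i < k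
        · have e1 : j + (i + 1) - k = 0 := by omega
          have e2 : j + i + 1 = k := by omega
          simp only [if_neg h1, if_pos h2, e1, hr2]
          rw [← e2]
          exact hy1 _
        · simp only [if_neg h1, if_neg h2]
          have e1 : j + (i + 1) - k = (j + i - k) + 1 := by omega
          rw [e1]
          have := (hy1 (j + i - k)).smul hN.acts r
          rwa [hr] at this
    · have e1 : j + k - k = j := by omega
      simp only [add_zero, if_pos hj, if_neg (show ¬ j + k < k by omega), e1]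
      exact hrj
    · by_cases h1 : j + i < k
      · simp only [if_pos h1]
        exact hy2 _
      · simp only [if_neg h1]
        have e1 : j + i = (j + i - k) + k := by omega
        have h2 := (hy2 (j + i - k)).smul hN.acts r
        rw [hr, ← ha, ← e1] at h2
        exact h2

/-- The quotient is nonpositively curved. -/
theorem quo_npc : (quo X R).NPC := by
  refine ⟨?_, ?_, ?_⟩
  · rintro a ⟨b, d, v, y, w, z, ht, h1, h2, h3, h3'⟩
    have hcor : X.Cor v y z := ⟨w, ht⟩
    have h4 := h3'.inv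
    rw [SC.inv_inv] at h4
    obtain ⟨r, hr, hr2⟩ := h1.trans h4
    by_cases hf : Fx R v y
    · have := hN.rigid _ _ h1.adj hf r hr
      rw [hr2] at this
      exact hcor.ne this.symm
    · have h5 := hN.far v r hr 1 (by norm_num) (fun i => if i = 0 then y else z) (fun i hi => by
        interval_cases i
        simpa using hcor) (fun i hi => by
        interval_cases i
        · simpa using hf
        · simp only [one_ne_zero, if_false]
          intro h6
          refine hf (Fx.of_smul (g := r) ?_)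
          rw [hr, hr2]
          exact h6) (by simp [hr2])
      rw [h5, one_smul] at hr2
      exact hcor.ne hr2
  · rintro a b c d b' d' ⟨v, p, s, q, ht, h1, h2, h3, h4⟩ ⟨v', p', s', q', ht', h1', h2', h3', h4'⟩
    obtain ⟨g, hg1, hg2⟩ := h1'.trans h1
    have ht2 := hN.acts.2 g _ _ _ _ ht'
    have h2g := h2'.smul hN.acts g
    have h3g := h3'.smul hN.acts g
    have h4g := h4'.smul hN.acts g
    rw [hg1, hg2] at ht2
    rw [hg2] at h2g
    rw [hg1] at h4g
    obtain ⟨r, hr2, hr⟩ := h4.trans h4g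
    -- the two squares agree if they have the same corner
    have key : ∀ {s q s' q' : V}, X.sq v p s q → X.sq v p s' q' → q = q' → Is b p s →
        Is ((quo X R).inv d) s q → Is b' p s' → Is ((quo X R).inv d') s' q' →
          b = b' ∧ d = d' := by
      intro s q s' q' k1 k2 k3 k4 k5 k6 k7
      subst k3
      have k8 := hN.girth.two _ _ _ _ _ k1 k2
      subst k8
      exact ⟨k4.unique k6, SC.inv_inj (k5.unique k7)⟩
    by_cases hp : Fx R v p
    · have hrp := hN.rigid _ _ h1.adj hp r hr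
      have h5 := hN.acts.2 r _ _ _ _ ht
      have h6 := h2.smul hN.acts r
      have h7 := h3.smul hN.acts r
      rw [hr, hrp] at h5
      rw [hrp] at h6
      exact key h5 ht2 hr2 h6 h7 h2g h3g
    by_cases hq : Fx R v q
    · have hrq := hN.rigid _ _ (X.adj_symm _ _ h4.adj) hq r hr
      exact key ht ht2 (hrq.symm.trans hr2) h2 h3 h2g h3g
    · have hc1 : X.Cor v q p := (show X.Cor v p q from ⟨_, ht⟩).symm
      have hc2 : X.Cor v p (g • q') := ⟨_, ht2⟩
      have h5 := hN.far v r hr 2 (by norm_num)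
        (fun i => if i = 0 then q else if i = 1 then p else g • q') (fun i hi => by
          interval_cases i
          · simpa using hc1
          · simpa using hc2) (fun i hi => by
          interval_cases i
          · simpa using hq
          · simpa using hp
          · simp only [OfNat.ofNat_ne_zero, if_false, OfNat.ofNat_ne_one]
            intro h6
            refine hq (Fx.of_smul (g := r) ?_)
            rw [hr, hr2]
            exact h6) (by simp [hr2])
      rw [h5, one_smul] at hr2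
      exact key ht ht2 hr2 h2 h3 h2g h3g
  · intro a b c h1 h2 h3
    obtain ⟨j, v, z, hj, hz1, hz2, hz3⟩ := closed hN
      (fun i => if i % 3 = 0 then a else if i % 3 = 1 then b else c) 3 (by norm_num) (by norm_num)
      (fun i => by simp) (fun i => by
        have : i % 3 = 0 ∨ i % 3 = 1 ∨ i % 3 = 2 := by omega
        rcases this with h | h | h
        · simpa [h, Nat.add_mod] using h1
        · simpa [h, Nat.add_mod] using h2
        · simpa [h, Nat.add_mod] using h3)
    obtain ⟨w0, e0⟩ := hz1 0 (by norm_num)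
    obtain ⟨w1, e1⟩ := hz1 1 (by norm_num)
    obtain ⟨w2, e2⟩ := hz1 2 (by norm_num)
    rw [show (2 + 1 : ℕ) = 3 from rfl, hz2] at e2
    exact hN.girth.three _ _ _ _ _ _ _ e0 e1 e2

/-- The quotient, provided that the group is generated by elements with fixed vertices. -/
theorem quo_had (hX : X.SimplyConn) (hR : Subgroup.closure {r : R | ∃ x : V, r • x = x} = ⊤) :
    (quo X R).Had :=
  ⟨quo_npc hN, quo_simplyConn hN.acts hX hR⟩

end nice

end Sqx

end Pool.Agent.Helper9.SQ
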