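import Pool.Agent.Helper9.SQ.NF4

/-!
# A spanning tree adapted to a set of fixed edges, and the designated squares
-/

set_option autoImplicit false

namespace Pool.Agent.Helper9.SQ

open Relation

namespace SC

variable {V D : Type} {X : SC V D} {v₀ : V} (h : X.Had)

/-- The conditions on the set of fixed darts. -/
structure Fix (X : SC V D) (F : D → Prop) : Prop where
  inv : ∀ d, F d → F (X.inv d)
  two : ∀ a b c d, X.cp a b c d → F a → F c → F b

variable {F : D → Prop} (hF : Fix X F)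

open Classical in
variable (v₀ F) in
/-- A dart leading down, fixed if possible. -/
noncomputable def pick (v : V) (h3 : ∃ y, DD v₀ h v y) : D :=
  if h2 : ∃ y, DD v₀ h v y ∧ F y then h2.choose else h3.choose

theorem pick_DD (v : V) (h3 : ∃ y, DD v₀ h v y) : DD v₀ h v (pick v₀ h F v h3) := by
  unfold pick
  split_ifs with h2
  · exact h2.choose_spec.1
  · exact h3.choose_spec

theorem pick_F (v : V) (h3 : ∃ y, DD v₀ h v y) {y : D} (hy : DD v₀ h v y) (hFy : F y) :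
    F (pick v₀ h F v h3) := by
  have h2 : ∃ y, DD v₀ h v y ∧ F y := ⟨y, hy, hFy⟩
  rw [pick, dif_pos h2]
  exact h2.choose_spec.2

variable (v₀ F) in
/-- `d` is the parent dart of its source. -/
def Pa (d : D) : Prop := ∃ h3 : ∃ y, DD v₀ h (X.src d) y, d = pick v₀ h F (X.src d) h3

variable (v₀ F) in
/-- The edges of the spanning tree. -/
def Tr (d : D) : Prop := Pa v₀ h F d ∨ Pa v₀ h F (X.inv d)

variable (v₀) in
/-- The keys. -/
noncomputable def key (d : D) : ℕ := max (lv v₀ h (X.src d)) (lv v₀ h (X.tgt d))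

variable (v₀ F) in
/-- Designated squares. -/
def Ds0 (d a b c : D) : Prop :=
  DD v₀ h (X.src d) d ∧ Pa v₀ h F (X.inv c) ∧ X.sq d a b c

variable (v₀ F) in
/-- Designated squares. -/
def Ds (d a b c : D) : Prop :=
  Ds0 v₀ h F d a b c ∨ Ds0 v₀ h F (X.inv d) (X.inv c) (X.inv b) (X.inv a)

variable {h}

theorem Pa.unique {d d' : D} (hd : Pa v₀ h F d) (hd' : Pa v₀ h F d')
    (hs : X.src d = X.src d') : d = d' := by
  obtain ⟨h3, hd2⟩ := hd
  obtain ⟨h3', hd2'⟩ := hd'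
  rw [hd2, hd2']
  have : ∀ (v v' : V) (h3 : ∃ y, DD v₀ h v y) (h3' : ∃ y, DD v₀ h v' y), v = v' →
      pick v₀ h F v h3 = pick v₀ h F v' h3' := by
    rintro v v' h3 h3' rfl
    rfl
  exact this _ _ _ _ hs

theorem Pa.dd {d : D} (hd : Pa v₀ h F d) : DD v₀ h (X.src d) d := by
  obtain ⟨h3, hd2⟩ := hd
  have := pick_DD (F := F) h (X.src d) h3
  rwa [← hd2] at this

theorem Pa.fix {d y : D} (hd : Pa v₀ h F d) (hy : DD v₀ h (X.src d) y) (hFy : F y) : F d := by
  obtain ⟨h3, hd2⟩ := hd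
  rw [hd2]
  exact pick_F h _ h3 hy hFy

theorem exists_Pa {v : V} (h3 : ∃ y, DD v₀ h v y) : ∃ d, Pa v₀ h F d ∧ X.src d = v := by
  have hs : X.src (pick v₀ h F v h3) = v := DD_src h (pick_DD h v h3)
  refine ⟨pick v₀ h F v h3, ⟨?_, ?_⟩, hs⟩
  · rw [hs]
    exact h3
  · have : ∀ (v' : V) (h3' : ∃ y, DD v₀ h v' y), v = v' →
        pick v₀ h F v h3 = pick v₀ h F v' h3' := by
      rintro v' h3' rfl
      rfl
    exact this _ _ hs.symm

theorem Tr.inv {d : D} (hd : Tr v₀ h F d) : Tr v₀ h F (X.inv d) := by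
  rcases hd with hd | hd
  · exact Or.inr (by rw [X.inv_inv]; exact hd)
  · exact Or.inl hd

theorem Tr.of_inv {d : D} (hd : Tr v₀ h F (X.inv d)) : Tr v₀ h F d := by
  have := Tr.inv hd
  rwa [X.inv_inv] at this

theorem DD_inv_no {d : D} (h1 : DD v₀ h (X.src d) d) (h2 : DD v₀ h (X.tgt d) (X.inv d)) :
    False := by
  have h3 := DD_lv h h1
  have h4 := DD_lv h h2
  rw [tgt_inv] at h4
  omega

theorem Tr.pa {y : D} (hT : Tr v₀ h F y) (hy : DD v₀ h (X.src y) y) : Pa v₀ h F y := by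
  rcases hT with h1 | h1
  · exact h1
  · exact (DD_inv_no hy h1.dd).elim

theorem key_inv (d : D) : key v₀ h (X.inv d) = key v₀ h d := by
  unfold key
  rw [tgt_inv]
  exact max_comm _ _

theorem key_dn {d : D} (hd : DD v₀ h (X.src d) d) : key v₀ h d = lv v₀ h (X.src d) := by
  have := DD_lv h hd
  exact max_eq_left (by omega)

theorem Ds.inv {d a b c : D} (hd : Ds v₀ h F d a b c) :
    Ds v₀ h F (X.inv d) (X.inv c) (X.inv b) (X.inv a) := by
  rcases hd with hd | hd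
  · exact Or.inr (by rw [X.inv_inv, X.inv_inv, X.inv_inv, X.inv_inv]; exact hd)
  · exact Or.inl hd

theorem sq_flip {d a b c : D} (ht : X.sq (X.inv d) (X.inv c) (X.inv b) (X.inv a)) :
    X.sq d a b c := by
  have := X.sq_inv _ _ _ _ ht
  rw [X.inv_inv, X.inv_inv, X.inv_inv, X.inv_inv] at this
  exact X.sq_rot _ _ _ _ (X.sq_rot _ _ _ _ (X.sq_rot _ _ _ _ this))

theorem Ds.sq {d a b c : D} (hd : Ds v₀ h F d a b c) : X.sq d a b c := by
  rcases hd with hd | hd
  · exact hd.2.2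
  · exact sq_flip hd.2.2

theorem cp_of_sq {d a b c : D} (hs : X.sq d a b c) : X.cp d a (X.inv c) (X.inv b) := by
  rw [cp, X.inv_inv, X.inv_inv]
  exact hs

/-- The other sides lead down. -/
theorem Ds0.down {d a b c : D} (hd : Ds0 v₀ h F d a b c) : DD v₀ h (X.tgt d) a ∧
    DD v₀ h (X.src c) (X.inv b) := by
  obtain ⟨h1, h2, h3⟩ := hd
  have hc := cp_of_sq h3
  have h4 : DD v₀ h (X.src d) (X.inv c) := by
    have := h2.dd
    rwa [← cp_src hc] at this
  rcases DD_two h h1 h4 with h5 | ⟨p, q, h5, h6, h7⟩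
  · have h6 := L1 hc
    rw [h5] at h6
    exact (h.npc.n0 _ h6).elim
  · obtain ⟨e1, e2⟩ := h.npc.n1 _ _ _ _ _ _ hc h5
    rw [← e1] at h6
    rw [← e2, tgt_inv] at h7
    exact ⟨h6, h7⟩

theorem Ds0.not {d a b c : D} (hd : Ds0 v₀ h F d a b c) : ¬ Tr v₀ h F d := by
  obtain ⟨h1, h2, h3⟩ := hd
  have hc := cp_of_sq h3
  intro hT
  have h6 := (hT.pa h1).unique h2 (cp_src hc)
  have h7 := L1 hc
  rw [← h6] at h7
  exact h.npc.n0 _ h7

theorem Ds.not {d a b c : D} (hd : Ds v₀ h F d a b c) : ¬ Tr v₀ h F d := by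
  rcases hd with hd | hd
  · exact hd.not
  · exact fun hT => hd.not hT.inv

theorem Ds0.keys {d a b c : D} (hd : Ds0 v₀ h F d a b c) : key v₀ h a < key v₀ h d ∧
    key v₀ h b < key v₀ h d ∧ Tr v₀ h F c := by
  obtain ⟨h4, h5⟩ := hd.down
  obtain ⟨h1, h2, h3⟩ := hd
  have hc := cp_of_sq h3
  have e1 := DD_lv h h1
  have e2 : lv v₀ h (X.src d) = lv v₀ h (X.src c) + 1 := by
    have := DD_lv h h2.dd
    rw [← cp_src hc, tgt_inv] at this
    exact this
  have s4 := DD_src h h4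
  have s5 := DD_src h h5
  refine ⟨?_, ?_, Or.inr h2⟩
  · rw [key_dn h1, key_dn (DD_self h h4), s4]
    omega
  · rw [key_dn h1, ← key_inv b, key_dn (DD_self h h5), s5]
    omega

theorem Ds.keys {d a b c : D} (hd : Ds v₀ h F d a b c) :
    (Tr v₀ h F a ∨ key v₀ h a < key v₀ h d) ∧ key v₀ h b < key v₀ h d ∧
      (Tr v₀ h F c ∨ key v₀ h c < key v₀ h d) := by
  rcases hd with hd | hd
  · obtain ⟨h1, h2, h3⟩ := hd.keys
    exact ⟨Or.inr h1, h2, Or.inl h3⟩
  · obtain ⟨h1, h2, h3⟩ := hd.keys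
    rw [key_inv, key_inv] at h1 h2
    exact ⟨Or.inl h3.of_inv, h2, Or.inr h1⟩

include hF in
theorem Ds0.fix {d a b c : D} (hd : Ds0 v₀ h F d a b c) (hFd : F d) : F a ∧ F c := by
  obtain ⟨h1, h2, h3⟩ := hd
  have hc := cp_of_sq h3
  have h4 : F (X.inv c) := h2.fix (y := d) (by rw [← cp_src hc]; exact h1) hFd
  refine ⟨hF.two _ _ _ _ hc hFd h4, ?_⟩
  have := hF.inv _ h4
  rwa [X.inv_inv] at this

include hF in
theorem Ds.fix {d a b c : D} (hd : Ds v₀ h F d a b c) (hFd : F d) : F a ∧ F c := by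
  rcases hd with hd | hd
  · exact hd.fix hF hFd
  · obtain ⟨h1, h2⟩ := hd.fix hF (hF.inv _ hFd)
    have h3 := hF.inv _ h1
    have h4 := hF.inv _ h2
    rw [X.inv_inv] at h3 h4
    exact ⟨h4, h3⟩

theorem exists_Ds0 {d : D} (h1 : DD v₀ h (X.src d) d) (hT : ¬ Tr v₀ h F d) :
    ∃ a b c, Ds0 v₀ h F d a b c := by
  obtain ⟨x, hx, hxs⟩ := exists_Pa (F := F) ⟨d, h1⟩
  have h2 : DD v₀ h (X.src d) x := by
    have := hx.dd
    rwa [hxs] at this
  rcases DD_two h h1 h2 with h3 | ⟨p, q, h3, -⟩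
  · exact (hT (Or.inl (h3 ▸ hx))).elim
  · exact ⟨p, X.inv q, X.inv x, h1, by rw [X.inv_inv]; exact hx, h3⟩

theorem exists_Ds {d : D} (hT : ¬ Tr v₀ h F d) : ∃ a b c, Ds v₀ h F d a b c := by
  rcases cases (v₀ := v₀) h d with ⟨h1, -⟩ | ⟨h1, -⟩
  · obtain ⟨a, b, c, hab⟩ := exists_Ds0 h1 hT
    exact ⟨a, b, c, Or.inl hab⟩
  · obtain ⟨a, b, c, hab⟩ := exists_Ds0 h1 (fun h2 => hT h2.of_inv)
    exact ⟨X.inv c, X.inv b, X.inv a,
      Or.inr (by rw [X.inv_inv, X.inv_inv, X.inv_inv]; exact hab)⟩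

theorem Ds0.unique {d a b c a' b' c' : D} (hd : Ds0 v₀ h F d a b c)
    (hd' : Ds0 v₀ h F d a' b' c') : a = a' ∧ b = b' ∧ c = c' := by
  obtain ⟨h1, h2, h3⟩ := hd
  obtain ⟨h1', h2', h3'⟩ := hd'
  have hc := cp_of_sq h3
  have hc' := cp_of_sq h3'
  have e1 := h2.unique h2' ((cp_src hc).symm.trans (cp_src hc'))
  rw [← e1] at hc'
  obtain ⟨e2, e3⟩ := h.npc.n1 _ _ _ _ _ _ hc hc'
  exact ⟨e2, inv_inj e3, inv_inj e1⟩

theorem Ds.to0 {d a b c : D} (hd : Ds v₀ h F d a b c) (h1 : DD v₀ h (X.src d) d) :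
    Ds0 v₀ h F d a b c := by
  rcases hd with hd | hd
  · exact hd
  · exact (DD_inv_no h1 hd.1).elim

theorem Ds.unique {d a b c a' b' c' : D} (hd : Ds v₀ h F d a b c)
    (hd' : Ds v₀ h F d a' b' c') : a = a' ∧ b = b' ∧ c = c' := by
  rcases cases (v₀ := v₀) h d with ⟨h1, -⟩ | ⟨h1, -⟩
  · exact (hd.to0 h1).unique (hd'.to0 h1)
  · obtain ⟨e1, e2, e3⟩ := (hd.inv.to0 h1).unique (hd'.inv.to0 h1)
    exact ⟨inv_inj e3, inv_inj e2, inv_inj e1⟩

/-- Two darts leading down. -/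
theorem al_dd {a b c d : D} (h1 : DD v₀ h (X.src a) a) (h2 : DD v₀ h (X.src a) (X.inv d))
    (hs : X.sq a b c d) : Ds v₀ h F a b c d ∨ Ds v₀ h F d a b c := by
  have hc := cp_of_sq hs
  obtain ⟨x, hx, hxs⟩ := exists_Pa (F := F) ⟨a, h1⟩
  have h3 : DD v₀ h (X.src a) x := by
    have := hx.dd
    rwa [hxs] at this
  rcases DD_two h h3 h1 with h4 | ⟨p, q, h4, -⟩
  · subst h4
    refine Or.inr (Or.inr ⟨?_, by rw [X.inv_inv]; exact hx, ?_⟩)
    · rw [← cp_src hc]
      exact h2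
    · exact X.sq_inv _ _ _ _ hs
  · rcases DD_two h h3 h2 with h5 | ⟨p', q', h5, -⟩
    · subst h5
      exact Or.inl (Or.inl ⟨h1, hx, hs⟩)
    · exact (h.npc.n3 _ _ _ (L1 h4) (L1 hc) (L_symm (L1 h5))).elim

/-- Every square is designated by one of its sides. -/
theorem al {a b c d : D} (hs : X.sq a b c d) : Ds v₀ h F a b c d ∨ Ds v₀ h F b c d a ∨
    Ds v₀ h F c d a b ∨ Ds v₀ h F d a b c := by
  have hs2 := X.sq_rot _ _ _ _ hs
  have hs3 := X.sq_rot _ _ _ _ hs2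
  have hs4 := X.sq_rot _ _ _ _ hs3
  have t1 := X.sq_src _ _ _ _ hs
  have t2 := X.sq_src _ _ _ _ hs2
  have t3 := X.sq_src _ _ _ _ hs3
  have t4 := X.sq_src _ _ _ _ hs4
  -- the vertex of the highest level
  have key : ∀ {a b c d : D}, X.sq a b c d → lv v₀ h (X.tgt a) < lv v₀ h (X.src a) →
      lv v₀ h (X.src d) < lv v₀ h (X.src a) → Ds v₀ h F a b c d ∨ Ds v₀ h F d a b c := by
    intro a b c d hs h1 h2
    have hc := cp_of_sq hs
    refine al_dd (DD_of_lv h h1) ?_ hs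
    have h3 : DD v₀ h (X.src (X.inv d)) (X.inv d) :=
      DD_of_lv h (by rw [tgt_inv, ← cp_src hc]; exact h2)
    rwa [← cp_src hc] at h3
  have c1 := cases (v₀ := v₀) h a
  have c2 := cases (v₀ := v₀) h b
  have c3 := cases (v₀ := v₀) h c
  have c4 := cases (v₀ := v₀) h d
  change X.tgt a = X.src b at t1
  change X.tgt b = X.src c at t2
  change X.tgt c = X.src d at t3
  change X.tgt d = X.src a at t4
  rw [t1] at c1
  rw [t2] at c2
  rw [t3] at c3
  rw [t4] at c4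
  rcases c1 with ⟨-, c1⟩ | ⟨-, c1⟩
  · rcases c4 with ⟨-, c4⟩ | ⟨-, c4⟩
    · -- `d` leads down to the source of `a`
      rcases c3 with ⟨-, c3⟩ | ⟨-, c3⟩
      · rcases c2 with ⟨-, c2⟩ | ⟨-, c2⟩
        · omega
        · rcases key hs3 (by rw [t3]; omega) (by omega) with h1 | h1
          · exact Or.inr (Or.inr (Or.inl h1))
          · exact Or.inr (Or.inl h1)
      · rcases key hs4 (by rw [t4]; omega) (by omega) with h1 | h1
        · exact Or.inr (Or.inr (Or.inr h1))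
        · exact Or.inr (Or.inr (Or.inl h1))
    · rcases key hs (by rw [t1]; omega) (by omega) with h1 | h1
      · exact Or.inl h1
      · exact Or.inr (Or.inr (Or.inr h1))
  · rcases c2 with ⟨-, c2⟩ | ⟨-, c2⟩
    · rcases key hs2 (by rw [t2]; omega) (by omega) with h1 | h1
      · exact Or.inr (Or.inl h1)
      · exact Or.inl h1
    · rcases c3 with ⟨-, c3⟩ | ⟨-, c3⟩
      · rcases key hs3 (by rw [t3]; omega) (by omega) with h1 | h1
        · exact Or.inr (Or.inr (Or.inl h1))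
        · exact Or.inr (Or.inl h1)
      · rcases c4 with ⟨-, c4⟩ | ⟨-, c4⟩
        · rcases key hs4 (by rw [t4]; omega) (by omega) with h1 | h1
          · exact Or.inr (Or.inr (Or.inr h1))
          · exact Or.inr (Or.inr (Or.inl h1))
        · omega

/-- The properties of the spanning tree and of the designated squares. -/
structure Spn (X : SC V D) (F T : D → Prop) (K : D → D → Prop) (E : D → D → D → D → Prop) :
    Prop where
  wf : WellFounded K
  T_inv : ∀ d, T d → T (X.inv d)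
  inv : ∀ d a b c, E d a b c → E (X.inv d) (X.inv c) (X.inv b) (X.inv a)
  sq : ∀ d a b c, E d a b c → X.sq d a b c
  not : ∀ d a b c, E d a b c → ¬ T d
  left : ∀ d a b c, E d a b c → T a ∨ K a d
  mid : ∀ d a b c, E d a b c → T b ∨ K b d
  right : ∀ d a b c, E d a b c → T c ∨ K c d
  fix : ∀ d a b c, E d a b c → F d → F a ∧ F c
  ex : ∀ d, ¬ T d → ∃ a b c, E d a b c
  un : ∀ d a b c a' b' c', E d a b c → E d a' b' c' → a = a' ∧ b = b' ∧ c = c'
  all : ∀ a b c d, X.sq a b c d → E a b c d ∨ E b c d a ∨ E c d a b ∨ E d a b c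

include h hF in
theorem exists_span : ∃ T K E, Spn X F T K E := by
  obtain ⟨v₀⟩ := h.sc.1
  exact ⟨Tr v₀ h F, fun d d' => key v₀ h d < key v₀ h d', Ds v₀ h F,
    InvImage.wf (key v₀ h) wellFounded_lt, fun d hd => hd.inv,
    fun d a b c hd => hd.inv, fun d a b c hd => hd.sq, fun d a b c hd => hd.not,
    fun d a b c hd => hd.keys.1, fun d a b c hd => Or.inr hd.keys.2.1,
    fun d a b c hd => hd.keys.2.2, fun d a b c hd hFd => hd.fix hF hFd,
    fun d hd => exists_Ds hd, fun d a b c a' b' c' hd hd' => hd.unique hd',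
    fun a b c d hs => al hs⟩

include h in
theorem inv_ne (d : D) : X.inv d ≠ d := fun hd =>
  no_loop h d (by
    have : X.src (X.inv d) = X.src d := by rw [hd]
    exact this.symm)

end SC

end Pool.Agent.Helper9.SQ
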