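import Pool.Agent.Helper9.SQ.Quo

/-!
# Groups generated by elements with fixed points
-/

set_option autoImplicit false

namespace Pool.Agent.Helper9.SQ

open Relation Pool.Agent.Helper29.BA Pool.Agent.Helper29.PA

namespace Sqx

variable {V : Type} {X : Sqx V} {R : Type} [Group R] [MulAction R V] (hN : X.Nice R)

variable (X R) in
/-- The fixed darts of the quotient. -/
def FD (d : QD X R) : Prop := ∃ x y, Is d x y ∧ Fx R x y

omit hN in
theorem FD.fx {d : QD X R} (h : FD X R d) {x y : V} (hd : Is d x y) : Fx R x y := by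
  obtain ⟨x', y', h1, h2⟩ := h
  obtain ⟨g, rfl, rfl⟩ := h1.trans hd
  exact h2.smul g

include hN in
theorem fix_FD : (quo X R).Fix (FD X R) := by
  refine ⟨?_, ?_⟩
  · rintro d ⟨x, y, h1, h2⟩
    exact ⟨y, x, h1.inv, h2.symm⟩
  · rintro a b c d ⟨v, p, s, q, ht, h1, h2, h3, h4⟩ ha hc
    have h4' := h4.inv
    rw [SC.inv_inv] at h4'
    obtain ⟨r, hr1, hr2, hr3⟩ := ha.fx h1
    have hq := hN.rigid _ _ h4'.adj (hc.fx h4') r hr2
    refine ⟨p, s, h2, r, hr1, hr3, ?_⟩
    have h5 := hN.acts.2 r _ _ _ _ ht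
    rw [hr2, hr3, hq] at h5
    exact hN.girth.two _ _ _ _ _ h5 ht

include hN in
/-- A group generated by elements with fixed vertices is in the class. -/
theorem gen_mem {C : ∀ (G : Type) [Group G], Prop} (hC : ExtClass C) (hX : X.SimplyConn)
    (hR : Subgroup.closure {r : R | ∃ x : V, r • x = x} = ⊤) {Q : Type} [Group Q] (f : R →* Q)
    (hQ : C Q) (hf : ∀ (v : V) (r : R), r • v = v → f r = 1 → r = 1) : C R := by
  have hh := quo_had hN hX hR
  obtain ⟨T, K, E, hS⟩ := SC.exists_span (h := hh) (fix_FD hN)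
  have hsc : (X.gr (fun x y => ∃ d : QD X R, Is d x y ∧ T d)
      (fun x y ⟨d, h1, h2⟩ => ⟨_, h1.inv, hS.T_inv _ h2⟩)
      (fun x y ⟨d, h1, h2⟩ => h1.adj)).SimplyConn := by
    refine collapse hX _ (fun p q => ∃ d e : QD X R, Is d p.1 p.2 ∧ Is e q.1 q.2 ∧ K d e)
      (fun x y z w => X.sq x y z w ∧ ∃ d a b c : QD X R, Is d x y ∧ Is a y z ∧ Is b z w ∧
        Is c w x ∧ E d a b c)
      ?_ _ _ ?_ ?_ ?_ ?_ ?_ ?_ ?_ ?_ ?_
    · refine ⟨fun p => ?_⟩
      by_cases hp : ∃ d : QD X R, Is d p.1 p.2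
      · obtain ⟨d, hd⟩ := hp
        have key : ∀ d : QD X R, Acc K d → ∀ p : V × V, Is d p.1 p.2 →
            Acc (fun p q : V × V => ∃ d e : QD X R, Is d p.1 p.2 ∧ Is e q.1 q.2 ∧ K d e) p := by
          intro d hd
          induction hd with
          | intro d _ ih =>
            intro p hp
            refine ⟨p, fun q hq => ?_⟩
            obtain ⟨e, d', h1, h2, h3⟩ := hq
            rw [h2.unique hp] at h3
            exact ih e h3 q h1
        exact key d (hS.wf.apply d) p hd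
      · refine ⟨p, fun q hq => ?_⟩
        obtain ⟨e, d', h1, h2, h3⟩ := hq
        exact (hp ⟨d', h2⟩).elim
    · rintro x y z w ⟨ht, d, a, b, c, h1, h2, h3, h4, h5⟩
      exact ⟨X.sq_rot _ _ _ _ (X.sq_rot _ _ _ _ (X.sq_flip _ _ _ _ ht)), _, _, _, _, h1.inv,
        h4.inv, h3.inv, h2.inv, hS.inv _ _ _ _ h5⟩
    · rintro x y z w ⟨ht, d, a, b, c, h1, h2, h3, h4, h5⟩ ⟨d', h6, h7⟩
      rw [h6.unique h1] at h7
      exact hS.not _ _ _ _ h5 h7
    · rintro x y z w ⟨ht, d, a, b, c, h1, h2, h3, h4, h5⟩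
      rcases hS.left _ _ _ _ h5 with h6 | h6
      · exact Or.inl ⟨a, h2, h6⟩
      · exact Or.inr ⟨a, d, h2, h1, h6⟩
    · rintro x y z w ⟨ht, d, a, b, c, h1, h2, h3, h4, h5⟩
      rcases hS.mid _ _ _ _ h5 with h6 | h6
      · exact Or.inl ⟨b, h3, h6⟩
      · exact Or.inr ⟨b, d, h3, h1, h6⟩
    · rintro x y z w ⟨ht, d, a, b, c, h1, h2, h3, h4, h5⟩
      rcases hS.right _ _ _ _ h5 with h6 | h6
      · exact Or.inl ⟨c, h4, h6⟩
      · exact Or.inr ⟨c, d, h4, h1, h6⟩
    · intro x y hxy hT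
      have hd : Is (dt hxy : QD X R) x y := ⟨hxy, rfl⟩
      obtain ⟨a, b, c, hab⟩ := hS.ex (dt hxy) (fun h => hT ⟨_, hd, h⟩)
      obtain ⟨u, v, w, z, ht, h1, h2, h3, h4⟩ := hS.sq _ _ _ _ hab
      obtain ⟨g, hg1, hg2⟩ := h1.trans hd
      refine ⟨g • w, g • z, ?_, dt hxy, a, b, c, hd, ?_, ?_, ?_, hab⟩
      · rw [← hg1, ← hg2]
        exact hN.acts.2 g _ _ _ _ ht
      · rw [← hg2]
        exact h2.smul hN.acts g
      · exact h3.smul hN.acts g
      · rw [← hg1]
        exact h4.smul hN.acts g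
    · rintro x y z w z' w' ⟨ht, d, a, b, c, h1, h2, h3, h4, h5⟩
        ⟨ht', d', a', b', c', h1', h2', h3', h4', h5'⟩
      rw [h1'.unique h1] at h5'
      obtain ⟨-, -, e2⟩ := hS.un _ _ _ _ _ _ _ h5 h5'
      rw [← e2] at h4'
      obtain ⟨r, hr1, hr2⟩ := h4.trans h4'
      have key : w = w' → z = z' ∧ w = w' := by
        rintro rfl
        exact ⟨hN.girth.two _ _ _ _ _ ht ht', rfl⟩
      apply key
      by_cases hxw : Fx R x w
      · rw [← hr1]
        exact (hN.rigid _ _ (X.adj_symm _ _ h4.adj) hxw r hr2).symm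
      by_cases hxy : Fx R x y
      · exfalso
        apply hxw
        have h6 := FD.fx (hS.fix _ _ _ _ h5 ⟨x, y, h1, hxy⟩).2 h4
        exact h6.symm
      · have c1 : X.Cor x w y := (show X.Cor x y w from ⟨_, ht⟩).symm
        have c2 : X.Cor x y w' := ⟨_, ht'⟩
        have h6 := hN.far x r hr2 2 (by norm_num)
          (fun i => if i = 0 then w else if i = 1 then y else w') (fun i hi => by
            interval_cases i
            · simpa using c1
            · simpa using c2) (fun i hi => by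
            interval_cases i
            · simpa using hxw
            · simpa using hxy
            · simp only [OfNat.ofNat_ne_zero, if_false, OfNat.ofNat_ne_one]
              intro h7
              refine hxw (Fx.of_smul (g := r) ?_)
              rw [hr2, hr1]
              exact h7) (by simp [hr1])
        rw [← hr1, h6, one_smul]
    · intro x y z w ht
      have h1 : Is (dt (X.sq_adj _ _ _ _ ht) : QD X R) x y := ⟨_, rfl⟩
      have h2 : Is (dt (adj2 ht) : QD X R) y z := ⟨_, rfl⟩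
      have h3 : Is (dt (adj3 ht) : QD X R) z w := ⟨_, rfl⟩
      have h4 : Is (dt (adj4 ht) : QD X R) w x := ⟨_, rfl⟩
      have t2 := X.sq_rot _ _ _ _ ht
      have t3 := X.sq_rot _ _ _ _ t2
      have t4 := X.sq_rot _ _ _ _ t3
      rcases hS.all _ _ _ _ ⟨x, y, z, w, ht, h1, h2, h3, h4⟩ with h5 | h5 | h5 | h5
      · exact Or.inl ⟨ht, _, _, _, _, h1, h2, h3, h4, h5⟩
      · exact Or.inr (Or.inl ⟨t2, _, _, _, _, h2, h3, h4, h1, h5⟩)
      · exact Or.inr (Or.inr (Or.inl ⟨t3, _, _, _, _, h3, h4, h1, h2, h5⟩))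
      · exact Or.inr (Or.inr (Or.inr ⟨t4, _, _, _, _, h4, h1, h2, h3, h5⟩))
    · rintro x y z w ⟨ht, -⟩
      exact ht
  refine Pool.Agent.Helper3.FJ.tree hC _ hsc (fun _ _ _ h => h) ?_ ?_
    fun _ => ⟨Q, _, f, hQ, fun v _ g => hf v g⟩
  · rintro g u v ⟨d, h1, h2⟩
    exact ⟨d, h1.smul hN.acts g, h2⟩
  · rintro g u v ⟨d, h1, h2⟩ e1 e2
    have h3 := h1.smul hN.acts g
    rw [e1, e2] at h3
    exact SC.inv_ne (h := hh) d (h1.inv.unique h3)

end Sqx

end Pool.Agent.Helper9.SQ
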