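import Pool.Agent.Helper9.SQ.Main2
import Pool.Agent.Helper9.SQ.Prod
import Pool.Agent.Helper3.FJ.Latt

/-!
# Linear groups of degree two over fields with two discrete valuations
-/

set_option autoImplicit false

namespace Pool.Agent.Helper9.SQ

open WithZero Pool.Agent.Helper29.BA Pool.Agent.Helper29.PA
open Pool.Agent.Helper3.FJ (Cpx LatSys LatAct Latt sg latSys stab_bound smul_eq_zpow no_chain)

open scoped Matrix MatrixGroups

variable {K : Type} [Field K]

/-- The value of the determinant. -/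
noncomputable def dtv (v : Valuation K ℤᵐ⁰) (n : ℕ) : GL (Fin n) K →* (ℤᵐ⁰)ˣ :=
  (Units.map v.toMonoidWithZeroHom.toMonoidHom).comp (Units.map (Matrix.detMonoidHom))

theorem dtv_class {C : ∀ (G : Type) [Group G], Prop} (hC : ClosedClass C) : C (ℤᵐ⁰)ˣ :=
  hC.iso _ _ WithZero.unitsWithZeroEquiv.symm hC.int

theorem exists_pi {v : Valuation K ℤᵐ⁰} (hv : Function.Surjective v) : ∃ π : Kˣ, v π = exp (-1) := by
  obtain ⟨x, hx⟩ := hv (exp (-1))
  have h0 : x ≠ 0 := by
    rintro rfl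
    rw [map_zero] at hx
    exact exp_ne_zero hx.symm
  exact ⟨Units.mk0 x h0, hx⟩

/-- An element which fixes the class of a lattice and whose determinant is a unit is bounded. -/
theorem class_bound {v : Valuation K ℤᵐ⁰} {π : Kˣ} (hπ : v π = exp (-1))
    (S : Finset (LatSys.Vx (sg v 2 π))) : ∃ M : ℤ, ∀ u ∈ S, ∀ (Γ : Subgroup (GL (Fin 2) K)) (g : Γ),
      g • u = u → v g.1.1.det = 1 → ∀ i j, v (g.1.1 i j) ≤ exp M := by
  classical
  choose M hM using fun L : Latt v 2 => stab_bound hπ L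
  refine ⟨∑ u ∈ S, |M (LatSys.rep u)|, fun u hu Γ g hg h3 i j => ?_⟩
  have h4 : g • LatSys.rep u = LatSys.rep u := by
    have h5 : LatSys.cls (sg v 2 π) (g • LatSys.rep u) = LatSys.cls (sg v 2 π) (LatSys.rep u) := by
      rw [← LatSys.smul_cls, LatSys.cls_rep]
      exact hg
    obtain ⟨k, hk⟩ := LatSys.cls_eq.1 h5.symm
    have h6 := smul_eq_zpow hπ h3 hk.symm
    rw [h6, zpow_zero] at hk
    exact hk.symm
  refine (hM _ g.1 (le_of_eq h4) i j).trans (exp_le_exp.2 ((le_abs_self _).trans ?_))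
  exact Finset.single_le_sum (f := fun u => |M (LatSys.rep u)|) (fun _ _ => abs_nonneg _) hu

/-- Groups of matrices of degree two over a field with two discrete valuations. -/
theorem two_val {C : ∀ (G : Type) [Group G], Prop} (hC : SqClass C) {v w : Valuation K ℤᵐ⁰}
    (hv : Function.Surjective v) (hw : Function.Surjective w) (Γ : Subgroup (GL (Fin 2) K))
    (hQ : ∀ m : ℤ, ∃ (Q : Type) (_ : Group Q) (f : Γ →* Q), C Q ∧
      ∀ g : Γ, f g = 1 → v g.1.1.det = 1 → w g.1.1.det = 1 →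
        (∀ i j, v (g.1.1 i j) ≤ exp m ∧ w (g.1.1 i j) ≤ exp m) → g = 1) : C Γ := by
  classical
  obtain ⟨π, hπ⟩ := exists_pi hv
  obtain ⟨ρ, hρ⟩ := exists_pi hw
  have h := latSys (n := 2) hπ
  have k := latSys (n := 2) hρ
  have hno : ∀ {v : Valuation K ℤᵐ⁰} {π : Kˣ} (hπ : v π = exp (-1)) (u v' w : LatSys.Vx (sg v 2 π)),
      ¬ ((latSys (n := 2) hπ).cpx).tri u v' w := by
    intro v π hπ
    refine LatSys.no_tri _ fun L M N h1 h2 h3 => ?_
    refine no_chain hπ (n := 2) ![L, M, N, sg v 2 π L] ?_ le_rfl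
    intro i
    fin_cases i
    · exact h1
    · exact h2
    · exact h3
  refine Sqx.main (X := prd h.cpx k.cpx) (G := Γ) hC
    (prd_acts (LatSys.acts h).1 (LatSys.acts k).1)
    (prd_simplyConn h.simplyConn k.simplyConn (hno hπ) (hno hρ)) (prd_linkGirth _ _) ?_
  intro S
  obtain ⟨M, hM⟩ := class_bound hπ (S.image Prod.fst)
  obtain ⟨N, hN⟩ := class_bound hρ (S.image Prod.snd)
  obtain ⟨Q, _, f, hCQ, hf⟩ := hQ (max M N)
  refine ⟨Q × (ℤᵐ⁰)ˣ × (ℤᵐ⁰)ˣ, inferInstance,
    f.prod (((dtv v 2).comp Γ.subtype).prod ((dtv w 2).comp Γ.subtype)),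
    hC.prod _ _ hCQ (hC.prod _ _ (dtv_class hC.toClosedClass) (dtv_class hC.toClosedClass)),
    fun u hu g hg hfg => ?_⟩
  have h1 : f g = 1 := congrArg Prod.fst hfg
  have h2 : dtv v 2 g.1 = 1 := congrArg (fun z => z.2.1) hfg
  have h3 : dtv w 2 g.1 = 1 := congrArg (fun z => z.2.2) hfg
  have h4 : v g.1.1.det = 1 := congrArg Units.val h2
  have h5 : w g.1.1.det = 1 := congrArg Units.val h3
  refine hf g h1 h4 h5 fun i j => ⟨?_, ?_⟩
  · exact (hM u.1 (Finset.mem_image_of_mem _ hu) Γ g (congrArg Prod.fst hg) h4 i j).trans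
      (exp_le_exp.2 (le_max_left _ _))
  · exact (hN u.2 (Finset.mem_image_of_mem _ hu) Γ g (congrArg Prod.snd hg) h5 i j).trans
      (exp_le_exp.2 (le_max_right _ _))

end Pool.Agent.Helper9.SQ
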